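import Pool.Agent.US97.Defs

/-!
# US97/ArrInpA: the digits of the windows
-/

namespace Pool.Agent.US97

/-- two digits -/
theorem dig2 {c x y x' y' : ℕ} (hy : y < c) (hy' : y' < c) (h : x * c + y = x' * c + y') :
    x = x' ∧ y = y' := by
  have hc : 0 < c := by omega
  have h1 : (x * c + y) / c = x := by
    rw [mul_comm, Nat.mul_add_div hc, Nat.div_eq_of_lt hy, add_zero]
  have h2 : (x' * c + y') / c = x' := by
    rw [mul_comm, Nat.mul_add_div hc, Nat.div_eq_of_lt hy', add_zero]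
  have h3 : x = x' := by rw [← h1, ← h2, h]
  subst h3
  exact ⟨rfl, by omega⟩

/-- three digits, the last two smaller than `c` -/
theorem dig3 {c x y z x' y' z' : ℕ} (hy : y < c) (hy' : y' < c) (hz : z < c) (hz' : z' < c)
    (h : x * c ^ 2 + y * c + z = x' * c ^ 2 + y' * c + z') : x = x' ∧ y = y' ∧ z = z' := by
  have e : (x * c + y) * c + z = (x' * c + y') * c + z' := by
    have e1 : (x * c + y) * c + z = x * c ^ 2 + y * c + z := by ring
    have e2 : (x' * c + y') * c + z' = x' * c ^ 2 + y' * c + z' := by ring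
    rw [e1, e2, h]
  obtain ⟨h1, h2⟩ := dig2 hz hz' e
  obtain ⟨h3, h4⟩ := dig2 hy hy' h1
  exact ⟨h3, h4, h2⟩

theorem ell_pos {b u : ℕ} (hb : 0 < b) (hu : 0 < u) : 0 < ell b u := by
  unfold ell; positivity

theorem dA_h {b u p : ℕ} (hb : 0 < b) (hu : 0 < u) : p % ell b u / b < 4096 * u := by
  apply Nat.div_lt_of_lt_mul
  have h := Nat.mod_lt p (ell_pos hb hu)
  unfold ell at h ⊢
  rw [mul_comm b (4096 * u)]
  exact h

theorem dA_i {b u p : ℕ} (hp : p < b * ell b u) : p / ell b u < b := by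
  apply Nat.div_lt_of_lt_mul
  rw [mul_comm]
  exact hp

theorem dig3_lt {c h d i m : ℕ} (hh : h < m) (hd : d < c) (hi : i < c) :
    h * c ^ 2 + d * c + i < m * c ^ 2 := by
  have h1 : d * c + i < c ^ 2 := by
    have : (d + 1) * c ≤ c * c := Nat.mul_le_mul_right _ hd
    have e : (d + 1) * c = d * c + c := by ring
    rw [sq]
    omega
  have h2 : (h + 1) * c ^ 2 ≤ m * c ^ 2 := Nat.mul_le_mul_right _ hh
  have e : (h + 1) * c ^ 2 = h * c ^ 2 + c ^ 2 := by ring
  omega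

theorem gA_lt58 {b u p : ℕ} (hb : 0 < b) (hu : 0 < u) (hp : p < b * ell b u) :
    gA b u p < 4 * (b * ell b u) := by
  have h1 := dA_h (p := p) hb hu
  have h2 := Nat.mod_lt (p % ell b u) hb
  have h3 := dA_i hp
  have h4 := dig3_lt (c := 2 * b) h1 (d := p % ell b u % b) (i := p / ell b u) (by omega) (by omega)
  unfold gA
  refine lt_of_lt_of_eq h4 ?_
  unfold ell
  ring

theorem gB_lt58 {b u p : ℕ} (hb : 0 < b) (hu : 0 < u) (hp : p < b * ell b u) :
    gB b u p < 4 * (b * ell b u) := by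
  have h1 := dA_h (p := p) hb hu
  have h2 := Nat.mod_lt (p % ell b u) hb
  have h3 := dA_i hp
  have h4 := dig3_lt (c := 2 * b) h1 (d := p / ell b u) (i := p % ell b u % b) (by omega) (by omega)
  unfold gB
  refine lt_of_lt_of_eq h4 ?_
  unfold ell
  ring

theorem dA_eq {b u p : ℕ} : p = ell b u * (p / ell b u) + (b * (p % ell b u / b) +
    p % ell b u % b) := by
  rw [Nat.div_add_mod, Nat.div_add_mod]

theorem gA_inj58 {b u p p' : ℕ} (hb : 0 < b) (hp : p < b * ell b u)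
    (hp' : p' < b * ell b u) (h : gA b u p = gA b u p') : p = p' := by
  have h2 := Nat.mod_lt (p % ell b u) hb
  have h2' := Nat.mod_lt (p' % ell b u) hb
  have h3 := dA_i hp
  have h3' := dA_i hp'
  unfold gA at h
  obtain ⟨k1, k2, k3⟩ := dig3 (by omega) (by omega) (by omega) (by omega) h
  rw [dA_eq (b := b) (u := u) (p := p), dA_eq (b := b) (u := u) (p := p'), k1, k2, k3]

theorem gB_inj58 {b u p p' : ℕ} (hb : 0 < b) (hp : p < b * ell b u)
    (hp' : p' < b * ell b u) (h : gB b u p = gB b u p') : p = p' := by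
  have h2 := Nat.mod_lt (p % ell b u) hb
  have h2' := Nat.mod_lt (p' % ell b u) hb
  have h3 := dA_i hp
  have h3' := dA_i hp'
  unfold gB at h
  obtain ⟨k1, k2, k3⟩ := dig3 (by omega) (by omega) (by omega) (by omega) h
  rw [dA_eq (b := b) (u := u) (p := p), dA_eq (b := b) (u := u) (p := p'), k1, k2, k3]

/-! ### kind C -/

theorem dC_h {b u p : ℕ} (hb : 0 < b) (hu : 0 < u) : p % (8 * ell b u) / (8 * b) < 4096 * u := by
  apply Nat.div_lt_of_lt_mul
  have h0 : 0 < 8 * ell b u := by have := ell_pos hb hu; omega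
  have h := Nat.mod_lt p h0
  refine lt_of_lt_of_eq h ?_
  unfold ell
  ring

theorem dC_k {b u p : ℕ} (hp : p < 8 * (b * ell b u)) : p / (8 * ell b u) < b := by
  apply Nat.div_lt_of_lt_mul
  have e : 8 * ell b u * b = 8 * (b * ell b u) := by ring
  rw [e]
  exact hp

theorem dC_D0 {b x q : ℕ} (hb : 0 < b) (hq : q < 2) : x % b + q * b < 2 * b := by
  have h1 := Nat.mod_lt x hb
  have h2 : q * b ≤ 1 * b := Nat.mul_le_mul_right _ (by omega)
  omega

theorem gC_lt58 {b u p : ℕ} (hb : 0 < b) (hu : 0 < u) :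
    gC b u p < 8 * (b * ell b u) := by
  have h1 := dC_h (p := p) hb hu
  have h2 := Nat.mod_lt (p % (8 * ell b u) / 4) (show 0 < 2 * b by omega)
  have h3 := Nat.mod_lt (p % (8 * ell b u) / 2) (show 0 < 2 by omega)
  have h4 := dC_D0 (b := b) (x := p / (8 * ell b u) + 2 * b - p % (8 * ell b u) / 4 % (2 * b)) hb h3
  have h5 : 2 * (p % (8 * ell b u) / (8 * b)) < 2 * (4096 * u) := by omega
  have h6 := dig3_lt (c := 2 * b) h5 h2 h4
  unfold gC
  refine lt_of_lt_of_eq h6 ?_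
  unfold ell
  ring

theorem gC_inj58 {b u p p' : ℕ} (hb : 0 < b) (hp : p < 8 * (b * ell b u))
    (hp' : p' < 8 * (b * ell b u)) (h : gC b u p = gC b u p') : p / 2 = p' / 2 := by
  obtain ⟨m, hm⟩ : ∃ m, m = p % (8 * ell b u) := ⟨_, rfl⟩
  obtain ⟨m', hm'⟩ : ∃ m', m' = p' % (8 * ell b u) := ⟨_, rfl⟩
  obtain ⟨k, hk⟩ : ∃ k, k = p / (8 * ell b u) := ⟨_, rfl⟩
  obtain ⟨k', hk'⟩ : ∃ k', k' = p' / (8 * ell b u) := ⟨_, rfl⟩
  have hkb : k < b := hk ▸ dC_k hp
  have hkb' : k' < b := hk' ▸ dC_k hp'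
  unfold gC at h
  rw [← hm, ← hm', ← hk, ← hk'] at h
  have h2 := Nat.mod_lt (m / 4) (show 0 < 2 * b by omega)
  have h2' := Nat.mod_lt (m' / 4) (show 0 < 2 * b by omega)
  have h3 := Nat.mod_lt (m / 2) (show 0 < 2 by omega)
  have h3' := Nat.mod_lt (m' / 2) (show 0 < 2 by omega)
  obtain ⟨k1, k2, k3⟩ := dig3 h2 h2' (dC_D0 hb h3) (dC_D0 hb h3') h
  have k1' : m / (8 * b) = m' / (8 * b) := by omega
  rw [← k2] at k3
  obtain ⟨D, hD⟩ : ∃ D, D = m / 4 % (2 * b) := ⟨_, rfl⟩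
  rw [← hD] at k2 k3 h2
  have h4 := Nat.mod_lt (k + 2 * b - D) hb
  have h4' := Nat.mod_lt (k' + 2 * b - D) hb
  obtain ⟨k4, k5⟩ := dig2 (c := b) (x := m / 2 % 2) (x' := m' / 2 % 2) h4 h4' (by omega)
  -- the block
  have k6 : k = k' := by
    have e1 : (k + (2 * b - D)) ≡ (k' + (2 * b - D)) [MOD b] := by
      unfold Nat.ModEq
      rw [show k + (2 * b - D) = k + 2 * b - D by omega,
        show k' + (2 * b - D) = k' + 2 * b - D by omega]
      exact k5
    have e2 := Nat.ModEq.add_right_cancel' _ e1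
    unfold Nat.ModEq at e2
    rwa [Nat.mod_eq_of_lt hkb, Nat.mod_eq_of_lt hkb'] at e2
  -- the cell
  have e4 : m / 4 / (2 * b) = m / (8 * b) := by
    rw [Nat.div_div_eq_div_mul]; congr 1; ring
  have e4' : m' / 4 / (2 * b) = m' / (8 * b) := by
    rw [Nat.div_div_eq_div_mul]; congr 1; ring
  have e5 : m / 4 = m' / 4 := by
    rw [← Nat.div_add_mod (m / 4) (2 * b), ← Nat.div_add_mod (m' / 4) (2 * b), e4, e4', k1', ← hD,
      k2]
  have e6 : m / 2 = m' / 2 := by omega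
  have e7 : p = 8 * ell b u * k + m := by rw [hk, hm, Nat.div_add_mod]
  have e7' : p' = 8 * ell b u * k' + m' := by rw [hk', hm', Nat.div_add_mod]
  have e8 : p / 2 = 4 * ell b u * k + m / 2 := by
    rw [e7, show 8 * ell b u * k + m = 2 * (4 * ell b u * k) + m by ring,
      Nat.mul_add_div (by norm_num)]
  have e8' : p' / 2 = 4 * ell b u * k' + m' / 2 := by
    rw [e7', show 8 * ell b u * k' + m' = 2 * (4 * ell b u * k') + m' by ring,
      Nat.mul_add_div (by norm_num)]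
  rw [e8, e8', k6, e6]

end Pool.Agent.US97
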