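import Pool.Agent.US97.ArrInpS78
import Pool.Agent.US97.ArrInpA

/-!
# US97/ArrInp: the arrays are admissible

Ranges: `gA, gB < 4096 u (2b)^2 = 4 b ell`, `gC < 8 b ell`; `8 ww (b ell) ≤ K` as `10 b ell ≤ n`.
So A in `[6K,7K)`, B in `[9K,10K)`, C in `[15K,17K)`, fillers in `[-n^3, -n^3+n)`, `17 K ≤ n^3`.
The digits of `gA p` in base `2b` give back `p` (`p / ell < b`, `p % ell % b < b`), the same for `gB`, `gC`
(for `gC`: `D < 2b`, `D0 = (k + 2b - D) % b + q b < 2b`, `q = D0 / b`, `k = (D + D0) % b`).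
-/

namespace Pool.Agent.US97

open Finset Pool.Agent.TS42

theorem gA_lt {b u p : ℕ} (hb : 0 < b) (hu : 0 < u) (hp : p < b * ell b u) :
    gA b u p < 4 * (b * ell b u) :=
  gA_lt58 hb hu hp

theorem gB_lt {b u p : ℕ} (hb : 0 < b) (hu : 0 < u) (hp : p < b * ell b u) :
    gB b u p < 4 * (b * ell b u) :=
  gB_lt58 hb hu hp

theorem gC_lt {b u p : ℕ} (hb : 0 < b) (hu : 0 < u) (hp : p < 8 * (b * ell b u)) :
    gC b u p < 8 * (b * ell b u) :=
  gC_lt58 hb hu

theorem gA_inj {b u p p' : ℕ} (hb : 0 < b) (hu : 0 < u) (hp : p < b * ell b u)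
    (hp' : p' < b * ell b u) (h : gA b u p = gA b u p') : p = p' :=
  gA_inj58 hb hp hp' h

theorem gB_inj {b u p p' : ℕ} (hb : 0 < b) (hu : 0 < u) (hp : p < b * ell b u)
    (hp' : p' < b * ell b u) (h : gB b u p = gB b u p') : p = p' :=
  gB_inj58 hb hp hp' h

/-- the two cells `2 s`, `2 s + 1` of kind C have the same window -/
theorem gC_inj {b u p p' : ℕ} (hb : 0 < b) (hu : 0 < u) (hp : p < 8 * (b * ell b u))
    (hp' : p' < 8 * (b * ell b u)) (h : gC b u p = gC b u p') : p / 2 = p' / 2 :=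
  gC_inj58 hb hp hp' h

theorem arr_inp {n b u : ℕ} (hb : 0 < b) (hu : 0 < u) (hn : 10 * (b * ell b u) ≤ n) (ω : Om n b u) :
    InpU n (arr ω) :=
  ArrInpS78.arr_inp_of hb hu (fun _ h => gA_lt hb hu h) (fun _ h => gB_lt hb hu h) (fun _ h => gC_lt hb hu h)
    (fun _ _ h h' => gA_inj hb hu h h') (fun _ _ h h' => gB_inj hb hu h h')
    (fun _ _ h h' => gC_inj hb hu h h') hn ω

end Pool.Agent.US97
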