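import Pool.Agent.US97.Defs

/-!
# US97/ArrInpS78: the arrays are admissible, from the ranges and the injectivity of the windows
-/

namespace Pool.Agent.US97.ArrInpS78

open Finset Pool.Agent.TS42

theorem arr_A {n b u : ℕ} (ω : Om n b u) {p : Fin n} (hp : (p : ℕ) < b * ell b u) :
    ∃ r < ww n, arr ω p = ((6 * KK n + 2 * ww n * gA b u p + r : ℕ) : ℤ) :=
  ⟨(rs ω p).val, ZMod.val_lt _, by rw [arr, if_pos hp]⟩

theorem arr_B {n b u : ℕ} (ω : Om n b u) {p : Fin n} (h1 : b * ell b u ≤ p)
    (h2 : (p : ℕ) < 2 * (b * ell b u)) :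
    ∃ r < ww n, arr ω p = ((9 * KK n + 2 * ww n * gB b u (p - b * ell b u) + r : ℕ) : ℤ) :=
  ⟨(rs ω p).val, ZMod.val_lt _, by rw [arr, if_neg (not_lt.2 h1), if_pos h2]⟩

theorem arr_C {n b u : ℕ} (ω : Om n b u) {p : Fin n} (h1 : 2 * (b * ell b u) ≤ p)
    (h2 : (p : ℕ) < 10 * (b * ell b u)) :
    ∃ r < ww n, arr ω p = ((15 * KK n + 2 * ww n * gC b u (p - 2 * (b * ell b u)) +
      (p - 2 * (b * ell b u)) % 2 * ww n + r : ℕ) : ℤ) :=
  ⟨(rs ω (2 * (b * ell b u) + (p - 2 * (b * ell b u)) / 2)).val, ZMod.val_lt _, by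
    rw [arr, if_neg (by omega), if_neg (not_lt.2 h1), if_pos h2]⟩

theorem arr_D {n b u : ℕ} (ω : Om n b u) {p : Fin n} (h1 : 10 * (b * ell b u) ≤ p) :
    arr ω p = -(n : ℤ) ^ 3 + (p : ℕ) := by
  rw [arr, if_neg (by omega), if_neg (by omega), if_neg (not_lt.2 h1)]

/-- `8 w L ≤ K` -/
theorem num1 {n L : ℕ} (hL : 4096 ≤ L) (hn : 10 * L ≤ n) : 8 * (ww n * L) ≤ KK n := by
  rw [KK, Nat.le_div_iff_mul_le (by norm_num)]
  have h1 : 20 * ww n ≤ n ^ 2 + 20 := by
    have := Nat.div_mul_le_self (n ^ 2) 20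
    rw [ww]
    omega
  have h2 : ww n * (10 * L) ≤ ww n * n := Nat.mul_le_mul_left _ hn
  have h3 : (4 * n) * (20 * ww n) ≤ (4 * n) * (n ^ 2 + 20) := Nat.mul_le_mul_left _ h1
  have h4 : 80 * n ≤ n ^ 3 := by
    have h5 : 80 ≤ n ^ 2 := by nlinarith
    calc 80 * n ≤ n ^ 2 * n := Nat.mul_le_mul_right _ h5
      _ = n ^ 3 := by ring
  have h6 : 5 * (8 * (ww n * L) * 20) = 80 * (ww n * (10 * L)) := by ring
  have h7 : (4 * n) * (20 * ww n) = 80 * (ww n * n) := by ring
  have h8 : (4 * n) * (n ^ 2 + 20) = 4 * n ^ 3 + 80 * n := by ring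
  have h9 : 5 * (8 * (ww n * L) * 20) ≤ 5 * n ^ 3 := by
    rw [h6]
    calc 80 * (ww n * (10 * L)) ≤ 80 * (ww n * n) := Nat.mul_le_mul_left _ h2
      _ = (4 * n) * (20 * ww n) := h7.symm
      _ ≤ 4 * n ^ 3 + 80 * n := by rw [← h8]; exact h3
      _ ≤ 5 * n ^ 3 := by omega
  omega

theorem num2 (n : ℕ) : 20 * KK n ≤ n ^ 3 := by
  have := Nat.div_mul_le_self (n ^ 3) 20
  rw [KK]
  omega

/-- upper bound of a number in a window -/
theorem win {w g r G L K : ℕ} (hr : r < w) (hg : g < G * L) (hK : 2 * G * (w * L) ≤ K) :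
    2 * w * g + r + 1 ≤ K ∧ 2 * w * g + w + r + 1 ≤ K := by
  have h1 : 2 * w * (g + 1) ≤ 2 * w * (G * L) := Nat.mul_le_mul_left _ hg
  have h2 : 2 * w * (G * L) = 2 * G * (w * L) := by ring
  have h3 : 2 * w * (g + 1) = 2 * w * g + 2 * w := by ring
  omega

theorem digit {w g g' r r' : ℕ} (hr : r < 2 * w) (hr' : r' < 2 * w)
    (h : 2 * w * g + r = 2 * w * g' + r') : g = g' ∧ r = r' := by
  have hw : 0 < 2 * w := by omega
  have e1 : (2 * w * g + r) / (2 * w) = g := by
    rw [Nat.mul_add_div hw, Nat.div_eq_of_lt hr, add_zero]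
  have e2 : (2 * w * g' + r') / (2 * w) = g' := by
    rw [Nat.mul_add_div hw, Nat.div_eq_of_lt hr', add_zero]
  have e3 : g = g' := by rw [← e1, ← e2, h]
  subst e3
  exact ⟨rfl, by omega⟩

theorem arr_inp_of {n b u : ℕ} (hb : 0 < b) (hu : 0 < u)
    (gA_lt : ∀ p, p < b * ell b u → gA b u p < 4 * (b * ell b u))
    (gB_lt : ∀ p, p < b * ell b u → gB b u p < 4 * (b * ell b u))
    (gC_lt : ∀ p, p < 8 * (b * ell b u) → gC b u p < 8 * (b * ell b u))
    (gA_inj : ∀ p p', p < b * ell b u → p' < b * ell b u → gA b u p = gA b u p' → p = p')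
    (gB_inj : ∀ p p', p < b * ell b u → p' < b * ell b u → gB b u p = gB b u p' → p = p')
    (gC_inj : ∀ p p', p < 8 * (b * ell b u) → p' < 8 * (b * ell b u) →
      gC b u p = gC b u p' → p / 2 = p' / 2)
    (hn : 10 * (b * ell b u) ≤ n) (ω : Om n b u) : InpU n (arr ω) := by
  have hL : 4096 ≤ b * ell b u := by
    have h1 : 1 ≤ u * b := Nat.mul_pos hu hb
    have h2 : 4096 ≤ ell b u := by
      rw [ell, mul_assoc]
      omega
    calc 4096 ≤ ell b u := h2
      _ ≤ b * ell b u := Nat.le_mul_of_pos_left _ hb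
  have hK := num1 hL hn
  have hK3 := num2 n
  have hnn : n ≤ n ^ 3 := Nat.le_self_pow (by norm_num) n
  generalize hLL : b * ell b u = L at *
  have hnz : ((n ^ 3 : ℕ) : ℤ) = (n : ℤ) ^ 3 := by push_cast; ring
  -- the four ranges
  have rA : ∀ p : Fin n, (p : ℕ) < L → ∃ r < ww n, arr ω p =
      ((6 * KK n + (2 * ww n * gA b u p + r) : ℕ) : ℤ) ∧ 2 * ww n * gA b u p + r < KK n := by
    intro p hp
    obtain ⟨r, hr, h⟩ := arr_A ω (p := p) (by rw [hLL]; exact hp)
    refine ⟨r, hr, by rw [h, add_assoc], ?_⟩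
    have := (win hr (gA_lt p hp) (K := KK n) (by omega)).1
    omega
  have rB : ∀ p : Fin n, L ≤ (p : ℕ) → (p : ℕ) < 2 * L → ∃ r < ww n, arr ω p =
      ((9 * KK n + (2 * ww n * gB b u (p - L) + r) : ℕ) : ℤ) ∧
        2 * ww n * gB b u (p - L) + r < KK n := by
    intro p h1 h2
    obtain ⟨r, hr, h⟩ := arr_B ω (p := p) (by rw [hLL]; exact h1) (by rw [hLL]; exact h2)
    rw [hLL] at h
    refine ⟨r, hr, by rw [h, add_assoc], ?_⟩
    have := (win hr (gB_lt (p - L) (by omega)) (K := KK n) (by omega)).1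
    omega
  have rC : ∀ p : Fin n, 2 * L ≤ (p : ℕ) → (p : ℕ) < 10 * L → ∃ r < ww n, arr ω p =
      ((15 * KK n + (2 * ww n * gC b u (p - 2 * L) + ((p - 2 * L) % 2 * ww n + r)) : ℕ) : ℤ) ∧
        2 * ww n * gC b u (p - 2 * L) + ((p - 2 * L) % 2 * ww n + r) < 2 * KK n := by
    intro p h1 h2
    obtain ⟨r, hr, h⟩ := arr_C ω (p := p) (by rw [hLL]; exact h1) (by rw [hLL]; exact h2)
    rw [hLL] at h
    refine ⟨r, hr, by rw [h, add_assoc, add_assoc], ?_⟩
    have h3 := (win hr (gC_lt (p - 2 * L) (by omega)) (K := 2 * KK n) (by omega)).2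
    have h4 : (p - 2 * L) % 2 * ww n ≤ ww n := by
      rcases Nat.mod_two_eq_zero_or_one (p - 2 * L) with h5 | h5 <;> rw [h5] <;> omega
    omega
  have rD : ∀ p : Fin n, 10 * L ≤ (p : ℕ) → arr ω p = -(n : ℤ) ^ 3 + (p : ℕ) := by
    intro p h1
    exact arr_D ω (p := p) (by rw [hLL]; exact h1)
  refine ⟨?_, ?_⟩
  · intro p q hpq
    have hp := p.isLt
    have hq := q.isLt
    have parC : ∀ p : Fin n, ((p : ℕ) - 2 * L) % 2 * ww n < 2 * ww n := by
      intro p
      have hw : 0 < ww n := Nat.succ_pos _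
      rcases Nat.mod_two_eq_zero_or_one ((p : ℕ) - 2 * L) with h5 | h5 <;> rw [h5] <;> omega
    rcases lt_or_ge (p : ℕ) L with p1 | p1
    · obtain ⟨r, hr, e, hlt⟩ := rA p p1
      rcases lt_or_ge (q : ℕ) L with q1 | q1
      · obtain ⟨r', hr', e', hlt'⟩ := rA q q1
        rw [e, e'] at hpq
        have h1 : 2 * ww n * gA b u p + r = 2 * ww n * gA b u q + r' := by
          have := Nat.cast_injective (R := ℤ) hpq
          omega
        exact Fin.ext (gA_inj _ _ p1 q1 (digit (by omega) (by omega) h1).1)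
      · exfalso
        rcases lt_or_ge (q : ℕ) (2 * L) with q2 | q2
        · obtain ⟨r', hr', e', hlt'⟩ := rB q q1 q2
          rw [e, e'] at hpq
          have := Nat.cast_injective (R := ℤ) hpq
          omega
        · rcases lt_or_ge (q : ℕ) (10 * L) with q3 | q3
          · obtain ⟨r', hr', e', hlt'⟩ := rC q q2 q3
            rw [e, e'] at hpq
            have := Nat.cast_injective (R := ℤ) hpq
            omega
          · rw [e, rD q q3, ← hnz] at hpq
            omega
    · rcases lt_or_ge (p : ℕ) (2 * L) with p2 | p2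
      · obtain ⟨r, hr, e, hlt⟩ := rB p p1 p2
        rcases lt_or_ge (q : ℕ) L with q1 | q1
        · exfalso
          obtain ⟨r', hr', e', hlt'⟩ := rA q q1
          rw [e, e'] at hpq
          have := Nat.cast_injective (R := ℤ) hpq
          omega
        · rcases lt_or_ge (q : ℕ) (2 * L) with q2 | q2
          · obtain ⟨r', hr', e', hlt'⟩ := rB q q1 q2
            rw [e, e'] at hpq
            have h1 : 2 * ww n * gB b u (p - L) + r = 2 * ww n * gB b u (q - L) + r' := by
              have := Nat.cast_injective (R := ℤ) hpq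
              omega
            have h2 := gB_inj _ _ (by omega) (by omega) (digit (by omega) (by omega) h1).1
            exact Fin.ext (by omega)
          · exfalso
            rcases lt_or_ge (q : ℕ) (10 * L) with q3 | q3
            · obtain ⟨r', hr', e', hlt'⟩ := rC q q2 q3
              rw [e, e'] at hpq
              have := Nat.cast_injective (R := ℤ) hpq
              omega
            · rw [e, rD q q3, ← hnz] at hpq
              omega
      · rcases lt_or_ge (p : ℕ) (10 * L) with p3 | p3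
        · obtain ⟨r, hr, e, hlt⟩ := rC p p2 p3
          rcases lt_or_ge (q : ℕ) L with q1 | q1
          · exfalso
            obtain ⟨r', hr', e', hlt'⟩ := rA q q1
            rw [e, e'] at hpq
            have := Nat.cast_injective (R := ℤ) hpq
            omega
          · rcases lt_or_ge (q : ℕ) (2 * L) with q2 | q2
            · exfalso
              obtain ⟨r', hr', e', hlt'⟩ := rB q q1 q2
              rw [e, e'] at hpq
              have := Nat.cast_injective (R := ℤ) hpq
              omega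
            · rcases lt_or_ge (q : ℕ) (10 * L) with q3 | q3
              · obtain ⟨r', hr', e', hlt'⟩ := rC q q2 q3
                rw [e, e'] at hpq
                have h1 : 2 * ww n * gC b u (p - 2 * L) + ((p - 2 * L) % 2 * ww n + r) =
                    2 * ww n * gC b u (q - 2 * L) + ((q - 2 * L) % 2 * ww n + r') := by
                  have := Nat.cast_injective (R := ℤ) hpq
                  omega
                have k1 : ((p : ℕ) - 2 * L) % 2 * ww n + r < 2 * ww n := by
                  rcases Nat.mod_two_eq_zero_or_one ((p : ℕ) - 2 * L) with h5 | h5 <;> rw [h5] <;>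
                    omega
                have k2 : ((q : ℕ) - 2 * L) % 2 * ww n + r' < 2 * ww n := by
                  rcases Nat.mod_two_eq_zero_or_one ((q : ℕ) - 2 * L) with h5 | h5 <;> rw [h5] <;>
                    omega
                obtain ⟨h2, h3⟩ := digit k1 k2 h1
                have h4 := gC_inj _ _ (by omega) (by omega) h2
                have h6 : ((p : ℕ) - 2 * L) % 2 = ((q : ℕ) - 2 * L) % 2 := by
                  rcases Nat.mod_two_eq_zero_or_one ((p : ℕ) - 2 * L) with h5 | h5 <;>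
                    rcases Nat.mod_two_eq_zero_or_one ((q : ℕ) - 2 * L) with h7 | h7 <;>
                      rw [h5, h7] at h3 ⊢ <;> omega
                exact Fin.ext (by omega)
              · exfalso
                rw [e, rD q q3, ← hnz] at hpq
                omega
        · have e := rD p p3
          rw [← hnz] at e
          rcases lt_or_ge (q : ℕ) L with q1 | q1
          · exfalso
            obtain ⟨r', hr', e', hlt'⟩ := rA q q1
            rw [e, e'] at hpq
            omega
          · rcases lt_or_ge (q : ℕ) (2 * L) with q2 | q2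
            · exfalso
              obtain ⟨r', hr', e', hlt'⟩ := rB q q1 q2
              rw [e, e'] at hpq
              omega
            · rcases lt_or_ge (q : ℕ) (10 * L) with q3 | q3
              · exfalso
                obtain ⟨r', hr', e', hlt'⟩ := rC q q2 q3
                rw [e, e'] at hpq
                omega
              · rw [e, rD q q3, ← hnz] at hpq
                exact Fin.ext (by omega)
  · intro p
    have hp := p.isLt
    rw [← hnz, abs_le]
    rcases lt_or_ge (p : ℕ) L with p1 | p1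
    · obtain ⟨r, hr, e, hlt⟩ := rA p p1
      rw [e]
      constructor <;> omega
    · rcases lt_or_ge (p : ℕ) (2 * L) with p2 | p2
      · obtain ⟨r, hr, e, hlt⟩ := rB p p1 p2
        rw [e]
        constructor <;> omega
      · rcases lt_or_ge (p : ℕ) (10 * L) with p3 | p3
        · obtain ⟨r, hr, e, hlt⟩ := rC p p2 p3
          rw [e]
          constructor <;> omega
        · rw [rD p p3, ← hnz]
          constructor <;> omega

end Pool.Agent.US97.ArrInpS78
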