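import Pool.Agent.US97.Defs

/-!
# US97/ArrSolC41: the array outside a block depends on the other residues only
-/

namespace Pool.Agent.US97.ArrSolC41

open Finset Pool.Agent.TS42 Pool.Agent.US97

theorem off_lt {b u : ℕ} (a : Fin (4096 * u)) {d : ℕ} (hd : d < b) :
    (a : ℕ) * b + d < ell b u := by
  have h1 : ((a : ℕ) + 1) * b ≤ 4096 * u * b := Nat.mul_le_mul_right b a.isLt
  unfold ell
  rw [Nat.add_mul, Nat.one_mul] at h1
  omega

theorem na_rng {b u : ℕ} (i : Fin b) (t : HD b u) :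
    (i : ℕ) * ell b u ≤ na b u i t ∧ na b u i t < ((i : ℕ) + 1) * ell b u := by
  have h1 := off_lt (u := u) t.1 t.2.isLt
  unfold na
  rw [Nat.add_mul, Nat.one_mul]
  omega

theorem dd_lt {b : ℕ} (hb : 0 < b) (i j k d : ℕ) : dd b i j k d < b := Nat.mod_lt _ hb

theorem nb_rng {b u : ℕ} (hb : 0 < b) (i j k : Fin b) (t : HD b u) :
    (b + (j : ℕ)) * ell b u ≤ nb b u i j k t ∧
      nb b u i j k t < (b + (j : ℕ) + 1) * ell b u := by
  have h1 := off_lt (u := u) t.1 (dd_lt hb i j k t.2)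
  unfold nb
  rw [Nat.add_mul (b + (j : ℕ)) 1, Nat.one_mul, Nat.add_mul b]
  omega

theorem nc_rng {b u : ℕ} (hb : 0 < b) (i j k : Fin b) (t : HD b u) :
    2 * (b * ell b u) + 4 * ((k : ℕ) * ell b u) ≤ nc b u i j k t ∧
      nc b u i j k t < 2 * (b * ell b u) + 4 * ((k : ℕ) * ell b u) + 4 * ell b u := by
  have h2 : ((i : ℕ) + dd b i j k t.2) / b < 2 := by
    rw [Nat.div_lt_iff_lt_mul hb]
    have h3 := dd_lt hb i j k t.2
    have h4 := i.isLt
    omega
  have h5 : (t.2 : ℕ) + (j : ℕ) < 2 * b := by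
    have h3 := t.2.isLt
    have h4 := j.isLt
    omega
  have h6 : (t.1 : ℕ) * (2 * b) + ((t.2 : ℕ) + (j : ℕ)) < 2 * ell b u := by
    have h7 : ((t.1 : ℕ) + 1) * (2 * b) ≤ 4096 * u * (2 * b) := Nat.mul_le_mul_right _ t.1.isLt
    have h8 : 4096 * u * (2 * b) = 2 * ell b u := by unfold ell; ring
    rw [Nat.add_mul, Nat.one_mul] at h7
    omega
  have h9 : (k : ℕ) * (4 * ell b u) = 4 * ((k : ℕ) * ell b u) := by ring
  unfold nc
  rw [h9]
  obtain ⟨e, he⟩ : ∃ e, e = ((i : ℕ) + dd b i j k t.2) / b := ⟨_, rfl⟩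
  rw [← he] at h2 ⊢
  omega

theorem le_bl {b L : ℕ} (i : Fin b) : ((i : ℕ) + 1) * L ≤ b * L := Nat.mul_le_mul_right _ i.isLt

theorem arr_congr_A {n b u : ℕ} (hb : 0 < b) (hu : 0 < u) (hn : 10 * (b * ell b u) ≤ n)
    (ω ω' : Om n b u) (i : Fin b) (h : ∀ q, (∀ t : HD b u, na b u i t ≠ q) → rs ω q = rs ω' q)
    (p : Fin n) (hp : p ∉ CA n b u i) : arr ω p = arr ω' p := by
  have hi := le_bl (L := ell b u) i
  have hp' : ¬ ((i : ℕ) * ell b u ≤ (p : ℕ) ∧ (p : ℕ) < ((i : ℕ) + 1) * ell b u) := by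
    intro h1
    exact hp (by unfold CA; rw [mem_filter]; exact ⟨mem_univ _, h1⟩)
  unfold arr
  split_ifs with h1 h2 h3
  · rw [h p]
    intro t ht
    have h4 := na_rng (u := u) i t
    rw [ht] at h4
    exact hp' h4
  · rw [h p]
    intro t ht
    have h4 := (na_rng (u := u) i t).2
    omega
  · rw [h (2 * (b * ell b u) + ((p : ℕ) - 2 * (b * ell b u)) / 2)]
    intro t ht
    have h4 := (na_rng (u := u) i t).2
    omega
  · rfl

theorem arr_congr_B {n b u : ℕ} (hb : 0 < b) (hu : 0 < u) (hn : 10 * (b * ell b u) ≤ n)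
    (ω ω' : Om n b u) (i j k : Fin b)
    (h : ∀ q, (∀ t : HD b u, nb b u i j k t ≠ q) → rs ω q = rs ω' q)
    (p : Fin n) (hp : p ∉ CB n b u j) : arr ω p = arr ω' p := by
  have hj := le_bl (L := ell b u) j
  have e1 : (b + (j : ℕ)) * ell b u = b * ell b u + (j : ℕ) * ell b u := Nat.add_mul _ _ _
  have e2 : (b + (j : ℕ) + 1) * ell b u = b * ell b u + ((j : ℕ) + 1) * ell b u := by ring
  have hp' : ¬ ((b + (j : ℕ)) * ell b u ≤ (p : ℕ) ∧ (p : ℕ) < (b + (j : ℕ) + 1) * ell b u) := by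
    intro h1
    exact hp (by unfold CB; rw [mem_filter]; exact ⟨mem_univ _, h1⟩)
  unfold arr
  split_ifs with h1 h2 h3
  · rw [h p]
    intro t ht
    have h4 := (nb_rng (u := u) hb i j k t).1
    omega
  · rw [h p]
    intro t ht
    have h4 := nb_rng (u := u) hb i j k t
    rw [ht] at h4
    exact hp' h4
  · rw [h (2 * (b * ell b u) + ((p : ℕ) - 2 * (b * ell b u)) / 2)]
    intro t ht
    have h4 := (nb_rng (u := u) hb i j k t).2
    omega
  · rfl

theorem arr_congr_C {n b u : ℕ} (hb : 0 < b) (hu : 0 < u) (hn : 10 * (b * ell b u) ≤ n)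
    (ω ω' : Om n b u) (i j k : Fin b)
    (h : ∀ q, (∀ t : HD b u, nc b u i j k t ≠ q) → rs ω q = rs ω' q)
    (p : Fin n) (hp : p ∉ CC n b u k) : arr ω p = arr ω' p := by
  have e1 : (2 * b + 8 * (k : ℕ)) * ell b u = 2 * (b * ell b u) + 8 * ((k : ℕ) * ell b u) := by ring
  have e2 : (2 * b + 8 * (k : ℕ) + 8) * ell b u =
      2 * (b * ell b u) + 8 * ((k : ℕ) * ell b u) + 8 * ell b u := by ring
  have hp' : ¬ ((2 * b + 8 * (k : ℕ)) * ell b u ≤ (p : ℕ) ∧
      (p : ℕ) < (2 * b + 8 * (k : ℕ) + 8) * ell b u) := by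
    intro h1
    exact hp (by unfold CC; rw [mem_filter]; exact ⟨mem_univ _, h1⟩)
  rw [e1, e2] at hp'
  unfold arr
  split_ifs with h1 h2 h3
  · rw [h p]
    intro t ht
    have h4 := (nc_rng (u := u) hb i j k t).1
    omega
  · rw [h p]
    intro t ht
    have h4 := (nc_rng (u := u) hb i j k t).1
    omega
  · rw [h (2 * (b * ell b u) + ((p : ℕ) - 2 * (b * ell b u)) / 2)]
    intro t ht
    have h4 := nc_rng (u := u) hb i j k t
    omega
  · rfl

end Pool.Agent.US97.ArrSolC41
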