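import Pool.Agent.US97.Defs

/-!
# US97/ArrSolS63: digits of the coordinates of a triple of blocks, and the solution (`arr_sol`)
-/

namespace Pool.Agent.US97.ArrSolS63

open Finset Pool.Agent.TS42 Pool.Agent.US97

theorem dd_lt {b : ℕ} (hb : 0 < b) (i j k d : ℕ) : dd b i j k d < b := Nat.mod_lt _ hb

/-- the defining congruence, in the form which is used -/
theorem dd_key {b i j k d : ℕ} (hb : 0 < b) (hi : i < b) (hj : j < b) (hk : k < b) (hd : d < b) :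
    (i + dd b i j k d) % b = (k + 2 * b - (d + j)) % b := by
  have h1 : (i + dd b i j k d) ≡ i + (k + 3 * b - i - j - d) [MOD b] :=
    Nat.ModEq.add_left i (Nat.mod_modEq _ _)
  have h2 : i + (k + 3 * b - i - j - d) = (k + 2 * b - (d + j)) + b := by omega
  rw [h2] at h1
  have h3 : (k + 2 * b - (d + j)) + b ≡ (k + 2 * b - (d + j)) [MOD b] := by
    simp [Nat.ModEq]
  exact h1.trans h3

theorem h_b_lt {b u : ℕ} (t : HD b u) : (t.1 : ℕ) * b + (t.2 : ℕ) < ell b u := by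
  have h1 : (t.1 : ℕ) + 1 ≤ 4096 * u := t.1.2
  have h2 : ((t.1 : ℕ) + 1) * b ≤ 4096 * u * b := Nat.mul_le_mul_right _ h1
  have h3 : (t.2 : ℕ) < b := t.2.2
  unfold ell
  nlinarith

theorem h_b_lt' {b u : ℕ} (t : HD b u) {x : ℕ} (hx : x < b) : (t.1 : ℕ) * b + x < ell b u := by
  have h1 : (t.1 : ℕ) + 1 ≤ 4096 * u := t.1.2
  have h2 : ((t.1 : ℕ) + 1) * b ≤ 4096 * u * b := Nat.mul_le_mul_right _ h1
  unfold ell
  nlinarith

/-- digits -/
theorem dig {M x y : ℕ} (hy : y < M) : (x * M + y) / M = x ∧ (x * M + y) % M = y := by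
  have hM : 0 < M := by omega
  constructor
  · rw [Nat.add_comm, Nat.add_mul_div_right _ _ hM, Nat.div_eq_of_lt hy, Nat.zero_add]
  · rw [Nat.add_comm, Nat.add_mul_mod_self_right, Nat.mod_eq_of_lt hy]

theorem block_lt {b M i x : ℕ} (hi : i < b) (hx : x < M) : i * M + x < b * M := by
  have h2 : (i + 1) * M ≤ b * M := Nat.mul_le_mul_right _ hi
  nlinarith

theorem gA_na {b u : ℕ} (i : Fin b) (t : HD b u) :
    gA b u (na b u i t) = (t.1 : ℕ) * (2 * b) ^ 2 + (t.2 : ℕ) * (2 * b) + i := by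
  unfold gA na
  obtain ⟨e1, e2⟩ := dig (x := (i : ℕ)) (h_b_lt t)
  obtain ⟨e3, e4⟩ := dig (x := (t.1 : ℕ)) t.2.2
  rw [e1, e2, e3, e4]

theorem gB_nb {b u : ℕ} (hb : 0 < b) (i j k : Fin b) (t : HD b u) :
    gB b u (nb b u i j k t - b * ell b u) =
      (t.1 : ℕ) * (2 * b) ^ 2 + (j : ℕ) * (2 * b) + dd b i j k t.2 := by
  have h0 : nb b u i j k t - b * ell b u = (j : ℕ) * ell b u + ((t.1 : ℕ) * b + dd b i j k t.2) := by
    unfold nb
    omega
  rw [h0]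
  unfold gB
  obtain ⟨e1, e2⟩ := dig (x := (j : ℕ)) (h_b_lt' t (dd_lt hb i j k t.2))
  obtain ⟨e3, e4⟩ := dig (x := (t.1 : ℕ)) (dd_lt hb i j k t.2)
  rw [e1, e2, e3, e4]

/-- the quotient is a digit -/
theorem q_lt {b : ℕ} (hb : 0 < b) (i j k : Fin b) (d : ℕ) : ((i : ℕ) + dd b i j k d) / b < 2 := by
  rw [Nat.div_lt_iff_lt_mul hb]
  have := dd_lt hb i j k d
  have := i.2
  omega

theorem c_lt {b u : ℕ} (j : Fin b) (t : HD b u) {r : ℕ} (hr : r < 4) :
    ((t.1 : ℕ) * (2 * b) + ((t.2 : ℕ) + (j : ℕ))) * 4 + r < 8 * ell b u := by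
  have h1 : (t.1 : ℕ) + 1 ≤ 4096 * u := t.1.2
  have h2 : ((t.1 : ℕ) + 1) * b ≤ 4096 * u * b := Nat.mul_le_mul_right _ h1
  have h3 : (t.2 : ℕ) < b := t.2.2
  have h4 : (j : ℕ) < b := j.2
  unfold ell
  nlinarith

theorem gC_nc {b u : ℕ} (hb : 0 < b) (i j k : Fin b) (t : HD b u) {e : ℕ} (he : e < 2) :
    gC b u (2 * (nc b u i j k t - 2 * (b * ell b u)) + e) =
      2 * (t.1 : ℕ) * (2 * b) ^ 2 + ((t.2 : ℕ) + (j : ℕ)) * (2 * b) + (i + dd b i j k t.2) := by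
  have hq := q_lt hb i j k t.2
  set q := ((i : ℕ) + dd b i j k t.2) / b with hqd
  have h0 : 2 * (nc b u i j k t - 2 * (b * ell b u)) + e =
      (k : ℕ) * (8 * ell b u) + (((t.1 : ℕ) * (2 * b) + ((t.2 : ℕ) + (j : ℕ))) * 4 + (2 * q + e)) := by
    unfold nc
    rw [← hqd]
    have : 2 * (b * ell b u) + (k : ℕ) * (4 * ell b u) +
      (((t.1 : ℕ) * (2 * b) + ((t.2 : ℕ) + (j : ℕ))) * 2 + q) - 2 * (b * ell b u) =
        (k : ℕ) * (4 * ell b u) + (((t.1 : ℕ) * (2 * b) + ((t.2 : ℕ) + (j : ℕ))) * 2 + q) := by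
      rw [Nat.add_assoc, Nat.add_sub_cancel_left]
    rw [this]
    ring
  rw [h0]
  unfold gC
  obtain ⟨e1, e2⟩ := dig (x := (k : ℕ)) (c_lt j t (r := 2 * q + e) (by omega))
  rw [e1, e2]
  have h3 : (t.2 : ℕ) < b := t.2.2
  have h4 : (j : ℕ) < b := j.2
  have e3 : (((t.1 : ℕ) * (2 * b) + ((t.2 : ℕ) + (j : ℕ))) * 4 + (2 * q + e)) / (8 * b) = t.1 := by
    have : ((t.1 : ℕ) * (2 * b) + ((t.2 : ℕ) + (j : ℕ))) * 4 + (2 * q + e) =
        (t.1 : ℕ) * (8 * b) + (((t.2 : ℕ) + (j : ℕ)) * 4 + (2 * q + e)) := by ring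
    rw [this]
    exact (dig (by omega)).1
  have e4 : (((t.1 : ℕ) * (2 * b) + ((t.2 : ℕ) + (j : ℕ))) * 4 + (2 * q + e)) / 4 =
      (t.1 : ℕ) * (2 * b) + ((t.2 : ℕ) + (j : ℕ)) := (dig (by omega)).1
  have e5 : ((t.1 : ℕ) * (2 * b) + ((t.2 : ℕ) + (j : ℕ))) % (2 * b) = (t.2 : ℕ) + (j : ℕ) :=
    (dig (by omega)).2
  have e6 : (((t.1 : ℕ) * (2 * b) + ((t.2 : ℕ) + (j : ℕ))) * 4 + (2 * q + e)) / 2 % 2 = q := by
    have : ((t.1 : ℕ) * (2 * b) + ((t.2 : ℕ) + (j : ℕ))) * 4 + (2 * q + e) =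
        (((t.1 : ℕ) * (2 * b) + ((t.2 : ℕ) + (j : ℕ))) * 2 + q) * 2 + e := by ring
    rw [this, (dig he).1]
    exact (dig hq).2
  rw [e3, e4, e5, e6, ← dd_key hb i.2 j.2 k.2 t.2.2]
  have e7 : ((i : ℕ) + dd b i j k t.2) % b + q * b = i + dd b i j k t.2 := by
    rw [hqd]
    exact Nat.mod_add_div' _ _
  rw [e7]

theorem na_lt {b u : ℕ} (i : Fin b) (t : HD b u) : na b u i t < b * ell b u :=
  block_lt i.2 (h_b_lt t)

theorem nb_lt {b u : ℕ} (hb : 0 < b) (i j k : Fin b) (t : HD b u) :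
    b * ell b u ≤ nb b u i j k t ∧ nb b u i j k t < 2 * (b * ell b u) := by
  have h1 := block_lt j.2 (h_b_lt' t (dd_lt hb i j k t.2))
  unfold nb
  omega

theorem nc_lt {b u : ℕ} (hb : 0 < b) (i j k : Fin b) (t : HD b u) :
    2 * (b * ell b u) ≤ nc b u i j k t ∧ nc b u i j k t < 6 * (b * ell b u) := by
  have hq := q_lt hb i j k t.2
  have h2 := c_lt j t (r := 2 * (((i : ℕ) + dd b i j k t.2) / b)) (by omega)
  have h1 := block_lt (M := 4 * ell b u)
    (x := ((t.1 : ℕ) * (2 * b) + ((t.2 : ℕ) + (j : ℕ))) * 2 + ((i : ℕ) + dd b i j k t.2) / b)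
    k.2 (by omega)
  have h3 : b * (4 * ell b u) = 4 * (b * ell b u) := by ring
  rw [h3] at h1
  unfold nc
  omega

theorem fin_pair {b u : ℕ} {t t' : HD b u} (h1 : (t.1 : ℕ) = t'.1) (h2 : (t.2 : ℕ) = t'.2) :
    t = t' := Prod.ext (Fin.ext h1) (Fin.ext h2)

theorem na_inj {b u : ℕ} (i : Fin b) : Function.Injective (na b u i) := by
  intro t t' h
  unfold na at h
  have h1 : (t.1 : ℕ) * b + (t.2 : ℕ) = (t'.1 : ℕ) * b + (t'.2 : ℕ) := by omega
  obtain ⟨e1, e2⟩ := dig (x := (t.1 : ℕ)) t.2.2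
  obtain ⟨e3, e4⟩ := dig (x := (t'.1 : ℕ)) t'.2.2
  rw [h1] at e1 e2
  exact fin_pair (e1.symm.trans e3) (e2.symm.trans e4)

theorem dd_inj {b i j k d d' : ℕ} (hb : 0 < b) (hi : i < b) (hj : j < b) (hk : k < b)
    (hd : d < b) (hd' : d' < b) (h : dd b i j k d = dd b i j k d') : d = d' := by
  have h1 := dd_key hb hi hj hk hd
  have h2 := dd_key hb hi hj hk hd'
  rw [h, h2] at h1
  have h3 : (k + 2 * b - (d' + j)) ≡ (k + 2 * b - (d + j)) [MOD b] := h1
  have h4 : (k + 2 * b - (d' + j)) + (d + d' + j) ≡ (k + 2 * b - (d + j)) + (d + d' + j) [MOD b] :=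
    Nat.ModEq.add_right _ h3
  have e1 : (k + 2 * b - (d' + j)) + (d + d' + j) = d + (k + 2 * b) := by omega
  have e2 : (k + 2 * b - (d + j)) + (d + d' + j) = d' + (k + 2 * b) := by omega
  rw [e1, e2] at h4
  have h5 : d ≡ d' [MOD b] := Nat.ModEq.add_right_cancel' _ h4
  have h6 : d % b = d' % b := h5
  rwa [Nat.mod_eq_of_lt hd, Nat.mod_eq_of_lt hd'] at h6

theorem nb_inj {b u : ℕ} (hb : 0 < b) (i j k : Fin b) : Function.Injective (nb b u i j k) := by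
  intro t t' h
  unfold nb at h
  have h1 : (t.1 : ℕ) * b + dd b i j k t.2 = (t'.1 : ℕ) * b + dd b i j k t'.2 := by omega
  obtain ⟨e1, e2⟩ := dig (x := (t.1 : ℕ)) (dd_lt hb i j k t.2)
  obtain ⟨e3, e4⟩ := dig (x := (t'.1 : ℕ)) (dd_lt hb i j k t'.2)
  rw [h1] at e1 e2
  exact fin_pair (e1.symm.trans e3)
    (dd_inj hb i.2 j.2 k.2 t.2.2 t'.2.2 (e2.symm.trans e4))

theorem nc_inj {b u : ℕ} (hb : 0 < b) (i j k : Fin b) : Function.Injective (nc b u i j k) := by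
  intro t t' h
  unfold nc at h
  have hq := q_lt hb i j k t.2
  have hq' := q_lt hb i j k t'.2
  have h1 : ((t.1 : ℕ) * (2 * b) + ((t.2 : ℕ) + (j : ℕ))) * 2 + ((i : ℕ) + dd b i j k t.2) / b =
      ((t'.1 : ℕ) * (2 * b) + ((t'.2 : ℕ) + (j : ℕ))) * 2 + ((i : ℕ) + dd b i j k t'.2) / b := by
    omega
  have e1 := (dig (x := (t.1 : ℕ) * (2 * b) + ((t.2 : ℕ) + (j : ℕ))) hq).1
  have e2 := (dig (x := (t'.1 : ℕ) * (2 * b) + ((t'.2 : ℕ) + (j : ℕ))) hq').1
  rw [h1] at e1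
  have h2 := e1.symm.trans e2
  have h3 : (t.2 : ℕ) < b := t.2.2
  have h3' : (t'.2 : ℕ) < b := t'.2.2
  have h4 : (j : ℕ) < b := j.2
  obtain ⟨e3, e4⟩ := dig (x := (t.1 : ℕ)) (y := (t.2 : ℕ) + (j : ℕ)) (M := 2 * b) (by omega)
  obtain ⟨e5, e6⟩ := dig (x := (t'.1 : ℕ)) (y := (t'.2 : ℕ) + (j : ℕ)) (M := 2 * b) (by omega)
  rw [h2] at e3 e4
  have h5 : (t.2 : ℕ) = t'.2 := by
    have := e4.symm.trans e6
    omega
  exact fin_pair (e3.symm.trans e5) h5

/-- the sum of two residues -/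
theorem val_carry {w : ℕ} [NeZero w] {a c s : ZMod w} (h : a + c = s) :
    ∃ e < 2, a.val + c.val = s.val + e * w := by
  by_cases hlt : a.val + c.val < w
  · refine ⟨0, by norm_num, ?_⟩
    rw [← h, ZMod.val_add_of_lt hlt]
    ring
  · refine ⟨1, by norm_num, ?_⟩
    have := ZMod.val_add_val_of_le (not_lt.1 hlt)
    rw [← h]
    omega

theorem big {n b u : ℕ} (hb : 0 < b) (hu : 0 < u) (hn : 10 * (b * ell b u) ≤ n) :
    8 * (ww n * (b * ell b u)) ≤ KK n ∧ 0 < KK n := by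
  have h1 : 4096 ≤ b * ell b u := by
    unfold ell
    have h0 : 1 ≤ b * (u * b) := Nat.mul_pos hb (Nat.mul_pos hu hb)
    have h00 : b * (4096 * u * b) = 4096 * (b * (u * b)) := by ring
    rw [h00]
    omega
  have h2 : 40960 ≤ n := by omega
  have h3 : 20 * (8 * (ww n * (b * ell b u))) ≤ n ^ 3 := by
    unfold ww
    have h4 : 20 * (n ^ 2 / 20) ≤ n ^ 2 := Nat.mul_div_le _ _
    have h5 : 20 * (n ^ 2 / 20 + 1) ≤ n ^ 2 + 20 := by omega
    have h6 : 10 * (20 * (8 * ((n ^ 2 / 20 + 1) * (b * ell b u)))) ≤ 8 * ((n ^ 2 + 20) * n) := by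
      calc 10 * (20 * (8 * ((n ^ 2 / 20 + 1) * (b * ell b u))))
          = 8 * ((20 * (n ^ 2 / 20 + 1)) * (10 * (b * ell b u))) := by ring
        _ ≤ 8 * ((n ^ 2 + 20) * n) := Nat.mul_le_mul_left _ (Nat.mul_le_mul h5 hn)
    have h7 : 8 * ((n ^ 2 + 20) * n) ≤ 10 * n ^ 3 := by
      have h8 : 8 * (n ^ 2 + 20) ≤ 10 * n ^ 2 := by nlinarith
      calc 8 * ((n ^ 2 + 20) * n) = (8 * (n ^ 2 + 20)) * n := by ring
        _ ≤ (10 * n ^ 2) * n := Nat.mul_le_mul_right _ h8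
        _ = 10 * n ^ 3 := by ring
    omega
  constructor
  · unfold KK
    rw [Nat.le_div_iff_mul_le (by norm_num)]
    omega
  · unfold KK
    apply Nat.div_pos _ (by norm_num)
    calc 20 ≤ n := by omega
      _ ≤ n ^ 3 := Nat.le_self_pow (by norm_num) n

theorem rs_val_lt {n b u : ℕ} (ω : Om n b u) (i : ℕ) : (rs ω i).val < ww n := ZMod.val_lt _

/-- a solution at one coordinate gives a solution of the array -/
theorem arr_sol {n b u : ℕ} (hb : 0 < b) (hu : 0 < u) (hn : 10 * (b * ell b u) ≤ n) (ω : Om n b u)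
    (i j k : Fin b) (t : HD b u)
    (h : rs ω (na b u i t) + rs ω (nb b u i j k t) = rs ω (nc b u i j k t)) : Sol (arr ω) := by
  obtain ⟨e, he, hsum⟩ := val_carry h
  obtain ⟨hK, hK0⟩ := big hb hu hn
  have hna := na_lt i t
  have hnb := nb_lt hb i j k t
  have hnc := nc_lt hb i j k t
  set L := b * ell b u with hL
  have hA : na b u i t < n := by omega
  have hB : nb b u i j k t < n := by omega
  have hC : 2 * L + (2 * (nc b u i j k t - 2 * L) + e) < n := by omega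
  have xA : arr ω ⟨na b u i t, hA⟩ =
      ((6 * KK n + 2 * ww n * gA b u (na b u i t) + (rs ω (na b u i t)).val : ℕ) : ℤ) := by
    unfold arr
    rw [if_pos (show na b u i t < b * ell b u from hna)]
  have xB : arr ω ⟨nb b u i j k t, hB⟩ =
      ((9 * KK n + 2 * ww n * gB b u (nb b u i j k t - b * ell b u) +
        (rs ω (nb b u i j k t)).val : ℕ) : ℤ) := by
    unfold arr
    rw [if_neg (show ¬ nb b u i j k t < b * ell b u from by omega),
      if_pos (show nb b u i j k t < 2 * (b * ell b u) from by omega)]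
  have xC : arr ω ⟨2 * L + (2 * (nc b u i j k t - 2 * L) + e), hC⟩ =
      ((15 * KK n + 2 * ww n * gC b u (2 * (nc b u i j k t - 2 * L) + e) + e * ww n +
        (rs ω (nc b u i j k t)).val : ℕ) : ℤ) := by
    unfold arr
    have h1 : 2 * L + (2 * (nc b u i j k t - 2 * L) + e) - 2 * (b * ell b u) =
        2 * (nc b u i j k t - 2 * L) + e := by omega
    have h2 : (2 * (nc b u i j k t - 2 * L) + e) % 2 = e := by omega
    have h3 : 2 * (b * ell b u) + (2 * (nc b u i j k t - 2 * L) + e) / 2 = nc b u i j k t := by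
      omega
    rw [if_neg (show ¬ 2 * L + (2 * (nc b u i j k t - 2 * L) + e) < b * ell b u from by omega),
      if_neg (show ¬ 2 * L + (2 * (nc b u i j k t - 2 * L) + e) < 2 * (b * ell b u) from by omega),
      if_pos (show 2 * L + (2 * (nc b u i j k t - 2 * L) + e) < 10 * (b * ell b u) from by omega)]
    simp only [h1, h2, h3]
  have gAe := gA_na i t
  have gBe := gB_nb hb i j k t
  have gCe := gC_nc hb i j k t he
  have gsum : gA b u (na b u i t) + gB b u (nb b u i j k t - b * ell b u) =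
      gC b u (2 * (nc b u i j k t - 2 * L) + e) := by
    rw [gAe, gBe, gCe]
    ring
  -- size of the window of kind A
  have hgA : gA b u (na b u i t) + 1 ≤ 4 * L := by
    rw [gAe, hL]
    have h1 : (t.1 : ℕ) + 1 ≤ 4096 * u := t.1.2
    have h2 : ((t.1 : ℕ) + 1) * (2 * b) ^ 2 ≤ 4096 * u * (2 * b) ^ 2 := Nat.mul_le_mul_right _ h1
    have h3 : (t.2 : ℕ) + 1 ≤ b := t.2.2
    have h4 : ((t.2 : ℕ) + 1) * (2 * b) ≤ b * (2 * b) := Nat.mul_le_mul_right _ h3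
    have h5 : (i : ℕ) + 1 ≤ b := i.2
    unfold ell
    nlinarith
  have hvA := rs_val_lt ω (na b u i t)
  have hvB := rs_val_lt ω (nb b u i j k t)
  set vA := (rs ω (na b u i t)).val
  set vB := (rs ω (nb b u i j k t)).val
  set vC := (rs ω (nc b u i j k t)).val
  set GA := gA b u (na b u i t)
  set GB := gB b u (nb b u i j k t - b * ell b u)
  set GC := gC b u (2 * (nc b u i j k t - 2 * L) + e)
  have hw : 2 * ww n * GA + vA < KK n := by
    have h1 : 2 * ww n * (GA + 1) ≤ 2 * ww n * (4 * L) := Nat.mul_le_mul_left _ hgA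
    have h2 : 2 * ww n * (4 * L) = 8 * (ww n * L) := by ring
    nlinarith
  have htot : (6 * KK n + 2 * ww n * GA + vA) + (9 * KK n + 2 * ww n * GB + vB) =
      15 * KK n + 2 * ww n * GC + e * ww n + vC := by
    rw [← gsum]
    have : 2 * ww n * (GA + GB) = 2 * ww n * GA + 2 * ww n * GB := by ring
    rw [this]
    omega
  refine ⟨⟨na b u i t, hA⟩, ⟨nb b u i j k t, hB⟩,
    ⟨2 * L + (2 * (nc b u i j k t - 2 * L) + e), hC⟩, ?_, ?_, ?_, ?_⟩
  · rw [xA, xB]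
    intro hh
    have := Int.ofNat.inj hh
    omega
  · rw [xA, xC]
    intro hh
    have := Int.ofNat.inj hh
    omega
  · rw [xB, xC]
    intro hh
    have := Int.ofNat.inj hh
    omega
  · rw [xA, xB, xC, ← htot]
    push_cast
    ring

end Pool.Agent.US97.ArrSolS63
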