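import Pool.Agent.US97.Defs
import Pool.Agent.US97.ArrSolC41
import Pool.Agent.US97.ArrSolS63

/-!
# US97/ArrSol: the coordinates of a triple of blocks

`dd b i j k d < b` and `i + dd + d + j = k mod b`.  With `D = d + j < 2b`, `D0 = i + dd < 2b`, `q = D0 / b`:
`(k + 2b - D) % b + q b = D0`.  Cells: `na t` (kind A), `nb t` (kind B) and
`2 (b ell) + 2 (nc t - 2 (b ell)) + e`, `e` = carry of the two residues (kind C).
-/

namespace Pool.Agent.US97

open Finset Pool.Agent.TS42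

theorem solA_ell_pos {b u : ℕ} (hb : 0 < b) (hu : 0 < u) : 0 < ell b u := by
  unfold ell
  positivity

theorem solA_dm {b x y x' y' : ℕ} (hy : y < b) (hy' : y' < b) (h : x * b + y = x' * b + y') :
    x = x' ∧ y = y' := by
  have hb : 0 < b := by omega
  have h1 : (x * b + y) / b = x := by
    rw [Nat.mul_comm, Nat.mul_add_div hb, Nat.div_eq_of_lt hy, add_zero]
  have h2 : (x' * b + y') / b = x' := by
    rw [Nat.mul_comm, Nat.mul_add_div hb, Nat.div_eq_of_lt hy', add_zero]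
  have h3 : x = x' := by rw [← h1, ← h2, h]
  refine ⟨h3, ?_⟩
  rw [h3] at h
  omega

theorem solA_sub_mod {b S d d' : ℕ} (hd : d < b) (hd' : d' < b) (hS : b ≤ S)
    (h : (S - d) % b = (S - d') % b) : d = d' := by
  rcases le_total d d' with hle | hle
  · have h1 : b ∣ (S - d) - (S - d') :=
      (Nat.modEq_iff_dvd' (by omega : S - d' ≤ S - d)).1 h.symm
    have h2 := Nat.eq_zero_of_dvd_of_lt h1 (by omega)
    omega
  · have h1 : b ∣ (S - d') - (S - d) :=
      (Nat.modEq_iff_dvd' (by omega : S - d ≤ S - d')).1 h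
    have h2 := Nat.eq_zero_of_dvd_of_lt h1 (by omega)
    omega

/-- a pair of digits -/
theorem solA_lt {b m x y : ℕ} (hx : x < m) (hy : y < b) : x * b + y < m * b := by
  have h1 : (x + 1) * b ≤ m * b := Nat.mul_le_mul_right b hx
  have h2 : (x + 1) * b = x * b + b := by ring
  omega

theorem solA_dd_lt {b : ℕ} (hb : 0 < b) (i j k d : ℕ) : dd b i j k d < b := Nat.mod_lt _ hb

theorem solA_e {b i x : ℕ} (hi : i < b) (hx : x < b) : (i + x) / b ≤ 1 := by
  have h : (i + x) / b < 2 := by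
    rw [Nat.div_lt_iff_lt_mul (by omega)]
    omega
  omega

theorem solA_hd_lt {b u : ℕ} (t : HD b u) {y : ℕ} (hy : y < b) :
    (t.1 : ℕ) * b + y < ell b u := by
  have h := solA_lt (m := 4096 * u) t.1.2 hy
  exact h

theorem solA_hd_lt2 {b u : ℕ} (t : HD b u) {y : ℕ} (hy : y < 2 * b) :
    (t.1 : ℕ) * (2 * b) + y < 2 * ell b u := by
  have h := solA_lt (m := 4096 * u) t.1.2 hy
  have h2 : 4096 * u * (2 * b) = 2 * ell b u := by
    unfold ell
    ring
  rw [h2] at h
  exact h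

theorem na_lt {b u : ℕ} (hb : 0 < b) (hu : 0 < u) (i : Fin b) (t : HD b u) :
    na b u i t < b * ell b u := by
  unfold na
  exact solA_lt i.2 (solA_hd_lt t t.2.2)

theorem nb_lt {b u : ℕ} (hb : 0 < b) (hu : 0 < u) (i j k : Fin b) (t : HD b u) :
    b * ell b u ≤ nb b u i j k t ∧ nb b u i j k t < 2 * (b * ell b u) := by
  have h := solA_lt j.2 (solA_hd_lt t (solA_dd_lt hb i j k t.2))
  unfold nb
  omega

theorem nc_lt {b u : ℕ} (hb : 0 < b) (hu : 0 < u) (i j k : Fin b) (t : HD b u) :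
    2 * (b * ell b u) ≤ nc b u i j k t ∧ nc b u i j k t < 6 * (b * ell b u) := by
  have h1 := solA_hd_lt2 t (y := (t.2 : ℕ) + (j : ℕ)) (by have := t.2.2; have := j.2; omega)
  have h2 := solA_e i.2 (solA_dd_lt hb i j k t.2)
  have h3 : ((t.1 : ℕ) * (2 * b) + ((t.2 : ℕ) + (j : ℕ))) * 2 +
      ((i : ℕ) + dd b i j k t.2) / b < 4 * ell b u := by omega
  have h4 := solA_lt k.2 h3
  have h5 : b * (4 * ell b u) = 4 * (b * ell b u) := by ring
  rw [h5] at h4
  unfold nc
  rw [Nat.add_assoc]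
  generalize (k : ℕ) * (4 * ell b u) + (((t.1 : ℕ) * (2 * b) + ((t.2 : ℕ) + (j : ℕ))) * 2 +
    ((i : ℕ) + dd b i j k t.2) / b) = Y at h4 ⊢
  omega

theorem na_inj {b u : ℕ} (hb : 0 < b) (hu : 0 < u) (i : Fin b) :
    Function.Injective (na b u i) := by
  intro t t' h
  unfold na at h
  obtain ⟨h1, h2⟩ := solA_dm t.2.2 t'.2.2 (Nat.add_left_cancel h)
  exact Prod.ext (Fin.ext h1) (Fin.ext h2)

theorem nb_inj {b u : ℕ} (hb : 0 < b) (hu : 0 < u) (i j k : Fin b) :
    Function.Injective (nb b u i j k) := by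
  intro t t' h
  unfold nb at h
  obtain ⟨h1, h2⟩ := solA_dm (solA_dd_lt hb i j k t.2) (solA_dd_lt hb i j k t'.2)
    (Nat.add_left_cancel h)
  refine Prod.ext (Fin.ext h1) (Fin.ext ?_)
  exact solA_sub_mod t.2.2 t'.2.2 (by have := i.2; have := j.2; omega) h2

theorem nc_inj {b u : ℕ} (hb : 0 < b) (hu : 0 < u) (i j k : Fin b) :
    Function.Injective (nc b u i j k) := by
  intro t t' h
  unfold nc at h
  have h1 := Nat.add_left_cancel h
  have h2 := solA_e i.2 (solA_dd_lt hb i j k t.2)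
  have h3 := solA_e i.2 (solA_dd_lt hb i j k t'.2)
  obtain ⟨h4, -⟩ := solA_dm (b := 2) (by omega) (by omega) h1
  obtain ⟨h5, h6⟩ := solA_dm (by have := t.2.2; have := j.2; omega)
    (by have := t'.2.2; have := j.2; omega) h4
  exact Prod.ext (Fin.ext h5) (Fin.ext (Nat.add_right_cancel h6))

/-- a solution at one coordinate gives a solution of the array -/
theorem arr_sol {n b u : ℕ} (hb : 0 < b) (hu : 0 < u) (hn : 10 * (b * ell b u) ≤ n) (ω : Om n b u)
    (i j k : Fin b) (t : HD b u)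
    (h : rs ω (na b u i t) + rs ω (nb b u i j k t) = rs ω (nc b u i j k t)) : Sol (arr ω) :=
  ArrSolS63.arr_sol hb hu hn ω i j k t h

/-- the array outside the block depends on the other residues only -/
theorem arr_congr_A {n b u : ℕ} (hb : 0 < b) (hu : 0 < u) (hn : 10 * (b * ell b u) ≤ n)
    (ω ω' : Om n b u) (i : Fin b) (h : ∀ q, (∀ t : HD b u, na b u i t ≠ q) → rs ω q = rs ω' q)
    (p : Fin n) (hp : p ∉ CA n b u i) : arr ω p = arr ω' p := by
  exact ArrSolC41.arr_congr_A hb hu hn ω ω' i h p hp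

theorem arr_congr_B {n b u : ℕ} (hb : 0 < b) (hu : 0 < u) (hn : 10 * (b * ell b u) ≤ n)
    (ω ω' : Om n b u) (i j k : Fin b)
    (h : ∀ q, (∀ t : HD b u, nb b u i j k t ≠ q) → rs ω q = rs ω' q)
    (p : Fin n) (hp : p ∉ CB n b u j) : arr ω p = arr ω' p := by
  exact ArrSolC41.arr_congr_B hb hu hn ω ω' i j k h p hp

theorem arr_congr_C {n b u : ℕ} (hb : 0 < b) (hu : 0 < u) (hn : 10 * (b * ell b u) ≤ n)
    (ω ω' : Om n b u) (i j k : Fin b)
    (h : ∀ q, (∀ t : HD b u, nc b u i j k t ≠ q) → rs ω q = rs ω' q)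
    (p : Fin n) (hp : p ∉ CC n b u k) : arr ω p = arr ω' p := by
  exact ArrSolC41.arr_congr_C hb hu hn ω ω' i j k h p hp

end Pool.Agent.US97
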