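import Pool.Agent.US97.Defs
import Pool.Agent.TP97.Core

/-!
# US97/CylS: a cylinder intersection without solutions has small uniform measure (proof)
-/

set_option autoImplicit false

namespace Pool.Agent.US97.CylS

open Finset Pool.Agent.US97

section

variable {W : Type} [AddCommGroup W]

/-- the values `(x0, x1, y0, y1, z0)` at one coordinate -/
def psi : Bool → Bool → Bool → W → W → W → W → W → W × W × W × W × W
  | a, b, false, x, y, z, A, B => (cond a A x, cond a x A, cond b B y, cond b y B, z)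
  | false, false, true, x, y, z, A, B => (x, A, y, z - A, B)
  | true, false, true, x, y, z, A, B => (A, x, y, z - x, B)
  | false, true, true, x, y, z, A, B => (x, z - y, A, y, B)
  | true, true, true, x, y, z, A, B => (x, A, y, B, z)

theorem psi_x (a b c : Bool) (h : ¬ (a = true ∧ b = true ∧ c = true)) (x y z A B : W) :
    (if a = true then (psi a b c x y z A B).2.1 else (psi a b c x y z A B).1) = x := by
  cases a <;> cases b <;> cases c <;> simp_all [psi]

theorem psi_y (a b c : Bool) (h : ¬ (a = true ∧ b = true ∧ c = true)) (x y z A B : W) :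
    (if b = true then (psi a b c x y z A B).2.2.2.1 else (psi a b c x y z A B).2.2.1) = y := by
  cases a <;> cases b <;> cases c <;> simp_all [psi]

theorem psi_z (a b c : Bool) (h : ¬ (a = true ∧ b = true ∧ c = true)) (x y z A B : W) :
    (if c = true then (psi a b c x y z A B).2.1 + (psi a b c x y z A B).2.2.2.1
      else (psi a b c x y z A B).2.2.2.2) = z := by
  cases a <;> cases b <;> cases c <;> simp_all [psi]

theorem psi_inj (a b c : Bool) (x y z A B A' B' : W)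
    (h : psi a b c x y z A B = psi a b c x y z A' B') : A = A' ∧ B = B' := by
  cases a <;> cases b <;> cases c <;> simp_all [psi]

end

section

variable {m w : ℕ}

/-- `x` at the gadget input `xi` -/
def px (θ : (TT m → ZMod w) × (TT m → ZMod w) × (TT m → ZMod w) × (TT m → ZMod w) ×
    (TT m → ZMod w)) (ξ : Fin m → Fin 64) : TT m → ZMod w :=
  fun t => if decide (t.2.1 = ξ t.1) = true then θ.2.1 t else θ.1 t

/-- `y` at the gadget input `eta` -/
def py (θ : (TT m → ZMod w) × (TT m → ZMod w) × (TT m → ZMod w) × (TT m → ZMod w) ×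
    (TT m → ZMod w)) (η : Fin m → Fin 64) : TT m → ZMod w :=
  fun t => if decide (t.2.2 = η t.1) = true then θ.2.2.2.1 t else θ.2.2.1 t

/-- `z` at the gadget input `zeta` -/
def pz (θ : (TT m → ZMod w) × (TT m → ZMod w) × (TT m → ZMod w) × (TT m → ZMod w) ×
    (TT m → ZMod w)) (ζ : Fin m → Fin 64 → Fin 64 → Bool) : TT m → ZMod w :=
  fun t => if ζ t.1 t.2.1 t.2.2 = true then θ.2.1 t + θ.2.2.2.1 t else θ.2.2.2.2 t

/-- the inverse map -/
def inv (i : (Fin m → Fin 64) × (Fin m → Fin 64) × (Fin m → Fin 64 → Fin 64 → Bool))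
    (p : ((TT m → ZMod w) × (TT m → ZMod w) × (TT m → ZMod w)) ×
      ((TT m → ZMod w) × (TT m → ZMod w))) (t : TT m) :
    ZMod w × ZMod w × ZMod w × ZMod w × ZMod w :=
  psi (decide (t.2.1 = i.1 t.1)) (decide (t.2.2 = i.2.1 t.1)) (i.2.2 t.1 t.2.1 t.2.2)
    (p.1.1 t) (p.1.2.1 t) (p.1.2.2 t) (p.2.1 t) (p.2.2 t)

/-- the inverse map as a tuple of functions -/
def Inv (i : (Fin m → Fin 64) × (Fin m → Fin 64) × (Fin m → Fin 64 → Fin 64 → Bool))
    (p : ((TT m → ZMod w) × (TT m → ZMod w) × (TT m → ZMod w)) ×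
      ((TT m → ZMod w) × (TT m → ZMod w))) :
    (TT m → ZMod w) × (TT m → ZMod w) × (TT m → ZMod w) × (TT m → ZMod w) ×
      (TT m → ZMod w) :=
  (fun t => (inv i p t).1, fun t => (inv i p t).2.1, fun t => (inv i p t).2.2.1,
    fun t => (inv i p t).2.2.2.1, fun t => (inv i p t).2.2.2.2)

theorem vertex {i : (Fin m → Fin 64) × (Fin m → Fin 64) × (Fin m → Fin 64 → Fin 64 → Bool)}
    (hi : i ∈ TP97.noins (Fin 64) m) (t : TT m) :
    ¬ (decide (t.2.1 = i.1 t.1) = true ∧ decide (t.2.2 = i.2.1 t.1) = true ∧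
      i.2.2 t.1 t.2.1 t.2.2 = true) := by
  rintro ⟨h1, h2, h3⟩
  rw [decide_eq_true_eq] at h1 h2
  have h4 := (mem_filter.1 hi).2 t.1
  rw [← h1, ← h2] at h4
  rw [h4] at h3
  exact Bool.false_ne_true h3

theorem px_Inv {i : (Fin m → Fin 64) × (Fin m → Fin 64) × (Fin m → Fin 64 → Fin 64 → Bool)}
    (hi : i ∈ TP97.noins (Fin 64) m) (p : ((TT m → ZMod w) × (TT m → ZMod w) ×
      (TT m → ZMod w)) × ((TT m → ZMod w) × (TT m → ZMod w))) :
    px (Inv i p) i.1 = p.1.1 :=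
  funext fun t => psi_x _ _ _ (vertex hi t) _ _ _ _ _

theorem py_Inv {i : (Fin m → Fin 64) × (Fin m → Fin 64) × (Fin m → Fin 64 → Fin 64 → Bool)}
    (hi : i ∈ TP97.noins (Fin 64) m) (p : ((TT m → ZMod w) × (TT m → ZMod w) ×
      (TT m → ZMod w)) × ((TT m → ZMod w) × (TT m → ZMod w))) :
    py (Inv i p) i.2.1 = p.1.2.1 :=
  funext fun t => psi_y _ _ _ (vertex hi t) _ _ _ _ _

theorem pz_Inv {i : (Fin m → Fin 64) × (Fin m → Fin 64) × (Fin m → Fin 64 → Fin 64 → Bool)}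
    (hi : i ∈ TP97.noins (Fin 64) m) (p : ((TT m → ZMod w) × (TT m → ZMod w) ×
      (TT m → ZMod w)) × ((TT m → ZMod w) × (TT m → ZMod w))) :
    pz (Inv i p) i.2.2 = p.1.2.2 :=
  funext fun t => psi_z _ _ _ (vertex hi t) _ _ _ _ _

theorem Inv_inj {i : (Fin m → Fin 64) × (Fin m → Fin 64) × (Fin m → Fin 64 → Fin 64 → Bool)}
    (hi : i ∈ TP97.noins (Fin 64) m) {p q : ((TT m → ZMod w) × (TT m → ZMod w) ×
      (TT m → ZMod w)) × ((TT m → ZMod w) × (TT m → ZMod w))} (h : Inv i p = Inv i q) :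
    p = q := by
  have h1 : p.1.1 = q.1.1 := by rw [← px_Inv hi p, ← px_Inv hi q, h]
  have h2 : p.1.2.1 = q.1.2.1 := by rw [← py_Inv hi p, ← py_Inv hi q, h]
  have h3 : p.1.2.2 = q.1.2.2 := by rw [← pz_Inv hi p, ← pz_Inv hi q, h]
  have h4 : ∀ t, inv i p t = inv i q t := by
    intro t
    have e1 : (inv i p t).1 = (inv i q t).1 := congrFun (congrArg Prod.fst h) t
    have e2 : (inv i p t).2.1 = (inv i q t).2.1 :=
      congrFun (congrArg (fun u => u.2.1) h) t
    have e3 : (inv i p t).2.2.1 = (inv i q t).2.2.1 :=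
      congrFun (congrArg (fun u => u.2.2.1) h) t
    have e4 : (inv i p t).2.2.2.1 = (inv i q t).2.2.2.1 :=
      congrFun (congrArg (fun u => u.2.2.2.1) h) t
    have e5 : (inv i p t).2.2.2.2 = (inv i q t).2.2.2.2 :=
      congrFun (congrArg (fun u => u.2.2.2.2) h) t
    exact Prod.ext e1 (Prod.ext e2 (Prod.ext e3 (Prod.ext e4 e5)))
  have h5 : ∀ t, p.2.1 t = q.2.1 t ∧ p.2.2 t = q.2.2 t := by
    intro t
    have h6 := h4 t
    unfold inv at h6
    rw [h1, h2, h3] at h6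
    exact psi_inj _ _ _ _ _ _ _ _ _ _ h6
  exact Prod.ext (Prod.ext h1 (Prod.ext h2 h3))
    (Prod.ext (funext fun t => (h5 t).1) (funext fun t => (h5 t).2))

end

open Classical in
theorem cyl (m w : ℕ) [NeZero w] (f g h : (TT m → ZMod w) → (TT m → ZMod w) → Prop)
    (hs : ∀ x y z, f y z → g x z → h x y → ∀ t, x t + y t ≠ z t) :
    ((univ.filter (fun s : (TT m → ZMod w) × (TT m → ZMod w) × (TT m → ZMod w) =>
      f s.2.1 s.2.2 ∧ g s.1 s.2.2 ∧ h s.1 s.2.1)).card : ℝ) ≤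
        (3 / 4) ^ m * (Fintype.card (TT m → ZMod w) : ℝ) ^ 3 := by
  obtain ⟨R, hR⟩ : ∃ R : Finset ((TT m → ZMod w) × (TT m → ZMod w) × (TT m → ZMod w)),
      R = univ.filter (fun s : (TT m → ZMod w) × (TT m → ZMod w) × (TT m → ZMod w) =>
        f s.2.1 s.2.2 ∧ g s.1 s.2.2 ∧ h s.1 s.2.1) := ⟨_, rfl⟩
  rw [← hR]
  obtain ⟨P, hP⟩ : ∃ P : ((TT m → ZMod w) × (TT m → ZMod w) × (TT m → ZMod w) ×
      (TT m → ZMod w) × (TT m → ZMod w)) →
      ((Fin m → Fin 64) × (Fin m → Fin 64) × (Fin m → Fin 64 → Fin 64 → Bool)) → Prop,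
      ∀ θ i, P θ i ↔ (f (py θ i.2.1) (pz θ i.2.2) ∧ g (px θ i.1) (pz θ i.2.2) ∧
        h (px θ i.1) (py θ i.2.1)) := ⟨_, fun _ _ => Iff.rfl⟩
  obtain ⟨v, hv⟩ : ∃ v : ℝ, v = (Fintype.card (TT m → ZMod w) : ℝ) := ⟨_, rfl⟩
  have hv0 : 0 < v := by
    rw [hv]
    exact_mod_cast Fintype.card_pos
  obtain ⟨NZ, hNZ⟩ : ∃ NZ : ℝ,
      NZ = (Fintype.card (Fin m → Fin 64 → Fin 64 → Bool) : ℝ) := ⟨_, rfl⟩
  have hNZ0 : 0 < NZ := by
    rw [hNZ]
    exact_mod_cast Fintype.card_pos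
  have k1 : ∀ θ, ((univ.filter (fun i => P θ i)).card : ℝ) ≤ 1536 ^ m * NZ := by
    intro θ
    have h1 := TP97.nof (α := Fin 64) (m := m) (Fintype.card_fin 64)
      (fun y z => f (py θ y) (pz θ z)) (fun x z => g (px θ x) (pz θ z))
      (fun x y => h (px θ x) (py θ y)) (by
        intro x y z h1 h2 h3 j
        by_contra hne
        rw [Bool.not_eq_false] at hne
        have h4 := hs _ _ _ h1 h2 h3 (j, x j, y j)
        apply h4
        simp only [px, py, pz, decide_true, if_true, hne])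
    rw [hNZ]
    refine le_trans (le_of_eq ?_) h1
    congr 2
    ext i
    rw [mem_filter, mem_filter, hP]
  have k2 : ∀ i ∈ TP97.noins (Fin 64) m,
      (R.card : ℝ) * v ^ 2 ≤ ((univ.filter (fun θ => P θ i)).card : ℝ) := by
    intro i hi
    have h1 : (R ×ˢ (univ : Finset ((TT m → ZMod w) × (TT m → ZMod w)))).card ≤
        (univ.filter (fun θ => P θ i)).card := by
      refine card_le_card_of_injOn (Inv i) ?_ ?_
      · intro p hp
        have hp1 := (mem_product.1 (mem_coe.1 hp)).1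
        rw [hR, mem_filter] at hp1
        rw [mem_coe, mem_filter]
        refine ⟨mem_univ _, ?_⟩
        rw [hP, px_Inv hi, py_Inv hi, pz_Inv hi]
        exact hp1.2
      · intro p _ q _ hpq
        exact Inv_inj hi hpq
    rw [card_product, card_univ, Fintype.card_prod] at h1
    have h2 : ((R.card * (Fintype.card (TT m → ZMod w) * Fintype.card (TT m → ZMod w)) : ℕ) : ℝ)
        ≤ ((univ.filter (fun θ => P θ i)).card : ℝ) := by exact_mod_cast h1
    push_cast at h2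
    rw [← hv] at h2
    calc (R.card : ℝ) * v ^ 2 = (R.card : ℝ) * (v * v) := by ring
      _ ≤ _ := h2
  have k3 : ∑ θ, ((univ.filter (fun i => P θ i)).card : ℝ) =
      ∑ i, ((univ.filter (fun θ => P θ i)).card : ℝ) := by
    simp only [card_filter]
    push_cast
    exact sum_comm
  have k4 : ((TP97.noins (Fin 64) m).card : ℝ) * ((R.card : ℝ) * v ^ 2) ≤
      ∑ i, ((univ.filter (fun θ => P θ i)).card : ℝ) := by
    calc ((TP97.noins (Fin 64) m).card : ℝ) * ((R.card : ℝ) * v ^ 2) =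
        ∑ i ∈ TP97.noins (Fin 64) m, (R.card : ℝ) * v ^ 2 := by
          rw [sum_const, nsmul_eq_mul]
      _ ≤ ∑ i ∈ TP97.noins (Fin 64) m, ((univ.filter (fun θ => P θ i)).card : ℝ) :=
          sum_le_sum k2
      _ ≤ ∑ i, ((univ.filter (fun θ => P θ i)).card : ℝ) :=
          sum_le_sum_of_subset_of_nonneg (subset_univ _) (fun _ _ _ => Nat.cast_nonneg _)
  have k5 : ∑ θ, ((univ.filter (fun i => P θ i)).card : ℝ) ≤ v ^ 5 * (1536 ^ m * NZ) := by
    refine (sum_le_sum (fun θ _ => k1 θ)).trans (le_of_eq ?_)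
    rw [sum_const, nsmul_eq_mul, card_univ, Fintype.card_prod, Fintype.card_prod,
      Fintype.card_prod, Fintype.card_prod]
    push_cast
    rw [← hv]
    ring
  rw [TP97.noins_card (Fintype.card_fin 64) m, ← hNZ] at k4
  have k6 : (2048 : ℝ) ^ m * NZ * ((R.card : ℝ) * v ^ 2) ≤ v ^ 5 * (1536 ^ m * NZ) := by
    rw [← k3] at k4
    exact k4.trans k5
  have k7 : (1536 : ℝ) ^ m = (3 / 4) ^ m * 2048 ^ m := by
    rw [← mul_pow]
    norm_num
  rw [k7] at k6
  rw [← hv]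
  have k8 : 0 < (2048 : ℝ) ^ m * NZ * v ^ 2 := by positivity
  refine le_of_mul_le_mul_left ?_ k8
  calc (2048 : ℝ) ^ m * NZ * v ^ 2 * (R.card : ℝ) =
      (2048 : ℝ) ^ m * NZ * ((R.card : ℝ) * v ^ 2) := by ring
    _ ≤ v ^ 5 * ((3 / 4) ^ m * 2048 ^ m * NZ) := k6
    _ = (2048 : ℝ) ^ m * NZ * v ^ 2 * ((3 / 4) ^ m * v ^ 3) := by ring

end Pool.Agent.US97.CylS
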