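import Pool.Agent.US97.Defs
import Pool.Agent.TP97.Core
import Pool.Agent.US97.CylS

/-!
# US97/Cyl: a cylinder intersection without solutions has small uniform measure

`theta = (x0, x1, y0, y1, z0)`.  For a gadget input `(xi, eta, zeta)` put at `t = (j, r, s)`:
`x = x1` if `r = xi j` else `x0`, `y = y1` if `s = eta j` else `y0`, `z = x1 + y1` if `zeta j r s` else `z0`.
For fixed `theta` membership is a cylinder intersection of gadget inputs, `TP97.nof` (with `Fin 64`).
For a fixed gadget input without solution (`TP97.noins`, `noins_card`: `2048^m NZ`) the map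
`theta -> (x, y, z)` has all fibres of size `w^2` at each `t` (seven vertices, a bijection
`W^5 = W^3 x W^2` for each).  Double count.
-/

namespace Pool.Agent.US97

open Finset

open Classical in
theorem cyl (m w : ℕ) [NeZero w] (f g h : (TT m → ZMod w) → (TT m → ZMod w) → Prop)
    (hs : ∀ x y z, f y z → g x z → h x y → ∀ t, x t + y t ≠ z t) :
    ((univ.filter (fun s : (TT m → ZMod w) × (TT m → ZMod w) × (TT m → ZMod w) =>
      f s.2.1 s.2.2 ∧ g s.1 s.2.2 ∧ h s.1 s.2.1)).card : ℝ) ≤
        (3 / 4) ^ m * (Fintype.card (TT m → ZMod w) : ℝ) ^ 3 := by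
  exact CylS.cyl m w f g h hs

end Pool.Agent.US97
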