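import Pool.Agent.TS42.Defs

/-!
# US97/Defs: arrays in arbitrary order, definitions

`InpU`, `SolvesU`, `CertifiesU` are used in the statement; the rest (the hard arrays) only in the proof.

The hard arrays: `b` blocks of `ell = 4096 u b` cells of kind A (positions `0 .. b ell`), `b` blocks of
`ell` cells of kind B, `b` blocks of `8 ell` cells of kind C, then fillers.  Each cell has a window of its
own; the residues inside the windows are free.
-/

namespace Pool.Agent.US97

open Finset Pool.Agent.TS42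

/-- Admissible inputs: `n` distinct integers of absolute value at most `n ^ 3`, in any order. -/
def InpU (n : ℕ) (x : Fin n → ℤ) : Prop := Function.Injective x ∧ ∀ i, |x i| ≤ (n : ℤ) ^ 3

/-- The algorithm is always right on these inputs; on each of them the expected distance travelled by its
pointers is at most `D`. -/
def SolvesU {n H : ℕ} {Q : Type} (A : LasVegas n H Q) (D : ℝ) : Prop :=
  ∀ x : Fin n → ℤ, InpU n x →
    (∀ ω, (A.M ω).Correct x) ∧
      ∑ ω, A.p ω * (travel ((A.M ω).run x) ((A.M ω).time x) : ℝ) ≤ D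

/-- `M` certifies exactly the inputs without a solution, by computations in which the pointers travel at
most `D`. -/
def CertifiesU {n H : ℕ} {Q : Type} (M : NMachine n H Q) (D : ℕ) : Prop :=
  ∀ x : Fin n → ℤ, InpU n x →
    (M.Accepts x → ¬ Sol x) ∧ (¬ Sol x → ∃ T c, M.Comp x T c ∧ travel c T ≤ D)

/-! ### The hard arrays -/

/-- length of the blocks of kind A and B -/
def ell (b u : ℕ) : ℕ := 4096 * u * b

/-- the unit of the zones: `K = n ^ 3 / 20` -/
def KK (n : ℕ) : ℕ := n ^ 3 / 20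

/-- the number of residues -/
def ww (n : ℕ) : ℕ := n ^ 2 / 20 + 1

instance (n : ℕ) : NeZero (ww n) := ⟨Nat.succ_ne_zero _⟩

/-- window of the cell `p` of kind A -/
def gA (b u p : ℕ) : ℕ :=
  (p % ell b u / b) * (2 * b) ^ 2 + (p % ell b u % b) * (2 * b) + p / ell b u

/-- window of the cell `p` of kind B -/
def gB (b u p : ℕ) : ℕ :=
  (p % ell b u / b) * (2 * b) ^ 2 + (p / ell b u) * (2 * b) + p % ell b u % b

/-- window of the cell `p` of kind C -/
def gC (b u p : ℕ) : ℕ :=
  2 * (p % (8 * ell b u) / (8 * b)) * (2 * b) ^ 2 + (p % (8 * ell b u) / 4 % (2 * b)) * (2 * b) +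
    ((p / (8 * ell b u) + 2 * b - p % (8 * ell b u) / 4 % (2 * b)) % b +
      (p % (8 * ell b u) / 2 % 2) * b)

/-- the inputs: one residue for each cell of kind A or B and for each pair of cells of kind C -/
abbrev Om (n b u : ℕ) : Type := Fin (6 * (b * ell b u)) → ZMod (ww n)

/-- the residue with the number `i` -/
def rs {n b u : ℕ} (ω : Om n b u) (i : ℕ) : ZMod (ww n) :=
  if h : i < 6 * (b * ell b u) then ω ⟨i, h⟩ else 0

/-- the array -/
def arr {n b u : ℕ} (ω : Om n b u) (p : Fin n) : ℤ :=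
  if (p : ℕ) < b * ell b u then
    ((6 * KK n + 2 * ww n * gA b u p + (rs ω p).val : ℕ) : ℤ)
  else if (p : ℕ) < 2 * (b * ell b u) then
    ((9 * KK n + 2 * ww n * gB b u (p - b * ell b u) + (rs ω p).val : ℕ) : ℤ)
  else if (p : ℕ) < 10 * (b * ell b u) then
    ((15 * KK n + 2 * ww n * gC b u (p - 2 * (b * ell b u)) + (p - 2 * (b * ell b u)) % 2 * ww n +
      (rs ω (2 * (b * ell b u) + (p - 2 * (b * ell b u)) / 2)).val : ℕ) : ℤ)
  else -(n : ℤ) ^ 3 + (p : ℕ)

/-- cells of the block `i` of kind A -/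
def CA (n b u : ℕ) (i : Fin b) : Finset (Fin n) :=
  univ.filter fun p => (i : ℕ) * ell b u ≤ p ∧ (p : ℕ) < ((i : ℕ) + 1) * ell b u

/-- cells of the block `j` of kind B -/
def CB (n b u : ℕ) (j : Fin b) : Finset (Fin n) :=
  univ.filter fun p => (b + (j : ℕ)) * ell b u ≤ p ∧ (p : ℕ) < (b + (j : ℕ) + 1) * ell b u

/-- cells of the block `k` of kind C -/
def CC (n b u : ℕ) (k : Fin b) : Finset (Fin n) :=
  univ.filter fun p => (2 * b + 8 * (k : ℕ)) * ell b u ≤ p ∧
    (p : ℕ) < (2 * b + 8 * (k : ℕ) + 8) * ell b u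

/-- coordinates -/
abbrev TT (m : ℕ) : Type := Fin m × Fin 64 × Fin 64

/-- the coordinates of a triple of blocks: `(h, d)`, `h < 4096 u`, `d < b` -/
abbrev HD (b u : ℕ) : Type := Fin (4096 * u) × Fin b

/-- the low digit of the partner of kind B -/
def dd (b i j k d : ℕ) : ℕ := (k + 3 * b - i - j - d) % b

/-- number of the residue of kind A -/
def na (b u : ℕ) (i : Fin b) (t : HD b u) : ℕ :=
  (i : ℕ) * ell b u + ((t.1 : ℕ) * b + (t.2 : ℕ))

/-- number of the residue of kind B -/
def nb (b u : ℕ) (i j k : Fin b) (t : HD b u) : ℕ :=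
  b * ell b u + (j : ℕ) * ell b u + ((t.1 : ℕ) * b + dd b i j k t.2)

/-- number of the residue of kind C -/
def nc (b u : ℕ) (i j k : Fin b) (t : HD b u) : ℕ :=
  2 * (b * ell b u) + (k : ℕ) * (4 * ell b u) +
    (((t.1 : ℕ) * (2 * b) + ((t.2 : ℕ) + (j : ℕ))) * 2 + ((i : ℕ) + dd b i j k t.2) / b)

end Pool.Agent.US97
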