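import Pool.Agent.US97.Defs
import Pool.Agent.TS42.HeadGeom
import Pool.Agent.TS42.Counting

/-!
# US97/Geo: windows and blocks

`card_vis`: as `TS42.window_card`, for blocks `[st + i L, st + (i+1) L)` with `ell ≤ L`: in one window two
positions of a pointer differ by less than `ell ≤ L`, so it meets at most two of these blocks
(`card_le_two_of_near`), and the `H` pointers meet at most `2 H`.
`good_triple`: as `TS42.good_pair`, with three kinds (`heavy_card`).
-/

namespace Pool.Agent.US97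

open Finset Pool.Agent.TS42

open Classical in
theorem card_vis {n H : ℕ} {Q : Type} (b l L st T : ℕ) (hl : 0 < l) (hL : l ≤ L)
    (c : ℕ → Conf n H Q) (s : ℕ) :
    (univ.filter (fun i : Fin b => ∃ t < T, travel c t / l = s ∧
        ∃ a, st + (i : ℕ) * L ≤ (((c t).2 a : Fin n) : ℕ) ∧
          (((c t).2 a : Fin n) : ℕ) < st + ((i : ℕ) + 1) * L)).card ≤ 2 * H := by
  set SA : Fin H → Finset (Fin b) := fun a => univ.filter (fun i : Fin b =>
    ∃ t < T, travel c t / l = s ∧ st + (i : ℕ) * L ≤ (((c t).2 a : Fin n) : ℕ) ∧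
      (((c t).2 a : Fin n) : ℕ) < st + ((i : ℕ) + 1) * L) with hSA
  have key : ∀ a, (SA a).card ≤ 2 := by
    intro a
    refine card_le_two_of_near _ fun i hi j hj => ?_
    simp only [hSA, mem_filter, mem_univ, true_and] at hi hj
    obtain ⟨t, _, ht, h1, h2⟩ := hi
    obtain ⟨t', _, ht', h1', h2'⟩ := hj
    have := window_near l hl c s t t' ht ht' a
    unfold cdist at this
    have hlt : (j : ℕ) * L < ((i : ℕ) + 1 + 1) * L := by
      rw [Nat.add_mul ((i : ℕ) + 1), one_mul]
      omega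
    have := Nat.lt_of_mul_lt_mul_right hlt
    omega
  have hsub : (univ.filter (fun i : Fin b => ∃ t < T, travel c t / l = s ∧
        ∃ a, st + (i : ℕ) * L ≤ (((c t).2 a : Fin n) : ℕ) ∧
          (((c t).2 a : Fin n) : ℕ) < st + ((i : ℕ) + 1) * L)) ⊆ univ.biUnion SA := by
    intro i hi
    simp only [mem_filter, mem_univ, true_and] at hi
    obtain ⟨t, ht, ht2, a, ha⟩ := hi
    simp only [mem_biUnion, mem_univ, true_and]
    refine ⟨a, ?_⟩
    rw [hSA]
    simp only [mem_filter, mem_univ, true_and]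
    exact ⟨t, ht, ht2, ha⟩
  calc _ ≤ (univ.biUnion SA).card := card_le_card hsub
    _ ≤ ∑ a, (SA a).card := card_biUnion_le
    _ ≤ ∑ _a : Fin H, 2 := Finset.sum_le_sum (fun a _ => key a)
    _ = 2 * H := by simp [mul_comm]

open Classical in
theorem good_triple (b W H : ℕ) (hb : 0 < b) (VA VB VC : Fin W → Finset (Fin b))
    (hA : ∀ s, (VA s).card ≤ 2 * H) (hB : ∀ s, (VB s).card ≤ 2 * H) (hC : ∀ s, (VC s).card ≤ 2 * H)
    (hW : 32 * H ^ 3 * W ≤ b ^ 3) :
    ∃ i j k : Fin b, (∀ s, ¬ (i ∈ VA s ∧ j ∈ VB s ∧ k ∈ VC s)) ∧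
      b * (univ.filter (fun s => i ∈ VA s)).card ≤ 8 * H * W ∧
      b * (univ.filter (fun s => j ∈ VB s)).card ≤ 8 * H * W ∧
      b * (univ.filter (fun s => k ∈ VC s)).card ≤ 8 * H * W := by
  have light : ∀ V : Fin W → Finset (Fin b), (∀ s, (V s).card ≤ 2 * H) →
      3 * b ≤ 4 * (univ.filter (fun i : Fin b =>
        ¬ 8 * H * W < b * (univ.filter (fun s => i ∈ V s)).card)).card := by
    intro V hV
    have h0 := heavy_card b W H V hV
    have h1 := Finset.card_filter_add_card_filter_not (s := (univ : Finset (Fin b)))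
      (fun i : Fin b => 8 * H * W < b * (univ.filter (fun s => i ∈ V s)).card)
    rw [Finset.card_univ, Fintype.card_fin] at h1
    omega
  have cA := light VA hA
  have cB := light VB hB
  have cC := light VC hC
  set LA := univ.filter (fun i : Fin b =>
      ¬ 8 * H * W < b * (univ.filter (fun s => i ∈ VA s)).card) with hLA
  set LB := univ.filter (fun i : Fin b =>
      ¬ 8 * H * W < b * (univ.filter (fun s => i ∈ VB s)).card) with hLB
  set LC := univ.filter (fun i : Fin b =>
      ¬ 8 * H * W < b * (univ.filter (fun s => i ∈ VC s)).card) with hLC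
  have cABC : 27 * b ^ 3 ≤ 64 * (LA.card * (LB.card * LC.card)) := by
    calc 27 * b ^ 3 = (3 * b) * ((3 * b) * (3 * b)) := by ring
      _ ≤ (4 * LA.card) * ((4 * LB.card) * (4 * LC.card)) :=
        Nat.mul_le_mul cA (Nat.mul_le_mul cB cC)
      _ = 64 * (LA.card * (LB.card * LC.card)) := by ring
  by_contra hcon
  push Not at hcon
  have hsub : LA ×ˢ LB ×ˢ LC ⊆
      (univ : Finset (Fin W)).biUnion (fun s => VA s ×ˢ VB s ×ˢ VC s) := by
    intro x hx
    rw [Finset.mem_product, Finset.mem_product, hLA, hLB, hLC, mem_filter, mem_filter,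
      mem_filter] at hx
    by_contra hno
    have h1 : ∀ s, ¬ (x.1 ∈ VA s ∧ x.2.1 ∈ VB s ∧ x.2.2 ∈ VC s) := by
      intro s hs
      exact hno (Finset.mem_biUnion.2 ⟨s, mem_univ _, Finset.mem_product.2
        ⟨hs.1, Finset.mem_product.2 ⟨hs.2.1, hs.2.2⟩⟩⟩)
    have h2 := hcon x.1 x.2.1 x.2.2 (fun s hs hs' hs'' => h1 s ⟨hs, hs', hs''⟩)
      (not_lt.1 hx.1.2) (not_lt.1 hx.2.1.2)
    exact hx.2.2.2 h2
  have hle : LA.card * (LB.card * LC.card) ≤ W * (8 * H ^ 3) := by
    rw [← Finset.card_product, ← Finset.card_product]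
    refine (Finset.card_le_card hsub).trans (Finset.card_biUnion_le.trans ?_)
    calc ∑ s : Fin W, (VA s ×ˢ VB s ×ˢ VC s).card ≤ ∑ _s : Fin W, 8 * H ^ 3 := by
          refine Finset.sum_le_sum fun s _ => ?_
          rw [Finset.card_product, Finset.card_product]
          calc (VA s).card * ((VB s).card * (VC s).card) ≤ (2 * H) * ((2 * H) * (2 * H)) :=
                Nat.mul_le_mul (hA s) (Nat.mul_le_mul (hB s) (hC s))
            _ = 8 * H ^ 3 := by ring
      _ = W * (8 * H ^ 3) := by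
        rw [Finset.sum_const, Finset.card_univ, Fintype.card_fin, smul_eq_mul]
  have hb2 : 0 < b ^ 3 := by positivity
  have h5 : 32 * H ^ 3 * W = 4 * (W * (8 * H ^ 3)) := by ring
  omega

end Pool.Agent.US97
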