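import Pool.Agent.US97.ArrInp

/-!
# US97/SolCard: few arrays have a solution

By the ranges (A in `[6K,7K)`, B in `[9K,10K)`, C in `[15K,17K)`, fillers in `[-n^3,-n^3+n)`, `20 K ≤ n^3`) a
solution is A + B = C.  If the cells are `p` (kind A), `q` (kind B), `s` (kind C) then
`gC = gA + gB` (both sides: `2 w g + (number below 2w)`) and `rs p + rs q = rs (2 (b ell) + (s - 2 (b ell)) / 2)`
in `ZMod w`; by `gC_inj` the number of the last residue depends on `p`, `q` only.  So at most
`(b ell)^2 / w` of all arrays have a solution, and `4 (b ell)^2 ≤ w`.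
-/

namespace Pool.Agent.US97

open Finset Pool.Agent.TS42

theorem eight_le {n M : ℕ} (hM : 0 < M) (hn : 10 * M ≤ n) : 8 * (ww n * M) ≤ KK n := by
  have h1 : 20 * ww n ≤ n ^ 2 + 20 := by unfold ww; omega
  have h2 : n ^ 3 < 20 * (KK n + 1) := by unfold KK; omega
  by_contra hcon
  push Not at hcon
  have h3 : 20 * (KK n + 1) ≤ 160 * (ww n * M) := by omega
  have h4 : n ^ 3 < 160 * (ww n * M) := lt_of_lt_of_le h2 h3
  have h5 : 160 * (ww n * M) ≤ 8 * M * (n ^ 2 + 20) := by nlinarith [Nat.mul_le_mul_left (8 * M) h1]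
  have h6 : 10 * (8 * M * (n ^ 2 + 20)) ≤ 8 * n * (n ^ 2 + 20) := by
    have := Nat.mul_le_mul_right (8 * (n ^ 2 + 20)) hn
    nlinarith
  have h7 : 10 * n ^ 3 < 8 * n * (n ^ 2 + 20) := by omega
  have h8 : 10 ≤ n := by omega
  have h9 : 100 ≤ n ^ 2 := by nlinarith
  have h10 : 100 * n ≤ n ^ 3 := by
    have := Nat.mul_le_mul_right n h9
    nlinarith
  nlinarith

theorem n_le_KK {n : ℕ} (hn : 1000 ≤ n) : n ≤ KK n := by
  have h2 : n ^ 3 < 20 * (KK n + 1) := by unfold KK; omega
  have h9 : 1000000 ≤ n ^ 2 := by nlinarith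
  have h10 : 1000000 * n ≤ n ^ 3 := by
    have := Nat.mul_le_mul_right n h9
    nlinarith
  omega

theorem cells {n b u : ℕ} (hb : 0 < b) (hu : 0 < u) (ω : Om n b u) (p : Fin n) :
    ((p : ℕ) < b * ell b u ∧ ∃ a g : ℕ, a < ww n ∧ (a : ZMod (ww n)) = rs ω p ∧ g = gA b u p ∧
        g < 4 * (b * ell b u) ∧ arr ω p = ((6 * KK n + 2 * ww n * g + a : ℕ) : ℤ)) ∨
    (b * ell b u ≤ (p : ℕ) ∧ (p : ℕ) < 2 * (b * ell b u) ∧ ∃ a g : ℕ, a < ww n ∧
        (a : ZMod (ww n)) = rs ω p ∧ g = gB b u (p - b * ell b u) ∧ g < 4 * (b * ell b u) ∧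
        arr ω p = ((9 * KK n + 2 * ww n * g + a : ℕ) : ℤ)) ∨
    (2 * (b * ell b u) ≤ (p : ℕ) ∧ (p : ℕ) < 10 * (b * ell b u) ∧ ∃ a g e : ℕ, a < ww n ∧
        e < 2 ∧ (a : ZMod (ww n)) = rs ω (2 * (b * ell b u) + (p - 2 * (b * ell b u)) / 2) ∧
        g = gC b u (p - 2 * (b * ell b u)) ∧ g < 8 * (b * ell b u) ∧
        arr ω p = ((15 * KK n + 2 * ww n * g + e * ww n + a : ℕ) : ℤ)) ∨
    (arr ω p = -(n : ℤ) ^ 3 + (p : ℕ)) := by
  by_cases h1 : (p : ℕ) < b * ell b u
  · left
    refine ⟨h1, (rs ω p).val, gA b u p, ZMod.val_lt _, ZMod.natCast_zmod_val _, rfl,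
      gA_lt hb hu h1, ?_⟩
    unfold arr
    rw [if_pos h1]
  · by_cases h2 : (p : ℕ) < 2 * (b * ell b u)
    · right; left
      refine ⟨by omega, h2, (rs ω p).val, gB b u (p - b * ell b u), ZMod.val_lt _,
        ZMod.natCast_zmod_val _, rfl, gB_lt hb hu (by omega), ?_⟩
      unfold arr
      rw [if_neg h1, if_pos h2]
    · by_cases h3 : (p : ℕ) < 10 * (b * ell b u)
      · right; right; left
        refine ⟨by omega, h3, (rs ω (2 * (b * ell b u) + (p - 2 * (b * ell b u)) / 2)).val,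
          gC b u (p - 2 * (b * ell b u)), (p - 2 * (b * ell b u)) % 2, ZMod.val_lt _,
          Nat.mod_lt _ (by norm_num), ZMod.natCast_zmod_val _, rfl, gC_lt hb hu (by omega), ?_⟩
        unfold arr
        rw [if_neg h1, if_neg h2, if_pos h3]
      · right; right; right
        unfold arr
        rw [if_neg h1, if_neg h2, if_neg h3]

/-- uniqueness of the digits -/
theorem digits {w g g' r r' : ℕ} (hr : r < 2 * w) (hr' : r' < 2 * w)
    (h : 2 * w * g + r = 2 * w * g' + r') : g = g' ∧ r = r' := by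
  have hw : 0 < 2 * w := by omega
  have h1 : (2 * w * g + r) / (2 * w) = g := by
    rw [Nat.mul_add_div hw, Nat.div_eq_of_lt hr, add_zero]
  have h2 : (2 * w * g' + r') / (2 * w) = g' := by
    rw [Nat.mul_add_div hw, Nat.div_eq_of_lt hr', add_zero]
  have h3 : g = g' := by rw [← h1, h, h2]
  subst h3
  exact ⟨rfl, by omega⟩

theorem sol_ab {n b u : ℕ} (ω : Om n b u) (i j l : Fin n)
    (hi : (i : ℕ) < b * ell b u ∧ ∃ a g : ℕ, a < ww n ∧ (a : ZMod (ww n)) = rs ω i ∧ g = gA b u i ∧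
        g < 4 * (b * ell b u) ∧ arr ω i = ((6 * KK n + 2 * ww n * g + a : ℕ) : ℤ))
    (hj : b * ell b u ≤ (j : ℕ) ∧ (j : ℕ) < 2 * (b * ell b u) ∧ ∃ a g : ℕ, a < ww n ∧
        (a : ZMod (ww n)) = rs ω j ∧ g = gB b u (j - b * ell b u) ∧ g < 4 * (b * ell b u) ∧
        arr ω j = ((9 * KK n + 2 * ww n * g + a : ℕ) : ℤ))
    (hl : 2 * (b * ell b u) ≤ (l : ℕ) ∧ (l : ℕ) < 10 * (b * ell b u) ∧ ∃ a g e : ℕ, a < ww n ∧
        e < 2 ∧ (a : ZMod (ww n)) = rs ω (2 * (b * ell b u) + (l - 2 * (b * ell b u)) / 2) ∧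
        g = gC b u (l - 2 * (b * ell b u)) ∧ g < 8 * (b * ell b u) ∧
        arr ω l = ((15 * KK n + 2 * ww n * g + e * ww n + a : ℕ) : ℤ))
    (h : arr ω i + arr ω j = arr ω l) :
    ∃ p q s : ℕ, p < b * ell b u ∧ q < b * ell b u ∧ s < 8 * (b * ell b u) ∧
      gC b u s = gA b u p + gB b u q ∧
      rs ω p + rs ω (b * ell b u + q) = rs ω (2 * (b * ell b u) + s / 2) := by
  obtain ⟨hi1, a, g, ha, hra, hg, _, hia⟩ := hi
  obtain ⟨hj1, hj2, a', g', ha', hra', hg', _, hja⟩ := hj
  obtain ⟨hl1, hl2, a'', g'', e, ha'', he, hra'', hg'', _, hla⟩ := hl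
  rw [hia, hja, hla] at h
  have h' : 6 * KK n + 2 * ww n * g + a + (9 * KK n + 2 * ww n * g' + a') =
      15 * KK n + 2 * ww n * g'' + e * ww n + a'' := by exact_mod_cast h
  have h2 : 2 * ww n * (g + g') + (a + a') = 2 * ww n * g'' + (e * ww n + a'') := by
    rw [mul_add]; omega
  have he' : e * ww n ≤ ww n := by
    have : e ≤ 1 := by omega
    calc e * ww n ≤ 1 * ww n := Nat.mul_le_mul_right _ this
      _ = ww n := one_mul _
  obtain ⟨h3, h4⟩ := digits (by omega) (by omega) h2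
  refine ⟨i, j - b * ell b u, l - 2 * (b * ell b u), hi1, by omega, by omega, ?_, ?_⟩
  · rw [← hg, ← hg', ← hg'', h3]
  · rw [show b * ell b u + ((j : ℕ) - b * ell b u) = j by omega, ← hra, ← hra', ← hra'']
    have : ((a + a' : ℕ) : ZMod (ww n)) = ((e * ww n + a'' : ℕ) : ZMod (ww n)) := by rw [h4]
    push_cast at this
    rw [this, ZMod.natCast_self, mul_zero, zero_add]

theorem sol_eq {n b u : ℕ} (hb : 0 < b) (hu : 0 < u) (hn : 10 * (b * ell b u) ≤ n) (ω : Om n b u)
    (h : Sol (arr ω)) : ∃ p q s : ℕ, p < b * ell b u ∧ q < b * ell b u ∧ s < 8 * (b * ell b u) ∧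
      gC b u s = gA b u p + gB b u q ∧
      rs ω p + rs ω (b * ell b u + q) = rs ω (2 * (b * ell b u) + s / 2) := by
  have hell : 4096 ≤ ell b u := by
    unfold ell
    have : 1 ≤ u * b := Nat.mul_pos hu hb
    calc 4096 = 4096 * 1 := rfl
      _ ≤ 4096 * (u * b) := Nat.mul_le_mul_left _ this
      _ = 4096 * u * b := by ring
  have hM : 4096 ≤ b * ell b u := by
    calc 4096 = 1 * 4096 := rfl
      _ ≤ b * ell b u := Nat.mul_le_mul hb hell
  have hK := eight_le (M := b * ell b u) (by omega) hn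
  have hnK := n_le_KK (n := n) (by omega)
  have hN : 20 * KK n ≤ n ^ 3 := by unfold KK; omega
  have hNi : (20 : ℤ) * (KK n : ℤ) ≤ (n : ℤ) ^ 3 := by exact_mod_cast hN
  have hnKi : (n : ℤ) ≤ KK n := by exact_mod_cast hnK
  have hK1 : (1000 : ℤ) ≤ KK n := by
    have : 1000 ≤ KK n := by omega
    exact_mod_cast this
  -- the ranges
  have hr1 : ∀ g a : ℕ, g < 4 * (b * ell b u) → a < ww n → 2 * ww n * g + a < KK n := by
    intro g a hg ha
    have h1 : 2 * ww n * (g + 1) ≤ 2 * ww n * (4 * (b * ell b u)) :=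
      Nat.mul_le_mul_left _ hg
    have h2 : 2 * ww n * (4 * (b * ell b u)) = 8 * (ww n * (b * ell b u)) := by ring
    have h3 : 2 * ww n * (g + 1) = 2 * ww n * g + 2 * ww n := by ring
    omega
  have hr2 : ∀ g e a : ℕ, g < 8 * (b * ell b u) → e < 2 → a < ww n →
      2 * ww n * g + e * ww n + a < 2 * KK n := by
    intro g e a hg he ha
    have h1 : 2 * ww n * (g + 1) ≤ 2 * ww n * (8 * (b * ell b u)) :=
      Nat.mul_le_mul_left _ hg
    have h2 : 2 * ww n * (8 * (b * ell b u)) = 16 * (ww n * (b * ell b u)) := by ring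
    have h3 : 2 * ww n * (g + 1) = 2 * ww n * g + 2 * ww n := by ring
    have he' : e * ww n ≤ ww n := by
      have : e ≤ 1 := by omega
      calc e * ww n ≤ 1 * ww n := Nat.mul_le_mul_right _ this
        _ = ww n := one_mul _
    omega
  -- ranges of the kinds
  have rA : ∀ p : Fin n, ((p : ℕ) < b * ell b u ∧ ∃ a g : ℕ, a < ww n ∧ (a : ZMod (ww n)) = rs ω p ∧
        g = gA b u p ∧ g < 4 * (b * ell b u) ∧ arr ω p = ((6 * KK n + 2 * ww n * g + a : ℕ) : ℤ)) →
      6 * (KK n : ℤ) ≤ arr ω p ∧ arr ω p < 7 * KK n := by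
    rintro p ⟨_, a, g, ha, _, _, hg, h⟩
    have := hr1 g a hg ha
    rw [h]
    constructor <;> · norm_cast; omega
  have rB : ∀ p : Fin n, (b * ell b u ≤ (p : ℕ) ∧ (p : ℕ) < 2 * (b * ell b u) ∧ ∃ a g : ℕ,
        a < ww n ∧ (a : ZMod (ww n)) = rs ω p ∧ g = gB b u (p - b * ell b u) ∧
        g < 4 * (b * ell b u) ∧ arr ω p = ((9 * KK n + 2 * ww n * g + a : ℕ) : ℤ)) →
      9 * (KK n : ℤ) ≤ arr ω p ∧ arr ω p < 10 * KK n := by
    rintro p ⟨_, _, a, g, ha, _, _, hg, h⟩
    have := hr1 g a hg ha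
    rw [h]
    constructor <;> · norm_cast; omega
  have rC : ∀ p : Fin n, (2 * (b * ell b u) ≤ (p : ℕ) ∧ (p : ℕ) < 10 * (b * ell b u) ∧
        ∃ a g e : ℕ, a < ww n ∧ e < 2 ∧
        (a : ZMod (ww n)) = rs ω (2 * (b * ell b u) + (p - 2 * (b * ell b u)) / 2) ∧
        g = gC b u (p - 2 * (b * ell b u)) ∧ g < 8 * (b * ell b u) ∧
        arr ω p = ((15 * KK n + 2 * ww n * g + e * ww n + a : ℕ) : ℤ)) →
      15 * (KK n : ℤ) ≤ arr ω p ∧ arr ω p < 17 * KK n := by
    rintro p ⟨_, _, a, g, e, ha, he, _, _, hg, h⟩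
    have := hr2 g e a hg he ha
    rw [h]
    constructor <;> · norm_cast; omega
  have rF : ∀ p : Fin n, arr ω p = -(n : ℤ) ^ 3 + (p : ℕ) →
      -(n : ℤ) ^ 3 ≤ arr ω p ∧ arr ω p < -(n : ℤ) ^ 3 + n := by
    intro p h
    have := p.2
    rw [h]
    constructor <;> omega
  obtain ⟨i, j, l, _, _, _, hs⟩ := h
  rcases cells hb hu ω i with hi | hi | hi | hi <;>
    rcases cells hb hu ω j with hj | hj | hj | hj <;>
      rcases cells hb hu ω l with hl | hl | hl | hl
  case inl.inr.inl.inr.inr.inl => exact sol_ab ω i j l hi hj hl hs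
  case inr.inl.inl.inr.inr.inl => exact sol_ab ω j i l hj hi hl (by rw [add_comm]; exact hs)
  all_goals
    exfalso
    first
      | have e1 := rA i hi
      | have e1 := rB i hi
      | have e1 := rC i hi
      | have e1 := rF i hi
    first
      | have e2 := rA j hj
      | have e2 := rB j hj
      | have e2 := rC j hj
      | have e2 := rF j hj
    first
      | have e3 := rA l hl
      | have e3 := rB l hl
      | have e3 := rC l hl
      | have e3 := rF l hl
    clear hi hj hl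
    omega

theorem eq_card {N w : ℕ} [NeZero w] (a b c : Fin N) (hac : a ≠ c) (hbc : b ≠ c) :
    w * (univ.filter (fun ω : Fin N → ZMod w => ω a + ω b = ω c)).card ≤
      Fintype.card (Fin N → ZMod w) := by
  classical
  have h := Finset.card_le_card_of_injOn
    (s := (univ : Finset (ZMod w)) ×ˢ (univ.filter (fun ω : Fin N → ZMod w => ω a + ω b = ω c)))
    (t := (univ : Finset (Fin N → ZMod w)))
    (fun x => Function.update x.2 c (x.2 c + x.1)) (fun _ _ => Finset.mem_coe.2 (mem_univ _)) ?_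
  · rw [Finset.card_product, Finset.card_univ, ZMod.card, Finset.card_univ] at h
    exact h
  · rintro ⟨z, ω⟩ hx ⟨z', ω'⟩ hx' hE
    simp only [Finset.coe_product, Finset.coe_filter, Finset.mem_univ, true_and, Set.mem_prod,
      Set.mem_setOf_eq] at hx hx'
    simp only at hE
    have hne : ∀ i, i ≠ c → ω i = ω' i := by
      intro i hi
      have := congrFun hE i
      rwa [Function.update_of_ne hi, Function.update_of_ne hi] at this
    have hc : ω c = ω' c := by rw [← hx.2, ← hx'.2, hne a hac, hne b hbc]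
    have hω : ω = ω' := by
      funext i
      by_cases hi : i = c
      · rw [hi, hc]
      · exact hne i hi
    subst hω
    have := congrFun hE c
    rw [Function.update_self, Function.update_self] at this
    rw [add_left_cancel this]

open Classical in
theorem sol_card {n b u : ℕ} (hb : 0 < b) (hu : 0 < u) (hn : 10 * (b * ell b u) ≤ n) :
    4 * (univ.filter (fun ω : Om n b u => Sol (arr ω))).card ≤ Fintype.card (Om n b u) := by
  set M := b * ell b u with hMdef
  have hell : 0 < ell b u := by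
    unfold ell
    positivity
  have hM : 0 < M := Nat.mul_pos hb hell
  set E : ℕ × ℕ → Finset (Om n b u) := fun x => univ.filter (fun ω : Om n b u =>
    ∃ s : ℕ, s < 8 * M ∧ gC b u s = gA b u x.1 + gB b u x.2 ∧
      rs ω x.1 + rs ω (M + x.2) = rs ω (2 * M + s / 2)) with hE
  have hEc : ∀ x ∈ range M ×ˢ range M, ww n * (E x).card ≤ Fintype.card (Om n b u) := by
    intro x hx
    rw [Finset.mem_product, Finset.mem_range, Finset.mem_range] at hx
    by_cases hs : ∃ s0 : ℕ, s0 < 8 * M ∧ gC b u s0 = gA b u x.1 + gB b u x.2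
    · obtain ⟨s0, hs0, hg0⟩ := hs
      have ha : x.1 < 6 * (b * ell b u) := by omega
      have hb' : M + x.2 < 6 * (b * ell b u) := by omega
      have hc : 2 * M + s0 / 2 < 6 * (b * ell b u) := by omega
      have hsub : E x ⊆ univ.filter (fun ω : Fin (6 * (b * ell b u)) → ZMod (ww n) =>
          ω ⟨x.1, ha⟩ + ω ⟨M + x.2, hb'⟩ = ω ⟨2 * M + s0 / 2, hc⟩) := by
        intro ω hω
        rw [hE, Finset.mem_filter] at hω
        obtain ⟨_, s, hs, hg, hrs⟩ := hω
        have h2 : s / 2 = s0 / 2 := gC_inj hb hu hs hs0 (by rw [hg, hg0])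
        rw [h2] at hrs
        rw [Finset.mem_filter]
        refine ⟨Finset.mem_univ _, ?_⟩
        unfold rs at hrs
        rw [dif_pos ha, dif_pos hb', dif_pos hc] at hrs
        exact hrs
      refine le_trans (Nat.mul_le_mul_left _ (Finset.card_le_card hsub)) ?_
      apply eq_card
      · intro h
        have := congrArg Fin.val h
        simp only at this
        omega
      · intro h
        have := congrArg Fin.val h
        simp only at this
        omega
    · have : E x = ∅ := by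
        rw [hE]
        apply Finset.filter_eq_empty_iff.2
        rintro ω _ ⟨s, hs', hg, _⟩
        exact hs ⟨s, hs', hg⟩
      rw [this]
      simp
  have hcov : univ.filter (fun ω : Om n b u => Sol (arr ω)) ⊆ (range M ×ˢ range M).biUnion E := by
    intro ω hω
    rw [Finset.mem_filter] at hω
    obtain ⟨p, q, s, hp, hq, hs, hg, hr⟩ := sol_eq hb hu hn ω hω.2
    rw [Finset.mem_biUnion]
    refine ⟨(p, q), ?_, ?_⟩
    · rw [Finset.mem_product, Finset.mem_range, Finset.mem_range]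
      exact ⟨hp, hq⟩
    · rw [hE, Finset.mem_filter]
      exact ⟨Finset.mem_univ _, s, hs, hg, hr⟩
  have h1 : ww n * (univ.filter (fun ω : Om n b u => Sol (arr ω))).card ≤
      M * M * Fintype.card (Om n b u) := by
    calc ww n * (univ.filter (fun ω : Om n b u => Sol (arr ω))).card
        ≤ ww n * ∑ x ∈ range M ×ˢ range M, (E x).card :=
          Nat.mul_le_mul_left _ (le_trans (Finset.card_le_card hcov) Finset.card_biUnion_le)
      _ = ∑ x ∈ range M ×ˢ range M, ww n * (E x).card := by rw [Finset.mul_sum]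
      _ ≤ ∑ _x ∈ range M ×ˢ range M, Fintype.card (Om n b u) := Finset.sum_le_sum hEc
      _ = M * M * Fintype.card (Om n b u) := by
          rw [Finset.sum_const, Finset.card_product, Finset.card_range, smul_eq_mul]
  have h2 : 4 * (M * M) ≤ ww n := by
    have h3 : n ^ 2 < 20 * ww n := by unfold ww; omega
    have h4 : 100 * (M * M) ≤ n ^ 2 := by nlinarith
    omega
  have h5 : M * M * (4 * (univ.filter (fun ω : Om n b u => Sol (arr ω))).card) ≤
      M * M * Fintype.card (Om n b u) := by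
    refine le_trans ?_ h1
    calc M * M * (4 * (univ.filter (fun ω : Om n b u => Sol (arr ω))).card)
        = 4 * (M * M) * (univ.filter (fun ω : Om n b u => Sol (arr ω))).card := by ring
      _ ≤ _ := Nat.mul_le_mul_right _ h2
  exact Nat.le_of_mul_le_mul_left h5 (Nat.mul_pos hM hM)

end Pool.Agent.US97
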