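import Pool.Agent.US97.ArrInp

/-!
# US97/SolCardS89: few arrays have a solution (the count, helper89)
-/

namespace Pool.Agent.US97

open Finset Pool.Agent.TS42

open Classical in
theorem solc_one {M w : ℕ} [NeZero w] (m i j : Fin M) (hi : i ≠ m) (hj : j ≠ m) :
    w * (univ.filter (fun ω : Fin M → ZMod w => ω i + ω j = ω m)).card ≤
      Fintype.card (Fin M → ZMod w) := by
  have h1 : (univ : Finset (ZMod w)).card = w := by rw [card_univ, ZMod.card]
  have h2 : w * (univ.filter (fun ω : Fin M → ZMod w => ω i + ω j = ω m)).card =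
      ((univ : Finset (ZMod w)) ×ˢ
        (univ.filter (fun ω : Fin M → ZMod w => ω i + ω j = ω m))).card := by
    rw [card_product, h1]
  rw [h2, ← card_univ]
  refine card_le_card_of_injOn (fun p => Function.update p.2 m p.1) (fun p _ => mem_univ _) ?_
  rintro ⟨z, ω⟩ hp ⟨z', ω'⟩ hp' h
  have hp1 := Finset.mem_coe.1 hp
  have hp1' := Finset.mem_coe.1 hp'
  rw [mem_product, mem_filter] at hp1 hp1'
  have e1 : ω i + ω j = ω m := hp1.2.2
  have e2 : ω' i + ω' j = ω' m := hp1'.2.2
  have h' : Function.update ω m z = Function.update ω' m z' := h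
  have hz : z = z' := by
    have := congrFun h' m
    rwa [Function.update_self, Function.update_self] at this
  have hne : ∀ k, k ≠ m → ω k = ω' k := by
    intro k hk
    have := congrFun h' k
    rwa [Function.update_of_ne hk, Function.update_of_ne hk] at this
  have hω : ω = ω' := by
    funext k
    by_cases hk : k = m
    · rw [hk, ← e1, ← e2, hne i hi, hne j hj]
    · exact hne k hk
  rw [hz, hω]

open Classical in
theorem sol_card_S89 {n b u : ℕ} (hb : 0 < b) (hu : 0 < u) (hn : 10 * (b * ell b u) ≤ n)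
    (hsol : ∀ ω : Om n b u, Sol (arr ω) → ∃ p q s : ℕ, p < b * ell b u ∧ q < b * ell b u ∧
      s < 8 * (b * ell b u) ∧ gC b u s = gA b u p + gB b u q ∧
      rs ω p + rs ω (b * ell b u + q) = rs ω (2 * (b * ell b u) + s / 2)) :
    4 * (univ.filter (fun ω : Om n b u => Sol (arr ω))).card ≤ Fintype.card (Om n b u) := by
  obtain ⟨L, hL⟩ : ∃ L : ℕ, L = b * ell b u := ⟨_, rfl⟩
  have hLn : 10 * L ≤ n := by rw [hL]; exact hn
  -- the exceptional sets
  obtain ⟨T, hT⟩ : ∃ T : ℕ × ℕ → Finset (Om n b u), T = fun c => univ.filter (fun ω =>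
    ∃ s, s < 8 * L ∧ gC b u s = gA b u c.1 + gB b u c.2 ∧
      rs ω c.1 + rs ω (L + c.2) = rs ω (2 * L + s / 2)) := ⟨_, rfl⟩
  have hsub : univ.filter (fun ω : Om n b u => Sol (arr ω)) ⊆
      (range L ×ˢ range L).biUnion T := by
    intro ω hω
    rw [mem_filter] at hω
    obtain ⟨p, q, s, h1, h2, h3, h4, h5⟩ := hsol ω hω.2
    rw [← hL] at h1 h2 h3 h5
    rw [mem_biUnion]
    refine ⟨(p, q), mem_product.2 ⟨mem_range.2 h1, mem_range.2 h2⟩, ?_⟩
    rw [hT, mem_filter]
    exact ⟨mem_univ _, s, h3, h4, h5⟩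
  have hone : ∀ c ∈ range L ×ˢ range L, ww n * (T c).card ≤ Fintype.card (Om n b u) := by
    rintro ⟨p, q⟩ hc
    rw [mem_product, mem_range, mem_range] at hc
    have hp : p < L := hc.1
    have hq : q < L := hc.2
    by_cases hs : ∃ s, s < 8 * L ∧ gC b u s = gA b u p + gB b u q
    · obtain ⟨s0, hs1, hs2⟩ := hs
      have i1 : p < 6 * (b * ell b u) := by rw [← hL]; omega
      have i2 : L + q < 6 * (b * ell b u) := by rw [← hL]; omega
      have i3 : 2 * L + s0 / 2 < 6 * (b * ell b u) := by rw [← hL]; omega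
      refine le_trans (Nat.mul_le_mul_left _ (card_le_card ?_)) (solc_one (w := ww n)
        (⟨2 * L + s0 / 2, i3⟩ : Fin (6 * (b * ell b u))) ⟨p, i1⟩ ⟨L + q, i2⟩ ?_ ?_)
      · intro ω hω
        rw [hT, mem_filter] at hω
        obtain ⟨-, s, h1, h2, h3⟩ := hω
        rw [mem_filter]
        refine ⟨mem_univ _, ?_⟩
        have h4 : s / 2 = s0 / 2 := gC_inj hb hu (by rw [← hL]; exact h1) (by rw [← hL]; exact hs1)
          (h2.trans hs2.symm)
        rw [h4] at h3
        unfold rs at h3
        rw [dif_pos i1, dif_pos i2, dif_pos i3] at h3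
        exact h3
      · intro h
        have := congrArg Fin.val h
        simp only at this
        omega
      · intro h
        have := congrArg Fin.val h
        simp only at this
        omega
    · have h0 : T (p, q) = ∅ := by
        rw [eq_empty_iff_forall_notMem]
        intro ω hω
        rw [hT, mem_filter] at hω
        obtain ⟨-, s, h1, h2, -⟩ := hω
        exact hs ⟨s, h1, h2⟩
      rw [h0, card_empty, mul_zero]
      exact Nat.zero_le _
  have hsum : ww n * (univ.filter (fun ω : Om n b u => Sol (arr ω))).card ≤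
      L * L * Fintype.card (Om n b u) := by
    calc ww n * (univ.filter (fun ω : Om n b u => Sol (arr ω))).card
        ≤ ww n * ∑ c ∈ range L ×ˢ range L, (T c).card :=
          Nat.mul_le_mul_left _ ((card_le_card hsub).trans card_biUnion_le)
      _ = ∑ c ∈ range L ×ˢ range L, ww n * (T c).card := by rw [mul_sum]
      _ ≤ ∑ _c ∈ range L ×ˢ range L, Fintype.card (Om n b u) := sum_le_sum hone
      _ = L * L * Fintype.card (Om n b u) := by
          rw [sum_const, card_product, card_range, smul_eq_mul]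
  have hw : 4 * (L * L) ≤ ww n := by
    have h1 : (10 * L) * (10 * L) ≤ n * n := Nat.mul_le_mul hLn hLn
    unfold ww
    have h2 : n ^ 2 = n * n := by ring
    rw [h2]
    have h3 : n * n / 20 * 20 + 20 > n * n := by omega
    nlinarith
  have hw0 : 0 < ww n := Nat.succ_pos _
  refine Nat.le_of_mul_le_mul_left ?_ hw0
  calc ww n * (4 * (univ.filter (fun ω : Om n b u => Sol (arr ω))).card)
      = 4 * (ww n * (univ.filter (fun ω : Om n b u => Sol (arr ω))).card) := by ring
    _ ≤ 4 * (L * L * Fintype.card (Om n b u)) := Nat.mul_le_mul_left _ hsum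
    _ = 4 * (L * L) * Fintype.card (Om n b u) := by ring
    _ ≤ ww n * Fintype.card (Om n b u) := Nat.mul_le_mul_right _ hw

end Pool.Agent.US97
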