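import Pool.Agent.US97.Cyl

/-!
# US97/Spread: the coordinates inside a larger family

`put ω x y z` = `ω` overwritten by `x`, `y`, `z` at the places `a t`, `b t`, `c t`.  The map
`(ω, x, y, z) -> (put ω x y z, ω ∘ a, ω ∘ b, ω ∘ c)` is an involution, so
`#R * card (TT m → ZMod w) ^ 3 = #{(ω, x, y, z) : R (put ω x y z)}`; for fixed `ω` use `cyl` with
`f y z = ∃ x', R (put ω x' y z)`, `g x z = ∃ y', R (put ω x y' z)`, `h x y = ∃ z', R (put ω x y z')`.
-/

namespace Pool.Agent.US97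

open Finset

open Classical in
/-- `ω` overwritten by `x`, `y`, `z` at the places `a t`, `b t`, `c t`. -/
noncomputable def put {Idx : Type} {m w : ℕ} (a b c : TT m → Idx) (ω : Idx → ZMod w)
    (x y z : TT m → ZMod w) : Idx → ZMod w := fun p =>
  if h : ∃ t, a t = p then x h.choose else
    if h : ∃ t, b t = p then y h.choose else
      if h : ∃ t, c t = p then z h.choose else ω p

section Put

variable {Idx : Type} {m w : ℕ} {a b c : TT m → Idx} {ω : Idx → ZMod w} {x y z : TT m → ZMod w}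

theorem put_a (ha : Function.Injective a) (t : TT m) : put a b c ω x y z (a t) = x t := by
  have h : ∃ t', a t' = a t := ⟨t, rfl⟩
  rw [put, dif_pos h]
  exact congrArg x (ha h.choose_spec)

theorem put_b (hb : Function.Injective b) (hab : ∀ s t, a s ≠ b t) (t : TT m) :
    put a b c ω x y z (b t) = y t := by
  have h1 : ¬ ∃ t', a t' = b t := fun ⟨t', h⟩ => hab t' t h
  have h : ∃ t', b t' = b t := ⟨t, rfl⟩
  rw [put, dif_neg h1, dif_pos h]
  exact congrArg y (hb h.choose_spec)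

theorem put_c (hc : Function.Injective c) (hac : ∀ s t, a s ≠ c t) (hbc : ∀ s t, b s ≠ c t)
    (t : TT m) : put a b c ω x y z (c t) = z t := by
  have h1 : ¬ ∃ t', a t' = c t := fun ⟨t', h⟩ => hac t' t h
  have h2 : ¬ ∃ t', b t' = c t := fun ⟨t', h⟩ => hbc t' t h
  have h : ∃ t', c t' = c t := ⟨t, rfl⟩
  rw [put, dif_neg h1, dif_neg h2, dif_pos h]
  exact congrArg z (hc h.choose_spec)

theorem put_o {p : Idx} (h1 : ∀ t, a t ≠ p) (h2 : ∀ t, b t ≠ p) (h3 : ∀ t, c t ≠ p) :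
    put a b c ω x y z p = ω p := by
  rw [put, dif_neg (fun ⟨t, h⟩ => h1 t h), dif_neg (fun ⟨t, h⟩ => h2 t h),
    dif_neg (fun ⟨t, h⟩ => h3 t h)]

/-- Outside of the places `a t` the value does not depend on `x`. -/
theorem put_x {x' : TT m → ZMod w} {p : Idx} (h1 : ∀ t, a t ≠ p) :
    put a b c ω x y z p = put a b c ω x' y z p := by
  have h : ¬ ∃ t, a t = p := fun ⟨t, h⟩ => h1 t h
  rw [put, put, dif_neg h, dif_neg h]

theorem put_y {y' : TT m → ZMod w} {p : Idx} (h1 : ∀ t, b t ≠ p) :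
    put a b c ω x y z p = put a b c ω x y' z p := by
  have h : ¬ ∃ t, b t = p := fun ⟨t, h⟩ => h1 t h
  rw [put, put, dif_neg h, dif_neg h]

theorem put_z {z' : TT m → ZMod w} {p : Idx} (h1 : ∀ t, c t ≠ p) :
    put a b c ω x y z p = put a b c ω x y z' p := by
  have h : ¬ ∃ t, c t = p := fun ⟨t, h⟩ => h1 t h
  rw [put, put, dif_neg h, dif_neg h]

theorem put_put (ha : Function.Injective a) (hb : Function.Injective b)
    (hc : Function.Injective c) (hab : ∀ s t, a s ≠ b t) (hac : ∀ s t, a s ≠ c t)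
    (hbc : ∀ s t, b s ≠ c t) :
    put a b c (put a b c ω x y z) (fun t => ω (a t)) (fun t => ω (b t)) (fun t => ω (c t)) = ω := by
  funext p
  by_cases h1 : ∃ t, a t = p
  · obtain ⟨t, rfl⟩ := h1
    rw [put_a ha]
  by_cases h2 : ∃ t, b t = p
  · obtain ⟨t, rfl⟩ := h2
    rw [put_b hb hab]
  by_cases h3 : ∃ t, c t = p
  · obtain ⟨t, rfl⟩ := h3
    rw [put_c hc hac hbc]
  rw [put_o (fun t h => h1 ⟨t, h⟩) (fun t h => h2 ⟨t, h⟩) (fun t h => h3 ⟨t, h⟩),
    put_o (fun t h => h1 ⟨t, h⟩) (fun t h => h2 ⟨t, h⟩) (fun t h => h3 ⟨t, h⟩)]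

end Put

open Classical in
theorem spread {Idx : Type} [Fintype Idx] (m w : ℕ) [NeZero w] (a b c : TT m → Idx)
    (ha : Function.Injective a) (hb : Function.Injective b) (hc : Function.Injective c)
    (hab : ∀ s t, a s ≠ b t) (hac : ∀ s t, a s ≠ c t) (hbc : ∀ s t, b s ≠ c t)
    (R : (Idx → ZMod w) → Prop)
    (hmix : ∀ ω ω1 ω2 ω3 : Idx → ZMod w, R ω1 → R ω2 → R ω3 →
      (∀ p, (∀ t, a t ≠ p) → ω p = ω1 p) → (∀ p, (∀ t, b t ≠ p) → ω p = ω2 p) →
      (∀ p, (∀ t, c t ≠ p) → ω p = ω3 p) → ∀ t, ω (a t) + ω (b t) ≠ ω (c t)) :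
    ((univ.filter (fun ω : Idx → ZMod w => R ω)).card : ℝ) ≤
      (3 / 4) ^ m * (Fintype.card (Idx → ZMod w) : ℝ) := by
  classical
  set X := TT m → ZMod w with hX
  set Q : Finset ((Idx → ZMod w) × (X × X × X)) :=
    univ.filter (fun u => R (put a b c u.1 u.2.1 u.2.2.1 u.2.2.2)) with hQ
  have e1 : Q.card = (univ.filter (fun ω : Idx → ZMod w => R ω)).card * Fintype.card (X × X × X) := by
    have h1 : ((univ.filter (fun ω : Idx → ZMod w => R ω)) ×ˢ (univ : Finset (X × X × X))).card =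
        (univ.filter (fun ω : Idx → ZMod w => R ω)).card * Fintype.card (X × X × X) := by
      rw [card_product, card_univ]
    rw [← h1]
    refine card_bij' (fun u _ => (put a b c u.1 u.2.1 u.2.2.1 u.2.2.2,
        ((fun t => u.1 (a t)), (fun t => u.1 (b t)), (fun t => u.1 (c t)))))
      (fun u _ => (put a b c u.1 u.2.1 u.2.2.1 u.2.2.2,
        ((fun t => u.1 (a t)), (fun t => u.1 (b t)), (fun t => u.1 (c t))))) ?_ ?_ ?_ ?_
    · rintro ⟨ω, x, y, z⟩ hu
      rw [hQ, mem_filter] at hu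
      rw [mem_product, mem_filter]
      exact ⟨⟨mem_univ _, hu.2⟩, mem_univ _⟩
    · rintro ⟨ω, x, y, z⟩ hu
      rw [mem_product, mem_filter] at hu
      rw [hQ, mem_filter]
      refine ⟨mem_univ _, ?_⟩
      dsimp only at hu ⊢
      rw [put_put ha hb hc hab hac hbc]
      exact hu.1.2
    · rintro ⟨ω, x, y, z⟩ _
      dsimp only
      rw [put_put ha hb hc hab hac hbc]
      refine Prod.ext rfl (Prod.ext ?_ (Prod.ext ?_ ?_))
      · funext t
        exact put_a ha t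
      · funext t
        exact put_b hb hab t
      · funext t
        exact put_c hc hac hbc t
    · rintro ⟨ω, x, y, z⟩ _
      dsimp only
      rw [put_put ha hb hc hab hac hbc]
      refine Prod.ext rfl (Prod.ext ?_ (Prod.ext ?_ ?_))
      · funext t
        exact put_a ha t
      · funext t
        exact put_b hb hab t
      · funext t
        exact put_c hc hac hbc t
  have e2 : Q.card = ∑ ω : Idx → ZMod w,
      (univ.filter (fun s : X × X × X => R (put a b c ω s.1 s.2.1 s.2.2))).card := by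
    rw [card_eq_sum_card_fiberwise (f := fun u => u.1) (t := univ) (fun u _ => mem_univ _)]
    refine sum_congr rfl fun ω _ => ?_
    refine card_bij (fun u _ => u.2) ?_ ?_ ?_
    · rintro ⟨ω', s⟩ hu
      rw [mem_filter, hQ, mem_filter] at hu
      rw [mem_filter]
      obtain ⟨⟨-, h1⟩, h2⟩ := hu
      dsimp only at h1 h2 ⊢
      subst h2
      exact ⟨mem_univ _, h1⟩
    · rintro ⟨ω1, s1⟩ h1 ⟨ω2, s2⟩ h2 h
      rw [mem_filter] at h1 h2
      have h3 : ω1 = ω := h1.2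
      have h4 : ω2 = ω := h2.2
      have h5 : s1 = s2 := h
      rw [h3, h4, h5]
    · intro s hs
      rw [mem_filter] at hs
      refine ⟨(ω, s), ?_, rfl⟩
      rw [mem_filter, hQ, mem_filter]
      exact ⟨⟨mem_univ _, hs.2⟩, rfl⟩
  have e3 : ∀ ω : Idx → ZMod w,
      ((univ.filter (fun s : X × X × X => R (put a b c ω s.1 s.2.1 s.2.2))).card : ℝ) ≤
        (3 / 4) ^ m * (Fintype.card X : ℝ) ^ 3 := by
    intro ω
    obtain ⟨f, hf⟩ : ∃ f : X → X → Prop, ∀ y z, f y z ↔ ∃ x', R (put a b c ω x' y z) :=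
      ⟨_, fun _ _ => Iff.rfl⟩
    obtain ⟨g, hg⟩ : ∃ g : X → X → Prop, ∀ x z, g x z ↔ ∃ y', R (put a b c ω x y' z) :=
      ⟨_, fun _ _ => Iff.rfl⟩
    obtain ⟨h, hh⟩ : ∃ h : X → X → Prop, ∀ x y, h x y ↔ ∃ z', R (put a b c ω x y z') :=
      ⟨_, fun _ _ => Iff.rfl⟩
    have h1 := cyl m w f g h ?_
    · refine le_trans ?_ h1
      refine Nat.cast_le.2 (card_le_card fun s hs => ?_)
      rw [mem_filter] at hs ⊢
      exact ⟨mem_univ _, (hf _ _).2 ⟨_, hs.2⟩, (hg _ _).2 ⟨_, hs.2⟩, (hh _ _).2 ⟨_, hs.2⟩⟩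
    · intro x y z h1 h2 h3 t
      obtain ⟨x', h1⟩ := (hf _ _).1 h1
      obtain ⟨y', h2⟩ := (hg _ _).1 h2
      obtain ⟨z', h3⟩ := (hh _ _).1 h3
      have h4 := hmix (put a b c ω x y z) _ _ _ h1 h2 h3 (fun p hp => put_x hp)
        (fun p hp => put_y hp) (fun p hp => put_z hp) t
      rw [put_a ha, put_b hb hab, put_c hc hac hbc] at h4
      exact h4
  have hK : 0 < (Fintype.card X : ℝ) := by
    exact_mod_cast Fintype.card_pos
  have e4 : (Q.card : ℝ) ≤ (Fintype.card (Idx → ZMod w) : ℝ) *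
      ((3 / 4) ^ m * (Fintype.card X : ℝ) ^ 3) := by
    rw [e2, Nat.cast_sum]
    refine (sum_le_sum fun ω _ => e3 ω).trans ?_
    rw [sum_const, card_univ, nsmul_eq_mul]
  have e5 : (Q.card : ℝ) = ((univ.filter (fun ω : Idx → ZMod w => R ω)).card : ℝ) *
      (Fintype.card X : ℝ) ^ 3 := by
    rw [e1, Fintype.card_prod, Fintype.card_prod]
    push_cast
    ring
  rw [e5] at e4
  have hK3 : 0 < (Fintype.card X : ℝ) ^ 3 := by positivity
  refine le_of_mul_le_mul_right ?_ hK3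
  refine e4.trans (le_of_eq ?_)
  ring

end Pool.Agent.US97
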