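import Pool.Agent.US97.Spread
import Pool.Agent.US97.ArrSol
import Pool.Agent.US97.Geo
import Pool.Agent.TS42.Seg

/-!
# US97/UCoreS75: travel of `H` pointers on arrays in arbitrary order
-/

namespace Pool.Agent.US97.S75

open Finset Pool.Agent.TS42 Pool.Agent.US97

/-- the piece of the window `s` for the label `o` (the number is the kind of blocks which is not visited) -/
def Pc {n H : ℕ} {Q : Type} (M : NMachine n H Q) (x : Fin n → ℤ) (CA CB CC : Finset (Fin n))
    (o : Option (Fin 3 × Conf n H Q × Conf n H Q)) (k k' : Conf n H Q) : Prop :=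
  match o with
  | none => M.Seg x (CA ∪ (CB ∪ CC)) k k'
  | some (e, a, a') => k = a ∧ k' = a' ∧ M.Seg x (if e = 0 then CA else if e = 1 then CB else CC) k k'

def RR {n H : ℕ} {Q : Type} (M : NMachine n H Q) (W : ℕ) (CA CB CC : Finset (Fin n))
    (f : Fin W → Option (Fin 3 × Conf n H Q × Conf n H Q)) (x : Fin n → ℤ) : Prop :=
  ∃ σ : ℕ → Conf n H Q, σ 0 = M.start ∧ M.acc (σ W) ∧
    ∀ s : Fin W, Pc M x CA CB CC (f s) (σ s) (σ (s + 1))

theorem rr_mix {n H : ℕ} {Q : Type} (M : NMachine n H Q) (W : ℕ) (CA CB CC : Finset (Fin n))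
    (f : Fin W → Option (Fin 3 × Conf n H Q × Conf n H Q)) {x x1 x2 x3 : Fin n → ℤ}
    (h1 : RR M W CA CB CC f x1) (h2 : RR M W CA CB CC f x2) (h3 : RR M W CA CB CC f x3)
    (e1 : ∀ p, p ∉ CA → x1 p = x p) (e2 : ∀ p, p ∉ CB → x2 p = x p)
    (e3 : ∀ p, p ∉ CC → x3 p = x p) : M.Accepts x := by
  obtain ⟨σ, h0, ha, h⟩ := h1
  obtain ⟨σ2, _, _, h2⟩ := h2
  obtain ⟨σ3, _, _, h3⟩ := h3
  refine M.accepts_of_segs x W σ h0 ha (fun _ => ∅) fun s hs => ?_
  have g1 := h ⟨s, hs⟩
  have g2 := h2 ⟨s, hs⟩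
  have g3 := h3 ⟨s, hs⟩
  dsimp only at g1 g2 g3
  revert g1 g2 g3
  generalize f ⟨s, hs⟩ = o
  intro g1 g2 g3
  match o, g1, g2, g3 with
  | none, g1, _, _ =>
    have h5 : M.Seg x1 (CA ∪ (CB ∪ CC)) (σ s) (σ (s + 1)) := g1
    exact (h5.congr fun p hp => e1 p fun h => hp (Finset.mem_union_left _ h)).mono
      (Finset.empty_subset _)
  | some (e, a, a'), g1, g2, g3 =>
    obtain ⟨a1, b1, c1⟩ := g1
    obtain ⟨a2, b2, c2⟩ := g2
    obtain ⟨a3, b3, c3⟩ := g3
    rw [a1, b1] at c1 ⊢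
    rw [a2, b2] at c2
    rw [a3, b3] at c3
    by_cases k0 : e = 0
    · rw [if_pos k0] at c1
      exact (c1.congr fun p hp => e1 p hp).mono (Finset.empty_subset _)
    · by_cases k1 : e = 1
      · rw [if_neg k0, if_pos k1] at c2
        exact (c2.congr fun p hp => e2 p hp).mono (Finset.empty_subset _)
      · rw [if_neg k0, if_neg k1] at c3
        exact (c3.congr fun p hp => e3 p hp).mono (Finset.empty_subset _)

open Classical in
theorem vis {n H : ℕ} {Q : Type} (b l T W : ℕ) (c : ℕ → Conf n H Q) (B : Fin b → Finset (Fin n)) :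
    ∃ V : Fin W → Finset (Fin b), ∀ s i, i ∈ V s ↔
      ∃ t < T, travel c t / l = s ∧ ∃ a, (c t).2 a ∈ B i :=
  ⟨fun s => univ.filter fun i : Fin b => ∃ t < T, travel c t / l = s ∧ ∃ a, (c t).2 a ∈ B i,
    fun s i => by rw [Finset.mem_filter]; simp only [mem_univ, true_and]⟩

open Classical in
theorem rr_label {Q : Type} (n H b u D W z : ℕ) (hb : 0 < b) (hu : 0 < u)
    (hW : D < W * ell b u) (hWb : 32 * H ^ 3 * W ≤ b ^ 3)
    (hz : 24 * H * W < b * (z + 1)) (M : NMachine n H Q) (x : Fin n → ℤ) (T : ℕ)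
    (c : ℕ → Conf n H Q) (hc : M.Comp x T c) (htr : travel c T ≤ D) :
    ∃ (i j k : Fin b) (f : Fin W → Option (Fin 3 × Conf n H Q × Conf n H Q)),
      (univ.filter (fun s => (f s).isSome = true)).card ≤ z ∧
        RR M W (CA n b u i) (CB n b u j) (CC n b u k) f x := by
  have hl : 0 < ell b u := solA_ell_pos hb hu
  obtain ⟨τ, hτ0, hτW, hmono, hwin⟩ := exists_tau c T W (ell b u) hl (lt_of_le_of_lt htr hW)
  obtain ⟨VA, hVA⟩ := vis b (ell b u) T W c (CA n b u)
  obtain ⟨VB, hVB⟩ := vis b (ell b u) T W c (CB n b u)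
  obtain ⟨VC, hVC⟩ := vis b (ell b u) T W c (CC n b u)
  have cA : ∀ s, (VA s).card ≤ 2 * H := by
    intro s
    refine le_trans (Finset.card_le_card ?_) (card_vis b (ell b u) (ell b u) 0 T hl le_rfl c s)
    intro i hi
    rw [hVA] at hi
    obtain ⟨t, h1, h2, a, h3⟩ := hi
    rw [Finset.mem_filter]
    refine ⟨mem_univ _, t, h1, h2, a, ?_⟩
    unfold CA at h3
    rw [Finset.mem_filter] at h3
    rw [Nat.zero_add, Nat.zero_add]
    exact h3.2
  have cB : ∀ s, (VB s).card ≤ 2 * H := by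
    intro s
    refine le_trans (Finset.card_le_card ?_)
      (card_vis b (ell b u) (ell b u) (b * ell b u) T hl le_rfl c s)
    intro i hi
    rw [hVB] at hi
    obtain ⟨t, h1, h2, a, h3⟩ := hi
    rw [Finset.mem_filter]
    refine ⟨mem_univ _, t, h1, h2, a, ?_⟩
    unfold CB at h3
    rw [Finset.mem_filter] at h3
    rw [← Nat.add_mul, ← Nat.add_mul, ← Nat.add_assoc]
    exact h3.2
  have cC : ∀ s, (VC s).card ≤ 2 * H := by
    intro s
    refine le_trans (Finset.card_le_card ?_)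
      (card_vis b (ell b u) (8 * ell b u) (2 * b * ell b u) T hl (by omega) c s)
    intro i hi
    rw [hVC] at hi
    obtain ⟨t, h1, h2, a, h3⟩ := hi
    rw [Finset.mem_filter]
    refine ⟨mem_univ _, t, h1, h2, a, ?_⟩
    unfold CC at h3
    rw [Finset.mem_filter] at h3
    have e1 : 2 * b * ell b u + (i : ℕ) * (8 * ell b u) = (2 * b + 8 * (i : ℕ)) * ell b u := by ring
    have e2 : 2 * b * ell b u + ((i : ℕ) + 1) * (8 * ell b u) =
      (2 * b + 8 * (i : ℕ) + 8) * ell b u := by ring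
    rw [e1, e2]
    exact h3.2
  obtain ⟨i, j, k, hijk, hi, hj, hk⟩ := good_triple b W H hb VA VB VC cA cB cC hWb
  obtain ⟨f, hf⟩ : ∃ f : Fin W → Option (Fin 3 × Conf n H Q × Conf n H Q), ∀ s, f s =
      if i ∈ VA s ∨ j ∈ VB s ∨ k ∈ VC s then
        some (if i ∉ VA s then 0 else if j ∉ VB s then 1 else 2, c (τ s), c (τ (s + 1)))
      else none := ⟨_, fun _ => rfl⟩
  refine ⟨i, j, k, f, ?_, fun s => c (τ s), ?_, ?_, ?_⟩
  · have h1 : (univ.filter (fun s => (f s).isSome = true)).card ≤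
        (univ.filter (fun s => i ∈ VA s)).card + ((univ.filter (fun s => j ∈ VB s)).card +
          (univ.filter (fun s => k ∈ VC s)).card) := by
      refine le_trans (Finset.card_le_card (t := (univ.filter (fun s => i ∈ VA s)) ∪
        ((univ.filter (fun s => j ∈ VB s)) ∪ (univ.filter (fun s => k ∈ VC s)))) ?_)
        ((Finset.card_union_le _ _).trans (Nat.add_le_add_left (Finset.card_union_le _ _) _))
      intro s hs
      rw [Finset.mem_filter, hf] at hs
      rw [Finset.mem_union, Finset.mem_union, Finset.mem_filter, Finset.mem_filter,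
        Finset.mem_filter]
      by_cases c1 : i ∈ VA s ∨ j ∈ VB s ∨ k ∈ VC s
      · rcases c1 with c1 | c1 | c1
        · exact Or.inl ⟨mem_univ _, c1⟩
        · exact Or.inr (Or.inl ⟨mem_univ _, c1⟩)
        · exact Or.inr (Or.inr ⟨mem_univ _, c1⟩)
      · rw [if_neg c1] at hs
        simp at hs
    by_contra hcon
    have h2 : z + 1 ≤ (univ.filter (fun s => i ∈ VA s)).card +
        ((univ.filter (fun s => j ∈ VB s)).card + (univ.filter (fun s => k ∈ VC s)).card) := by omega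
    have h3 := Nat.mul_le_mul_left b h2
    rw [Nat.mul_add b (univ.filter (fun s => i ∈ VA s)).card,
      Nat.mul_add b (univ.filter (fun s => j ∈ VB s)).card] at h3
    have h4 : 24 * H * W = 8 * H * W + (8 * H * W + 8 * H * W) := by ring
    rw [h4] at hz
    exact absurd (lt_of_lt_of_le hz h3) (not_lt.2 (Nat.add_le_add hi (Nat.add_le_add hj hk)))
  · show c (τ 0) = M.start
    rw [hτ0]
    exact hc.1
  · show M.acc (c (τ W))
    rw [hτW]
    exact hc.2.2
  · intro s
    have hseg : ∀ B : Finset (Fin n), (∀ t, τ s ≤ t → t < τ (s + 1) → ∀ h, (c t).2 h ∉ B) →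
        M.Seg x B (c (τ s)) (c (τ (s + 1))) := fun B hB =>
      NMachine.Seg.of_path M x B _ _ (hmono (Nat.le_succ _)) c fun t ht ht' =>
        ⟨hc.2.1 t (hwin s t ht ht').1, hB t ht ht'⟩
    have hA : i ∉ VA s → ∀ t, τ s ≤ t → t < τ (s + 1) → ∀ h, (c t).2 h ∉ CA n b u i := by
      intro hi t ht ht' h hh
      exact hi ((hVA s i).2 ⟨t, (hwin s t ht ht').1, (hwin s t ht ht').2, h, hh⟩)
    have hB : j ∉ VB s → ∀ t, τ s ≤ t → t < τ (s + 1) → ∀ h, (c t).2 h ∉ CB n b u j := by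
      intro hi t ht ht' h hh
      exact hi ((hVB s j).2 ⟨t, (hwin s t ht ht').1, (hwin s t ht ht').2, h, hh⟩)
    have hC : k ∉ VC s → ∀ t, τ s ≤ t → t < τ (s + 1) → ∀ h, (c t).2 h ∉ CC n b u k := by
      intro hi t ht ht' h hh
      exact hi ((hVC s k).2 ⟨t, (hwin s t ht ht').1, (hwin s t ht ht').2, h, hh⟩)
    rw [hf]
    by_cases c0 : i ∈ VA s ∨ j ∈ VB s ∨ k ∈ VC s
    · rw [if_pos c0]
      refine ⟨rfl, rfl, hseg _ ?_⟩
      by_cases c1 : i ∈ VA s
      · by_cases c2 : j ∈ VB s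
        · have c3 : k ∉ VC s := fun h => hijk s ⟨c1, c2, h⟩
          rw [if_neg (not_not.2 c1), if_neg (not_not.2 c2)]
          rw [if_neg (by decide), if_neg (by decide)]
          exact hC c3
        · rw [if_neg (not_not.2 c1), if_pos c2]
          rw [if_neg (by decide), if_pos rfl]
          exact hB c2
      · rw [if_pos c1, if_pos rfl]
        exact hA c1
    · rw [if_neg c0]
      push Not at c0
      refine hseg _ fun t ht ht' h hh => ?_
      rcases Finset.mem_union.1 hh with h1 | h1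
      · exact hA c0.1 t ht ht' h h1
      · rcases Finset.mem_union.1 h1 with h1 | h1
        · exact hB c0.2.1 t ht ht' h h1
        · exact hC c0.2.2 t ht ht' h h1

theorem rs_mk {n b u : ℕ} (ω : Om n b u) {q : ℕ} (h : q < 6 * (b * ell b u)) :
    rs ω q = ω ⟨q, h⟩ := by
  unfold rs
  rw [dif_pos h]

theorem rs_eq {n b u : ℕ} (ω ω' : Om n b u) (q : ℕ)
    (h : ∀ hq : q < 6 * (b * ell b u), ω ⟨q, hq⟩ = ω' ⟨q, hq⟩) : rs ω q = rs ω' q := by
  unfold rs
  split_ifs with hq
  · exact h hq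
  · rfl

open Classical in
theorem spread' {Idx : Type} [Fintype Idx] (m w : ℕ) [NeZero w] (I : Fintype (Idx → ZMod w))
    (a b c : TT m → Idx)
    (ha : Function.Injective a) (hb : Function.Injective b) (hc : Function.Injective c)
    (hab : ∀ s t, a s ≠ b t) (hac : ∀ s t, a s ≠ c t) (hbc : ∀ s t, b s ≠ c t)
    (R : (Idx → ZMod w) → Prop)
    (hmix : ∀ ω ω1 ω2 ω3 : Idx → ZMod w, R ω1 → R ω2 → R ω3 →
      (∀ p, (∀ t, a t ≠ p) → ω p = ω1 p) → (∀ p, (∀ t, b t ≠ p) → ω p = ω2 p) →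
      (∀ p, (∀ t, c t ≠ p) → ω p = ω3 p) → ∀ t, ω (a t) + ω (b t) ≠ ω (c t)) :
    (((@univ _ I).filter (fun ω : Idx → ZMod w => R ω)).card : ℝ) ≤
      (3 / 4) ^ m * (@Fintype.card (Idx → ZMod w) I : ℝ) := by
  obtain rfl : I = (Pi.instFintype : Fintype (Idx → ZMod w)) := Subsingleton.elim _ _
  exact spread m w a b c ha hb hc hab hac hbc R hmix

open Classical in
theorem one_label {Q : Type} (n H b u W : ℕ) (hb : 0 < b) (hu : 0 < u)
    (hbl : 10 * (b * ell b u) ≤ n) (M : NMachine n H Q)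
    (hsound : ∀ ω : Om n b u, M.Accepts (arr ω) → ¬ Sol (arr ω)) (i j k : Fin b)
    (f : Fin W → Option (Fin 3 × Conf n H Q × Conf n H Q)) :
    ((univ.filter (fun ω : Om n b u =>
      RR M W (CA n b u i) (CB n b u j) (CC n b u k) f (arr ω))).card : ℝ) ≤
      (3 / 4) ^ (b * u) * (Fintype.card (Om n b u) : ℝ) := by
  have hcard : Fintype.card (TT (b * u)) = Fintype.card (HD b u) := by
    unfold TT HD
    rw [Fintype.card_prod, Fintype.card_prod, Fintype.card_prod, Fintype.card_fin, Fintype.card_fin,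
      Fintype.card_fin, Fintype.card_fin]
    ring
  obtain ⟨E⟩ : Nonempty (TT (b * u) ≃ HD b u) := ⟨Fintype.equivOfCardEq hcard⟩
  have lA : ∀ t, na b u i t < 6 * (b * ell b u) := fun t => by
    have := na_lt hb hu i t
    omega
  have lB : ∀ t, nb b u i j k t < 6 * (b * ell b u) := fun t => by
    have := nb_lt hb hu i j k t
    omega
  have lC : ∀ t, nc b u i j k t < 6 * (b * ell b u) := fun t => (nc_lt hb hu i j k t).2
  refine spread' (b * u) (ww n) _ (fun t => ⟨na b u i (E t), lA _⟩)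
    (fun t => ⟨nb b u i j k (E t), lB _⟩) (fun t => ⟨nc b u i j k (E t), lC _⟩) ?_ ?_ ?_ ?_ ?_ ?_
    (fun ω : Om n b u => RR M W (CA n b u i) (CB n b u j) (CC n b u k) f (arr ω)) ?_
  · intro s t h
    rw [Fin.mk.injEq] at h
    exact E.injective (na_inj hb hu i h)
  · intro s t h
    rw [Fin.mk.injEq] at h
    exact E.injective (nb_inj hb hu i j k h)
  · intro s t h
    rw [Fin.mk.injEq] at h
    exact E.injective (nc_inj hb hu i j k h)
  · intro s t h
    rw [Fin.mk.injEq] at h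
    have h1 := na_lt hb hu i (E s)
    have h2 := nb_lt hb hu i j k (E t)
    omega
  · intro s t h
    rw [Fin.mk.injEq] at h
    have h1 := na_lt hb hu i (E s)
    have h2 := nc_lt hb hu i j k (E t)
    omega
  · intro s t h
    rw [Fin.mk.injEq] at h
    have h1 := nb_lt hb hu i j k (E s)
    have h2 := nc_lt hb hu i j k (E t)
    omega
  · intro ω ω1 ω2 ω3 r1 r2 r3 m1 m2 m3 t hcon
    have hacc : M.Accepts (arr ω) := by
      refine rr_mix M W _ _ _ f r1 r2 r3 ?_ ?_ ?_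
      · intro p hp
        refine arr_congr_A hb hu hbl ω1 ω i (fun q hq => ?_) p hp
        refine rs_eq _ _ _ fun hq' => ?_
        refine (m1 ⟨q, hq'⟩ fun t h => ?_).symm
        rw [Fin.mk.injEq] at h
        exact hq _ h
      · intro p hp
        refine arr_congr_B hb hu hbl ω2 ω i j k (fun q hq => ?_) p hp
        refine rs_eq _ _ _ fun hq' => ?_
        refine (m2 ⟨q, hq'⟩ fun t h => ?_).symm
        rw [Fin.mk.injEq] at h
        exact hq _ h
      · intro p hp
        refine arr_congr_C hb hu hbl ω3 ω i j k (fun q hq => ?_) p hp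
        refine rs_eq _ _ _ fun hq' => ?_
        refine (m3 ⟨q, hq'⟩ fun t h => ?_).symm
        rw [Fin.mk.injEq] at h
        exact hq _ h
    refine hsound ω hacc (arr_sol hb hu hbl ω i j k (E t) ?_)
    rw [rs_mk ω (lA _), rs_mk ω (lB _), rs_mk ω (lC _)]
    exact hcon

open Classical in
theorem ucore {Q : Type} [Fintype Q] (n H b u D W z : ℕ) (hb : 0 < b) (hu : 0 < u)
    (hbl : 10 * (b * ell b u) ≤ n) (hW : D < W * ell b u) (hWb : 32 * H ^ 3 * W ≤ b ^ 3)
    (hz : 24 * H * W < b * (z + 1)) (M : NMachine n H Q)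
    (hbig : 3 * Fintype.card (Om n b u) ≤ 8 * (univ.filter (fun ω : Om n b u =>
      ∃ T c, M.Comp (arr ω) T c ∧ travel c T ≤ D)).card)
    (hsound : ∀ ω : Om n b u, M.Accepts (arr ω) → ¬ Sol (arr ω)) :
    (4 / 3 : ℝ) ^ (b * u) ≤
      8 / 3 * ((b : ℝ) ^ 3 * (1 + (W : ℝ) * (3 * (Fintype.card (Conf n H Q) : ℝ) ^ 2)) ^ z) := by
  obtain ⟨ι, hι⟩ : ∃ ι : Finset ((Fin b × Fin b × Fin b) ×
      (Fin W → Option (Fin 3 × Conf n H Q × Conf n H Q))),
      ι = (univ : Finset (Fin b × Fin b × Fin b)) ×ˢ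
        (univ.filter (fun f : Fin W → Option (Fin 3 × Conf n H Q × Conf n H Q) =>
          (univ.filter (fun s => (f s).isSome = true)).card ≤ z)) := ⟨_, rfl⟩
  have hιc : (ι.card : ℝ) ≤
      (b : ℝ) ^ 3 * (1 + (W : ℝ) * (3 * (Fintype.card (Conf n H Q) : ℝ) ^ 2)) ^ z := by
    have h2 := sparse_card (α := Fin 3 × Conf n H Q × Conf n H Q) W z
    rw [Fintype.card_prod, Fintype.card_prod, Fintype.card_fin] at h2
    have h3 : ι.card ≤ (b * (b * b)) *
        (1 + W * (3 * (Fintype.card (Conf n H Q) * Fintype.card (Conf n H Q)))) ^ z := by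
      rw [hι, Finset.card_product, Finset.card_univ, Fintype.card_prod, Fintype.card_prod,
        Fintype.card_fin]
      exact Nat.mul_le_mul_left _ h2
    calc (ι.card : ℝ) ≤ (((b * (b * b)) *
        (1 + W * (3 * (Fintype.card (Conf n H Q) * Fintype.card (Conf n H Q)))) ^ z : ℕ) : ℝ) := by
          exact_mod_cast h3
      _ = _ := by
          push_cast
          ring
  have hsub : (univ.filter (fun ω : Om n b u =>
      ∃ T c, M.Comp (arr ω) T c ∧ travel c T ≤ D)) ⊆ ι.biUnion (fun x =>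
        univ.filter (fun ω : Om n b u =>
          RR M W (CA n b u x.1.1) (CB n b u x.1.2.1) (CC n b u x.1.2.2) x.2 (arr ω))) := by
    intro ω hω
    rw [Finset.mem_filter] at hω
    obtain ⟨_, T, c, hc, htr⟩ := hω
    obtain ⟨i, j, k, f, hf, hR⟩ := rr_label n H b u D W z hb hu hW hWb hz M (arr ω) T c hc htr
    rw [Finset.mem_biUnion]
    refine ⟨((i, j, k), f), ?_, ?_⟩
    · rw [hι, Finset.mem_product, Finset.mem_filter]
      exact ⟨mem_univ _, mem_univ _, hf⟩
    · rw [Finset.mem_filter]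
      exact ⟨mem_univ _, hR⟩
  have h1 : ((univ.filter (fun ω : Om n b u =>
      ∃ T c, M.Comp (arr ω) T c ∧ travel c T ≤ D)).card : ℝ) ≤
      ι.card * ((3 / 4) ^ (b * u) * (Fintype.card (Om n b u) : ℝ)) := by
    have g1 := (Finset.card_le_card hsub).trans Finset.card_biUnion_le
    calc ((univ.filter (fun ω : Om n b u =>
      ∃ T c, M.Comp (arr ω) T c ∧ travel c T ≤ D)).card : ℝ) ≤
        ((∑ x ∈ ι, (univ.filter (fun ω : Om n b u =>
          RR M W (CA n b u x.1.1) (CB n b u x.1.2.1) (CC n b u x.1.2.2) x.2 (arr ω))).card : ℕ) :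
            ℝ) := by exact_mod_cast g1
      _ = ∑ x ∈ ι, ((univ.filter (fun ω : Om n b u =>
          RR M W (CA n b u x.1.1) (CB n b u x.1.2.1) (CC n b u x.1.2.2) x.2 (arr ω))).card : ℝ) := by
            push_cast
            rfl
      _ ≤ ∑ x ∈ ι, (3 / 4) ^ (b * u) * (Fintype.card (Om n b u) : ℝ) :=
            Finset.sum_le_sum fun x _ => one_label n H b u W hb hu hbl M hsound _ _ _ _
      _ = _ := by rw [Finset.sum_const, nsmul_eq_mul]
  have hO : (0 : ℝ) < (Fintype.card (Om n b u) : ℝ) := by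
    exact_mod_cast Fintype.card_pos
  have h2 : 3 * (Fintype.card (Om n b u) : ℝ) ≤ 8 * ((univ.filter (fun ω : Om n b u =>
      ∃ T c, M.Comp (arr ω) T c ∧ travel c T ≤ D)).card : ℝ) := by exact_mod_cast hbig
  have h3 : 3 * (Fintype.card (Om n b u) : ℝ) ≤
      (8 * (ι.card * (3 / 4) ^ (b * u))) * (Fintype.card (Om n b u) : ℝ) := by linarith
  have h4 : (3 : ℝ) ≤ 8 * (ι.card * (3 / 4) ^ (b * u)) := le_of_mul_le_mul_right h3 hO
  have h5 : (4 / 3 : ℝ) ^ (b * u) * (3 / 4) ^ (b * u) = 1 := by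
    rw [← mul_pow]
    norm_num
  have h6 : (0 : ℝ) < (4 / 3) ^ (b * u) := by positivity
  have h7 : 3 * (4 / 3 : ℝ) ^ (b * u) ≤ 8 * ι.card := by
    calc 3 * (4 / 3 : ℝ) ^ (b * u) ≤ (8 * (ι.card * (3 / 4) ^ (b * u))) * (4 / 3) ^ (b * u) :=
          mul_le_mul_of_nonneg_right h4 h6.le
      _ = 8 * ι.card * ((4 / 3 : ℝ) ^ (b * u) * (3 / 4) ^ (b * u)) := by ring
      _ = 8 * ι.card := by rw [h5, mul_one]
  linarith

end Pool.Agent.US97.S75
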