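import Pool.Agent.US97.Spread
import Pool.Agent.US97.ArrSol
import Pool.Agent.US97.Geo
import Pool.Agent.TS42.Seg
import Pool.Agent.US97.UCoreS75

/-!
# US97/UCore: travel of `H` pointers on arrays in arbitrary order (analogue of TS42/HeadCore)
-/

namespace Pool.Agent.US97

open Finset Pool.Agent.TS42

open Classical in
theorem ucore {Q : Type} [Fintype Q] (n H b u D W z : ℕ) (hb : 0 < b) (hu : 0 < u)
    (hbl : 10 * (b * ell b u) ≤ n) (hW : D < W * ell b u) (hWb : 32 * H ^ 3 * W ≤ b ^ 3)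
    (hz : 24 * H * W < b * (z + 1)) (M : NMachine n H Q)
    (hbig : 3 * Fintype.card (Om n b u) ≤ 8 * (univ.filter (fun ω : Om n b u =>
      ∃ T c, M.Comp (arr ω) T c ∧ travel c T ≤ D)).card)
    (hsound : ∀ ω : Om n b u, M.Accepts (arr ω) → ¬ Sol (arr ω)) :
    (4 / 3 : ℝ) ^ (b * u) ≤
      8 / 3 * ((b : ℝ) ^ 3 * (1 + (W : ℝ) * (3 * (Fintype.card (Conf n H Q) : ℝ) ^ 2)) ^ z) :=
  S75.ucore n H b u D W z hb hu hbl hW hWb hz M hbig hsound

end Pool.Agent.US97
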