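import Pool.Agent.US97.UNum
import Pool.Agent.US97.SolCard
import Pool.Agent.TS42.Final

/-!
# US97/UFin: arrays in arbitrary order, final form

`any_N`: `unum` with the same `M` for all `b, u`, `sol_card` (`¬ Sol` for at least 3/4 of the arrays), `arr_inp`.
`any_V`: `unum` with `D' = floor (4 D)`; for `b, u` the machine from Markov (`TP97.avg`: weights `p`, the set `I` of
the `ω` without solution), as in `TS42.vegas`; `toN_comp`, `toN_sound`.
-/

namespace Pool.Agent.US97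

open Finset Pool.Agent.TS42

open Classical in
/-- at least three quarters of the arrays have no solution -/
theorem nosol_card {n b u : ℕ} (hb : 0 < b) (hu : 0 < u) (hn : 10 * (b * ell b u) ≤ n) :
    3 * Fintype.card (Om n b u) ≤ 4 * (univ.filter (fun ω : Om n b u => ¬ Sol (arr ω))).card := by
  have h1 := sol_card hb hu hn
  have h2 : (univ.filter (fun ω : Om n b u => Sol (arr ω))).card +
      (univ.filter (fun ω : Om n b u => ¬ Sol (arr ω))).card = Fintype.card (Om n b u) := by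
    rw [card_filter_add_card_filter_not, card_univ]
  omega

theorem any_N (n H S : ℕ) (Q : Type) [Fintype Q] (hn : 2 ≤ n) (hH : 1 ≤ H) (hS : 1 ≤ S)
    (hQ : Fintype.card Q ≤ 2 ^ S) (M : NMachine n H Q) (D : ℕ) (hM : CertifiesU M D) :
    (n : ℝ) ^ 5 ≤ 10 ^ 21 * (H : ℝ) ^ 5 * (S + H * Real.logb 2 n) ^ 2 * ((D : ℝ) + n) ^ 3 := by
  classical
  refine unum n H S D hn hH hS hQ fun b u hb hu hbu =>
    ⟨M, ?_, fun ω hω => (hM _ (arr_inp hb hu hbu ω)).1 hω⟩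
  have h1 := nosol_card hb hu hbu
  have h2 : (univ.filter (fun ω : Om n b u => ¬ Sol (arr ω))).card ≤
      (univ.filter (fun ω : Om n b u => ∃ T c, M.Comp (arr ω) T c ∧ travel c T ≤ D)).card :=
    card_le_card fun ω hω => by
      rw [mem_filter] at hω ⊢
      exact ⟨hω.1, (hM _ (arr_inp hb hu hbu ω)).2 hω.2⟩
  omega

theorem solvesU_nonneg {n H : ℕ} {Q : Type} {A : LasVegas n H Q} {D : ℝ} (hA : SolvesU A D) :
    0 ≤ D := by
  have hx : InpU n (fun i : Fin n => ((i : ℕ) : ℤ)) := by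
    refine ⟨fun i j hij => ?_, fun i => ?_⟩
    · have h : ((i : ℕ) : ℤ) = ((j : ℕ) : ℤ) := hij
      exact Fin.ext (by exact_mod_cast h)
    have h1 : (i : ℕ) < n := i.isLt
    have h2 : n ≤ n ^ 3 := Nat.le_self_pow (by norm_num) n
    have h3 : ((i : ℕ) : ℤ) ≤ ((n ^ 3 : ℕ) : ℤ) := by exact_mod_cast (by omega : (i : ℕ) ≤ n ^ 3)
    rw [abs_of_nonneg (Int.natCast_nonneg _)]
    push_cast at h3
    exact h3
  exact le_trans (sum_nonneg fun ω _ => mul_nonneg (A.p_nonneg ω) (Nat.cast_nonneg _)) (hA _ hx).2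

theorem any_V (n H S : ℕ) (Q : Type) [Fintype Q] (hn : 2 ≤ n) (hH : 1 ≤ H) (hS : 1 ≤ S)
    (hQ : Fintype.card Q ≤ 2 ^ S) (A : LasVegas n H Q) (D : ℝ) (hA : SolvesU A D) :
    (n : ℝ) ^ 5 ≤ 10 ^ 23 * (H : ℝ) ^ 5 * (S + H * Real.logb 2 n) ^ 2 * (D + n) ^ 3 := by
  classical
  have hD0 := solvesU_nonneg hA
  obtain ⟨C, hC1, hC2⟩ := floor_aux D hD0
  have hlog : 0 ≤ Real.logb 2 n :=
    Real.logb_nonneg (by norm_num) (by exact_mod_cast (by omega : 1 ≤ n))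
  have h1 : (n : ℝ) ^ 5 ≤ 10 ^ 21 * (H : ℝ) ^ 5 * (S + H * Real.logb 2 n) ^ 2 * ((C : ℝ) + n) ^ 3 := by
    refine unum n H S C hn hH hS hQ fun b u hb hu hbu => ?_
    obtain ⟨o, ho⟩ := Pool.Agent.TP97.avg A.p A.p_nonneg A.p_sum
      (univ.filter (fun ω : Om n b u => ¬ Sol (arr ω)))
      (fun o ω => travel ((A.M o).run (arr ω)) ((A.M o).time (arr ω))) D
      (fun ω _ => (hA _ (arr_inp hb hu hbu ω)).2) C hC1
    refine ⟨(A.M o).toN, ?_, fun ω hω => toN_sound _ _ ((hA _ (arr_inp hb hu hbu ω)).1 o) hω⟩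
    have h2 := nosol_card hb hu hbu
    have h3 : ((univ.filter (fun ω : Om n b u => ¬ Sol (arr ω))).filter
        (fun ω => travel ((A.M o).run (arr ω)) ((A.M o).time (arr ω)) ≤ C)).card ≤
        (univ.filter (fun ω : Om n b u =>
          ∃ T c, (A.M o).toN.Comp (arr ω) T c ∧ travel c T ≤ C)).card :=
      card_le_card fun ω hω => by
        rw [mem_filter, mem_filter] at hω
        rw [mem_filter]
        exact ⟨mem_univ _, _, _, toN_comp _ _ ((hA _ (arr_inp hb hu hbu ω)).1 o) hω.1.2, hω.2⟩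
    omega
  have h2 : ((C : ℝ) + n) ^ 3 ≤ (4 * (D + n)) ^ 3 := by
    have hC' : (0 : ℝ) ≤ C := Nat.cast_nonneg C
    have hn' : (0 : ℝ) ≤ n := Nat.cast_nonneg n
    apply pow_le_pow_left₀ (by positivity)
    linarith
  have hDn : 0 ≤ D + n := by
    have hn' : (0 : ℝ) ≤ n := Nat.cast_nonneg n
    linarith
  have hX : 0 ≤ (H : ℝ) ^ 5 * (S + H * Real.logb 2 n) ^ 2 * (D + n) ^ 3 := by positivity
  calc (n : ℝ) ^ 5 ≤ 10 ^ 21 * (H : ℝ) ^ 5 * (S + H * Real.logb 2 n) ^ 2 * ((C : ℝ) + n) ^ 3 := h1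
    _ ≤ 10 ^ 21 * (H : ℝ) ^ 5 * (S + H * Real.logb 2 n) ^ 2 * (4 * (D + n)) ^ 3 :=
        mul_le_mul_of_nonneg_left h2 (by positivity)
    _ = 64 * 10 ^ 21 * ((H : ℝ) ^ 5 * (S + H * Real.logb 2 n) ^ 2 * (D + n) ^ 3) := by ring
    _ ≤ 10 ^ 23 * ((H : ℝ) ^ 5 * (S + H * Real.logb 2 n) ^ 2 * (D + n) ^ 3) :=
        mul_le_mul_of_nonneg_right (by norm_num) hX
    _ = 10 ^ 23 * (H : ℝ) ^ 5 * (S + H * Real.logb 2 n) ^ 2 * (D + n) ^ 3 := by ring

end Pool.Agent.US97
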