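import Pool.Agent.US97.UCore

/-!
# US97/UNum: the numbers

`κ = S + H log2 n ≥ 1`, `|Conf| = |Q| n^H ≤ 2^κ`.  If `2^20 * ...`: `b = ceil (sqrt (640 H^3 (D+n) / n))`,
`u = n / (40960 b^2)`, `W = D / ell + 1`, `z = 24 H W / b`.
If `u = 0`: `n < 40960 b^2`, `b^2 ≤ 2560 H^3 (D+n)/n` (as `b ≤ 2 sqrt`), so `n^2 ≤ 1.1 10^8 H^3 (D+n)`, hence
`n^4 ≤ 1.3 10^16 H^6 (D+n)^2`, `n ≤ D+n`, `H ≤ κ`, `H^6 ≤ H^5 κ^2`.
If `u ≥ 1`: `ell = 4096 u b ≥ n/(20 b)`, `W ≤ 20 b (D+n)/n`, `32 H^3 W ≤ 640 H^3 b (D+n)/n ≤ b^3`,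
`z ≤ 480 H (D+n)/n`, `1 + 3 W |Conf|^2 ≤ 2^(4 κ)` (as `b^2 ≤ n`, `W ≤ b^3/32`, `n ≤ 2^κ`),
`log2 (4/3) > 0.4`: `0.4 b u ≤ 2 κ + 4 κ z`, `b u ≥ n/(81920 b)`; so
`n^2 ≤ 4 10^8 b κ H (D+n)`, square, `b^2 ≤ 2560 H^3 (D+n)/n`: `n^5 ≤ 4.1 10^20 H^5 κ^2 (D+n)^3`.
-/

namespace Pool.Agent.US97

open Finset Pool.Agent.TS42

/-- the case `u = 0` -/
theorem unum_zero {n H κ N B : ℝ} (hn : 0 < n) (hH : 1 ≤ H) (hHκ : H ≤ κ) (hN : n ≤ N)
    (hB : B * n ≤ 2560 * H ^ 3 * N) (hnB : n ≤ 40960 * B) :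
    n ^ 5 ≤ 10 ^ 21 * H ^ 5 * κ ^ 2 * N ^ 3 := by
  have hN0 : 0 < N := by linarith
  have hH0 : 0 < H := by linarith
  have hκ1 : 1 ≤ κ := by linarith
  have h1 : n ^ 2 ≤ 104857600 * (H ^ 3 * N) := by
    have : n * n ≤ 40960 * B * n := mul_le_mul_of_nonneg_right hnB hn.le
    nlinarith
  have h2 : (n ^ 2) ^ 2 ≤ (104857600 * (H ^ 3 * N)) ^ 2 := pow_le_pow_left₀ (by positivity) h1 2
  have h3 : n ^ 5 ≤ 104857600 ^ 2 * (H ^ 6 * N ^ 3) := by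
    calc n ^ 5 = (n ^ 2) ^ 2 * n := by ring
      _ ≤ (104857600 * (H ^ 3 * N)) ^ 2 * N := mul_le_mul h2 hN hn.le (by positivity)
      _ = 104857600 ^ 2 * (H ^ 6 * N ^ 3) := by ring
  have h4 : H ^ 6 ≤ H ^ 5 * κ ^ 2 := by
    have : H ≤ κ ^ 2 := by nlinarith
    calc H ^ 6 = H ^ 5 * H := by ring
      _ ≤ H ^ 5 * κ ^ 2 := mul_le_mul_of_nonneg_left this (by positivity)
  have h5 : H ^ 6 * N ^ 3 ≤ H ^ 5 * κ ^ 2 * N ^ 3 := mul_le_mul_of_nonneg_right h4 (by positivity)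
  have h6 : 0 ≤ H ^ 5 * κ ^ 2 * N ^ 3 := by positivity
  calc n ^ 5 ≤ 104857600 ^ 2 * (H ^ 6 * N ^ 3) := h3
    _ ≤ 10 ^ 21 * (H ^ 5 * κ ^ 2 * N ^ 3) := by
        norm_num
        linarith
    _ = 10 ^ 21 * H ^ 5 * κ ^ 2 * N ^ 3 := by ring

/-- the case `u > 0` -/
theorem unum_pos {n H κ N b u z : ℝ} (hn : 0 < n) (hH : 1 ≤ H) (hκ1 : 1 ≤ κ) (hN : n ≤ N)
    (hb : 0 < b) (hB : b ^ 2 * n ≤ 2560 * H ^ 3 * N) (hnB : n ≤ 81920 * b ^ 2 * u)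
    (hz : z * n ≤ 480 * H * N) (hlog : 4 / 10 * (b * u) ≤ κ * (2 + 4 * z)) :
    n ^ 5 ≤ 10 ^ 21 * H ^ 5 * κ ^ 2 * N ^ 3 := by
  have hN0 : 0 < N := by linarith
  have hH0 : 0 < H := by linarith
  have hκ0 : 0 < κ := by linarith
  have hHN : n ≤ H * N := by nlinarith
  -- b u n ≤ 4805 κ H N
  have h1 : b * u * n ≤ 4805 * (κ * (H * N)) := by
    have e1 : 4 / 10 * (b * u) * n ≤ κ * (2 + 4 * z) * n := mul_le_mul_of_nonneg_right hlog hn.le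
    have e2 : κ * (2 + 4 * z) * n = κ * (2 * n + 4 * (z * n)) := by ring
    have e3 : κ * (2 * n + 4 * (z * n)) ≤ κ * (2 * (H * N) + 4 * (480 * H * N)) :=
      mul_le_mul_of_nonneg_left (by linarith) hκ0.le
    nlinarith
  have h2 : n ^ 2 ≤ 81920 * 4805 * (b * (κ * (H * N))) := by
    have e1 : n * n ≤ 81920 * b ^ 2 * u * n := mul_le_mul_of_nonneg_right hnB hn.le
    have e2 : 81920 * b ^ 2 * u * n = 81920 * (b * (b * u * n)) := by ring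
    have e3 : b * (b * u * n) ≤ b * (4805 * (κ * (H * N))) := mul_le_mul_of_nonneg_left h1 hb.le
    calc n ^ 2 = n * n := by ring
      _ ≤ 81920 * (b * (b * u * n)) := by rw [← e2]; exact e1
      _ ≤ 81920 * (b * (4805 * (κ * (H * N)))) := by linarith
      _ = 81920 * 4805 * (b * (κ * (H * N))) := by ring
  have h3 : (n ^ 2) ^ 2 ≤ (81920 * 4805 * (b * (κ * (H * N)))) ^ 2 :=
    pow_le_pow_left₀ (by positivity) h2 2
  have h4 : n ^ 5 ≤ (81920 * 4805) ^ 2 * 2560 * (H ^ 5 * κ ^ 2 * N ^ 3) := by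
    calc n ^ 5 = (n ^ 2) ^ 2 * n := by ring
      _ ≤ (81920 * 4805 * (b * (κ * (H * N)))) ^ 2 * n := mul_le_mul_of_nonneg_right h3 hn.le
      _ = (81920 * 4805) ^ 2 * (κ ^ 2 * (H ^ 2 * N ^ 2)) * (b ^ 2 * n) := by ring
      _ ≤ (81920 * 4805) ^ 2 * (κ ^ 2 * (H ^ 2 * N ^ 2)) * (2560 * H ^ 3 * N) :=
          mul_le_mul_of_nonneg_left hB (by positivity)
      _ = (81920 * 4805) ^ 2 * 2560 * (H ^ 5 * κ ^ 2 * N ^ 3) := by ring
  have h6 : 0 ≤ H ^ 5 * κ ^ 2 * N ^ 3 := by positivity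
  calc n ^ 5 ≤ (81920 * 4805) ^ 2 * 2560 * (H ^ 5 * κ ^ 2 * N ^ 3) := h4
    _ ≤ 10 ^ 21 * (H ^ 5 * κ ^ 2 * N ^ 3) := by
        norm_num
        linarith
    _ = 10 ^ 21 * H ^ 5 * κ ^ 2 * N ^ 3 := by ring

theorem pow_log {x κ z : ℝ} (hx : 0 ≤ x) (h : (4 / 3 : ℝ) ^ x ≤ ((2 : ℝ) ^ κ) ^ (2 + 4 * z)) :
    4 / 10 * x ≤ κ * (2 + 4 * z) := by
  have h1 : (2 : ℝ) ^ (4 / 10 * x) ≤ (4 / 3 : ℝ) ^ x := by
    rw [Real.rpow_mul (by norm_num)]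
    refine Real.rpow_le_rpow (by positivity) ?_ hx
    have h2 : ((2 : ℝ) ^ (4 / 10 : ℝ)) ^ (5 : ℕ) ≤ (4 / 3 : ℝ) ^ (5 : ℕ) := by
      rw [← Real.rpow_natCast, ← Real.rpow_mul (by norm_num)]
      have : (4 / 10 * ((5 : ℕ) : ℝ)) = ((2 : ℕ) : ℝ) := by norm_num
      rw [this, Real.rpow_natCast]
      norm_num
    exact le_of_pow_le_pow_left₀ (by norm_num) (by norm_num) h2
  have h3 : (2 : ℝ) ^ (4 / 10 * x) ≤ (2 : ℝ) ^ (κ * (2 + 4 * z)) := by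
    rw [Real.rpow_mul (by norm_num) κ]
    exact h1.trans h
  exact (Real.rpow_le_rpow_left_iff (by norm_num)).1 h3

open Classical in
theorem unum {Q : Type} [Fintype Q] (n H S D : ℕ) (hn : 2 ≤ n) (hH : 1 ≤ H) (hS : 1 ≤ S)
    (hQ : Fintype.card Q ≤ 2 ^ S)
    (hM : ∀ b u : ℕ, 0 < b → 0 < u → 10 * (b * ell b u) ≤ n → ∃ M : NMachine n H Q,
      3 * Fintype.card (Om n b u) ≤ 8 * (univ.filter (fun ω : Om n b u =>
        ∃ T c, M.Comp (arr ω) T c ∧ travel c T ≤ D)).card ∧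
      ∀ ω : Om n b u, M.Accepts (arr ω) → ¬ Sol (arr ω)) :
    (n : ℝ) ^ 5 ≤ 10 ^ 21 * (H : ℝ) ^ 5 * (S + H * Real.logb 2 n) ^ 2 * ((D : ℝ) + n) ^ 3 := by
  set κ : ℝ := (S : ℝ) + H * Real.logb 2 n with hκdef
  have hnR : (2 : ℝ) ≤ n := by exact_mod_cast hn
  have hn0 : (0 : ℝ) < n := by linarith
  have hlg : 1 ≤ Real.logb 2 n := by
    rw [show (1 : ℝ) = Real.logb 2 2 from (Real.logb_self_eq_one (by norm_num)).symm]
    exact Real.logb_le_logb_of_le (by norm_num) (by norm_num) hnR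
  have hHR : (1 : ℝ) ≤ H := by exact_mod_cast hH
  have hSR : (1 : ℝ) ≤ S := by exact_mod_cast hS
  have hHl : Real.logb 2 n ≤ H * Real.logb 2 n := le_mul_of_one_le_left (by linarith) hHR
  have hHκ : (H : ℝ) ≤ κ := by
    have : (H : ℝ) * 1 ≤ H * Real.logb 2 n := mul_le_mul_of_nonneg_left hlg (by linarith)
    rw [hκdef]; linarith
  have hκ2 : 2 ≤ κ := by rw [hκdef]; linarith
  have hκlg : Real.logb 2 n ≤ κ := by rw [hκdef]; linarith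
  have hκ0 : 0 < κ := by linarith
  have hD0 : (0 : ℝ) ≤ D := Nat.cast_nonneg D
  obtain ⟨N, hNdef⟩ : ∃ N : ℝ, N = (D : ℝ) + n := ⟨_, rfl⟩
  rw [← hNdef]
  have hnN : (n : ℝ) ≤ N := by rw [hNdef]; linarith
  have hN0 : 0 < N := by linarith
  -- b
  obtain ⟨A, hA⟩ : ∃ A : ℝ, A = 640 * (H : ℝ) ^ 3 * N / n := ⟨_, rfl⟩
  have hAn : A * n = 640 * (H : ℝ) ^ 3 * N := by rw [hA]; field_simp
  have hA640 : 640 ≤ A := by
    rw [hA, le_div_iff₀ hn0]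
    have h1 : (1 : ℝ) ≤ (H : ℝ) ^ 3 := one_le_pow₀ hHR
    have h2 : (1 : ℝ) * n ≤ (H : ℝ) ^ 3 * N := mul_le_mul h1 hnN hn0.le (by positivity)
    linarith
  obtain ⟨b, hb⟩ : ∃ b : ℕ, b = ⌈Real.sqrt A⌉₊ := ⟨_, rfl⟩
  have hsA : Real.sqrt A ^ 2 = A := Real.sq_sqrt (by linarith)
  have hsA0 : 0 ≤ Real.sqrt A := Real.sqrt_nonneg _
  have hs1 : 1 ≤ Real.sqrt A := by
    rw [Real.one_le_sqrt]; linarith
  have hb1 : Real.sqrt A ≤ b := by rw [hb]; exact Nat.le_ceil _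
  have hb2 : (b : ℝ) ≤ 2 * Real.sqrt A := by
    have : (b : ℝ) < Real.sqrt A + 1 := by rw [hb]; exact Nat.ceil_lt_add_one hsA0
    linarith
  have hbpos : (0 : ℝ) < b := by linarith
  have hbN : 0 < b := by exact_mod_cast hbpos
  have hbA : A ≤ (b : ℝ) ^ 2 := by
    rw [← hsA]; exact pow_le_pow_left₀ hsA0 hb1 2
  have hbA4 : (b : ℝ) ^ 2 * n ≤ 2560 * (H : ℝ) ^ 3 * N := by
    have h1 : (b : ℝ) ^ 2 ≤ (2 * Real.sqrt A) ^ 2 := pow_le_pow_left₀ hbpos.le hb2 2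
    rw [mul_pow, hsA] at h1
    have h2 : (b : ℝ) ^ 2 * n ≤ 2 ^ 2 * A * n := mul_le_mul_of_nonneg_right h1 hn0.le
    linarith
  -- u
  obtain ⟨u, hu⟩ : ∃ u : ℕ, u = n / (40960 * b ^ 2) := ⟨_, rfl⟩
  have hdpos : 0 < 40960 * b ^ 2 := by positivity
  have hu1 : 40960 * b ^ 2 * u ≤ n := by rw [hu]; exact Nat.mul_div_le _ _
  have hu2 : n < 40960 * b ^ 2 * (u + 1) := by rw [hu]; exact Nat.lt_mul_div_succ _ hdpos
  have hu2R : (n : ℝ) ≤ 40960 * (b : ℝ) ^ 2 * (u + 1) := by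
    have : ((n : ℕ) : ℝ) ≤ ((40960 * b ^ 2 * (u + 1) : ℕ) : ℝ) := by exact_mod_cast hu2.le
    push_cast at this
    exact this
  have hu1R : 40960 * (b : ℝ) ^ 2 * u ≤ n := by
    have : ((40960 * b ^ 2 * u : ℕ) : ℝ) ≤ (n : ℝ) := by exact_mod_cast hu1
    push_cast at this
    exact this
  rcases Nat.eq_zero_or_pos u with hu0 | hupos
  · refine unum_zero hn0 hHR hHκ hnN hbA4 ?_
    rw [hu0] at hu2R
    simpa using hu2R
  have huR : (1 : ℝ) ≤ u := by exact_mod_cast hupos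
  have hb2n : 40960 * (b : ℝ) ^ 2 ≤ n := by
    have : 40960 * (b : ℝ) ^ 2 * 1 ≤ 40960 * (b : ℝ) ^ 2 * u :=
      mul_le_mul_of_nonneg_left huR (by positivity)
    linarith
  have hbl : 10 * (b * ell b u) ≤ n := by
    unfold ell
    have : 10 * (b * (4096 * u * b)) = 40960 * b ^ 2 * u := by ring
    rw [this]; exact hu1
  have hell0 : 0 < ell b u := by unfold ell; positivity
  have hellR : (ell b u : ℝ) = 4096 * u * b := by unfold ell; push_cast; ring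
  have hnell : (n : ℝ) ≤ 20 * b * (ell b u : ℝ) := by
    rw [hellR]
    have h1 : 40960 * (b : ℝ) ^ 2 * (u + 1) ≤ 40960 * (b : ℝ) ^ 2 * (2 * u) :=
      mul_le_mul_of_nonneg_left (by linarith) (by positivity)
    have h2 : 20 * (b : ℝ) * (4096 * u * b) = 40960 * (b : ℝ) ^ 2 * (2 * u) := by ring
    linarith
  -- W, z
  obtain ⟨W, hW⟩ : ∃ W : ℕ, W = D / ell b u + 1 := ⟨_, rfl⟩
  have hW1 : D < W * ell b u := by
    rw [hW, mul_comm]; exact Nat.lt_mul_div_succ _ hell0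
  have hW2 : (W : ℝ) * n ≤ 20 * b * N := by
    have h1 : D / ell b u * ell b u ≤ D := Nat.div_mul_le_self _ _
    have h2 : ((D / ell b u : ℕ) : ℝ) * (ell b u : ℝ) ≤ D := by exact_mod_cast h1
    have h3 : (W : ℝ) = ((D / ell b u : ℕ) : ℝ) + 1 := by rw [hW]; push_cast; ring
    have h4 : ((D / ell b u : ℕ) : ℝ) * n ≤ ((D / ell b u : ℕ) : ℝ) * (20 * b * (ell b u : ℝ)) :=
      mul_le_mul_of_nonneg_left hnell (Nat.cast_nonneg _)
    have h5 : ((D / ell b u : ℕ) : ℝ) * (20 * b * (ell b u : ℝ)) ≤ 20 * b * D := by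
      calc _ = 20 * (b : ℝ) * (((D / ell b u : ℕ) : ℝ) * (ell b u : ℝ)) := by ring
        _ ≤ 20 * (b : ℝ) * D := mul_le_mul_of_nonneg_left h2 (by positivity)
    have hb1' : (1 : ℝ) ≤ b := by exact_mod_cast hbN
    have h6 : (n : ℝ) * 1 ≤ n * (20 * b) := mul_le_mul_of_nonneg_left (by linarith) hn0.le
    rw [h3, add_mul, hNdef, mul_add]
    linarith
  have hWb : 32 * H ^ 3 * W ≤ b ^ 3 := by
    have h1 : (32 * (H : ℝ) ^ 3 * W) * n ≤ (b : ℝ) ^ 3 * n := by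
      calc (32 * (H : ℝ) ^ 3 * W) * n = 32 * (H : ℝ) ^ 3 * (W * n) := by ring
        _ ≤ 32 * (H : ℝ) ^ 3 * (20 * b * N) := mul_le_mul_of_nonneg_left hW2 (by positivity)
        _ = b * (640 * (H : ℝ) ^ 3 * N) := by ring
        _ = b * (A * n) := by rw [hAn]
        _ ≤ b * ((b : ℝ) ^ 2 * n) :=
            mul_le_mul_of_nonneg_left (mul_le_mul_of_nonneg_right hbA hn0.le) hbpos.le
        _ = (b : ℝ) ^ 3 * n := by ring
    have h2 := le_of_mul_le_mul_right h1 hn0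
    exact_mod_cast h2
  obtain ⟨z, hz⟩ : ∃ z : ℕ, z = 24 * H * W / b := ⟨_, rfl⟩
  have hz1 : b * z ≤ 24 * H * W := by rw [hz]; exact Nat.mul_div_le _ _
  have hz2 : 24 * H * W < b * (z + 1) := by rw [hz]; exact Nat.lt_mul_div_succ _ hbN
  have hz1R : (b : ℝ) * z ≤ 24 * H * W := by exact_mod_cast hz1
  have hzn : (z : ℝ) * n ≤ 480 * H * N := by
    have h1 : b * ((z : ℝ) * n) ≤ b * (480 * H * N) := by
      calc b * ((z : ℝ) * n) = (b * z) * n := by ring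
        _ ≤ (24 * H * W) * n := mul_le_mul_of_nonneg_right hz1R hn0.le
        _ = 24 * H * (W * n) := by ring
        _ ≤ 24 * H * (20 * b * N) := mul_le_mul_of_nonneg_left hW2 (by positivity)
        _ = b * (480 * H * N) := by ring
    exact le_of_mul_le_mul_left h1 hbpos
  obtain ⟨M, hbig, hsound⟩ := hM b u hbN hupos hbl
  have hcore := ucore n H b u D W z hbN hupos hbl hW1 hWb hz2 M hbig hsound
  -- upper bound
  set P : ℝ := (2 : ℝ) ^ κ with hP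
  have hP1 : 1 ≤ P := Real.one_le_rpow (by norm_num) hκ0.le
  have hP0 : 0 < P := by linarith
  have hnlg : (n : ℝ) = (2 : ℝ) ^ Real.logb 2 n :=
    (Real.rpow_logb (by norm_num) (by norm_num) hn0).symm
  have hKP : (Fintype.card (Conf n H Q) : ℝ) ≤ P := by
    have h1 : Fintype.card (Conf n H Q) = Fintype.card Q * n ^ H := by
      simp [Conf, Fintype.card_prod]
    rw [h1]
    push_cast
    have h3 : (Fintype.card Q : ℝ) ≤ (2 : ℝ) ^ (S : ℝ) := by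
      rw [Real.rpow_natCast]; exact_mod_cast hQ
    have h4 : (n : ℝ) ^ H = (2 : ℝ) ^ (H * Real.logb 2 n) := by
      rw [mul_comm, Real.rpow_mul (by norm_num), ← hnlg, Real.rpow_natCast]
    rw [h4, hP, hκdef, Real.rpow_add (by norm_num)]
    exact mul_le_mul_of_nonneg_right h3 (by positivity)
  have hnP : (n : ℝ) ≤ P := by
    rw [hP]; nth_rewrite 1 [hnlg]
    exact Real.rpow_le_rpow_of_exponent_le (by norm_num) hκlg
  have hP2 : (2 : ℝ) ≤ P := hnR.trans hnP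
  have hb1' : (1 : ℝ) ≤ b := by exact_mod_cast hbN
  have hbP : 40960 * (b : ℝ) ≤ P := by
    have : (b : ℝ) * 1 ≤ b * b := mul_le_mul_of_nonneg_left hb1' hbpos.le
    have h2 : (b : ℝ) ^ 2 = b * b := by ring
    linarith
  have hb3P : 4 * (b : ℝ) ^ 3 ≤ P ^ 2 := by
    calc 4 * (b : ℝ) ^ 3 = (4 * (b : ℝ) ^ 2) * b := by ring
      _ ≤ P * P := mul_le_mul (by linarith [sq_nonneg (b : ℝ)]) (by linarith) hbpos.le hP0.le
      _ = P ^ 2 := by ring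
  have hW32 : 32 * (W : ℝ) ≤ (b : ℝ) ^ 3 := by
    have h1 : ((32 * H ^ 3 * W : ℕ) : ℝ) ≤ ((b ^ 3 : ℕ) : ℝ) := by exact_mod_cast hWb
    push_cast at h1
    have h2 : (1 : ℝ) ≤ (H : ℝ) ^ 3 := one_le_pow₀ hHR
    have h3 : (1 : ℝ) * W ≤ (H : ℝ) ^ 3 * W := mul_le_mul_of_nonneg_right h2 (Nat.cast_nonneg _)
    linarith
  have hinner : 1 + (W : ℝ) * (3 * (Fintype.card (Conf n H Q) : ℝ) ^ 2) ≤ P ^ 4 := by
    have h1 : (Fintype.card (Conf n H Q) : ℝ) ^ 2 ≤ P ^ 2 :=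
      pow_le_pow_left₀ (Nat.cast_nonneg _) hKP 2
    have h2 : 8 * (W : ℝ) ≤ P ^ 2 := by
      have : 0 ≤ (b : ℝ) ^ 3 := by positivity
      linarith
    have h3 : (8 * (W : ℝ)) * (Fintype.card (Conf n H Q) : ℝ) ^ 2 ≤ P ^ 2 * P ^ 2 :=
      mul_le_mul h2 h1 (by positivity) (by positivity)
    have h4 : 1 ≤ P ^ 4 := one_le_pow₀ hP1
    have h5 : (2 : ℝ) ^ 4 ≤ P ^ 4 := pow_le_pow_left₀ (by norm_num) hP2 4
    have h6 : P ^ 2 * P ^ 2 = P ^ 4 := by ring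
    linarith
  have hup : (4 / 3 : ℝ) ^ (b * u) ≤ P ^ (2 + 4 * z) := by
    calc (4 / 3 : ℝ) ^ (b * u) ≤ _ := hcore
      _ ≤ 8 / 3 * ((b : ℝ) ^ 3 * (P ^ 4) ^ z) := by
          apply mul_le_mul_of_nonneg_left _ (by norm_num)
          apply mul_le_mul_of_nonneg_left _ (by positivity)
          exact pow_le_pow_left₀ (by positivity) hinner z
      _ = (8 / 3 * (b : ℝ) ^ 3) * (P ^ 4) ^ z := by ring
      _ ≤ P ^ 2 * (P ^ 4) ^ z := by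
          apply mul_le_mul_of_nonneg_right _ (by positivity)
          have : 0 ≤ (b : ℝ) ^ 3 := by positivity
          linarith
      _ = P ^ (2 + 4 * z) := by rw [pow_add, pow_mul]
  have hlog : 4 / 10 * ((b : ℝ) * u) ≤ κ * (2 + 4 * (z : ℝ)) := by
    apply pow_log (by positivity)
    have h1 : (4 / 3 : ℝ) ^ ((b : ℝ) * u) = (4 / 3 : ℝ) ^ (b * u) := by
      rw [← Nat.cast_mul, Real.rpow_natCast]
    have h2 : ((2 : ℝ) ^ κ) ^ (2 + 4 * (z : ℝ)) = P ^ (2 + 4 * z) := by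
      rw [← hP, ← Real.rpow_natCast]
      push_cast
      rfl
    rw [h1, h2]
    exact hup
  refine unum_pos hn0 hHR (by linarith) hnN hbpos hbA4 ?_ hzn hlog
  have h1 : 40960 * (b : ℝ) ^ 2 * (u + 1) ≤ 40960 * (b : ℝ) ^ 2 * (2 * u) :=
    mul_le_mul_of_nonneg_left (by linarith) (by positivity)
  linarith

end Pool.Agent.US97
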